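import Mathlib
import Pool.Agent.Helper90.UN.Ad
import Pool.Agent.Helper56.SS.StepsDefs

/-!
# Extensions by commutative kernels: definitions

`adj k b x = ∑ b₁ x S(b₂)` is the left adjoint action of `B` on itself
(`Pool/Agent/Helper90/UN/Defs.lean`) and `adR k x` the linear map `b ↦ adj k b x`
(`Pool/Agent/Helper90/UN/Ad.lean`). `WithConv (B →ₗ[k] k)` is Mathlib's convolution algebra, that
is, the dual algebra of the coalgebra `B`: `f * g : b ↦ ∑ f(b₁) g(b₂)`.
-/

set_option autoImplicit false

open scoped TensorProduct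
open WithConv
open Pool.Agent.Helper90.UN Pool.Agent.Helper56.SS

namespace Pool.Agent.Helper49.FA

universe u

/-- Let `p` be the characteristic of `k`. `A` is commutative and generated as an algebra by a subspace
`U` which consists of primitive elements and whose image `ι(U)` is stable under the adjoint action of
`B`, and `B` acts on the Frobenius twist `U^(1)` through the quotient Hopf algebra `q : B → D`: `q` is
surjective and all elements `b` of its kernel satisfy `(f ^ p) (b) = 0` for the matrix coefficients
`f : b ↦ φ (b ▷ ι u)` (`u` in `U`, `φ` a linear form) of the `B`-module `U`. (The `p`-th powers are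
taken in the dual algebra of `B`; they span the space of matrix coefficients of `U^(1)`.) -/
structure TwistActs (k : Type u) [Field k] (p : ℕ) {A B D : Type u} [Ring A] [Ring B] [Ring D]
    [HopfAlgebra k A] [HopfAlgebra k B] [HopfAlgebra k D] (ι : A →ₐc[k] B) (q : B →ₐc[k] D) :
    Prop where
  comm : ∀ a a' : A, a * a' = a' * a
  surj : Function.Surjective q
  act : ∃ U : Submodule k A, Algebra.adjoin k (U : Set A) = ⊤ ∧
    (∀ u ∈ U, Coalgebra.comul (R := k) u = u ⊗ₜ[k] 1 + 1 ⊗ₜ[k] u) ∧
    (∀ u ∈ U, ∀ b : B, ∃ v ∈ U, adj k b (ι u) = ι v) ∧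
    ∀ u ∈ U, ∀ (φ : B →ₗ[k] k) (b : B), q b = 0 →
      (toConv (φ ∘ₗ adR k (ι u)) ^ p).ofConv b = 0

/-- The ideal of `k[X_1, ..., X_n]` generated by the `X_i ^ q X_j`. -/
noncomputable def tIdeal (k : Type u) [Field k] (q n : ℕ) : Ideal (MvPolynomial (Fin n) k) :=
  Ideal.span (Set.range fun t : Fin n × Fin n => MvPolynomial.X t.1 ^ q * MvPolynomial.X t.2)

/-- The linear map `act` is an action of the Hopf algebra `B` on the algebra `P`, which makes `P` a
module algebra: `1 f = f`, `(b b') f = b (b' f)`, `b 1 = ε(b) 1` and `b (f g) = ∑ (b₁ f) (b₂ g)`. -/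
structure IsModAlg (k : Type u) [Field k] {B P : Type u} [Ring B] [HopfAlgebra k B] [CommRing P]
    [Algebra k P] (act : B →ₗ[k] P →ₗ[k] P) : Prop where
  one_act : ∀ f, act 1 f = f
  mul_act : ∀ b b' f, act (b * b') f = act b (act b' f)
  act_one : ∀ b, act b 1 = Coalgebra.counit (R := k) b • (1 : P)
  act_mul : ∀ (b : B) (f g : P), act b (f * g) =
    TensorProduct.lift ((LinearMap.mul k P).compl₁₂ (act.flip f) (act.flip g)) (Coalgebra.comul b)

/-- The linear form `f` is central in the dual algebra of `B`. -/
def IsCentralForm {k : Type u} [Field k] {B : Type u} [Ring B] [HopfAlgebra k B] (f : B →ₗ[k] k) :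
    Prop :=
  ∀ g : B →ₗ[k] k, toConv f * toConv g = toConv g * toConv f

/-- A thickening of the adjoint action of `B` on `ι(A)`: a commutative algebra
`P = k[X_1, ..., X_n] / (X_i ^ q X_j)` (it is generated by the `X_i`, and the ideal of relations between
the `X_i` is generated by the `X_i ^ q X_j`), a surjective algebra homomorphism `ev : P → A` such that
`x_i = ev (X_i)` satisfies `ε(x_i) = 0` and `x_i ^ q = 0`, where `dim A = q ^ n` (so that
`A = k[x_1, ..., x_n] / (x_i ^ q)`), and an action `act` of `B` on `P`, which makes `P` a module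
algebra, lifts the adjoint action (`ι (ev (b f)) = b ▷ ι (ev f)`) and is trivial on `A`
(`ι(a) f = ε(a) f`). -/
structure ThickAct (k : Type u) [Field k] (q : ℕ) {n : ℕ} {A B P : Type u} [Ring A] [Ring B]
    [CommRing P] [HopfAlgebra k A] [HopfAlgebra k B] [Algebra k P] (ι : A →ₐc[k] B)
    (X : Fin n → P) (ev : P →ₐ[k] A) (act : B →ₗ[k] P →ₗ[k] P) : Prop where
  gen : Algebra.adjoin k (Set.range X) = ⊤
  rel : ∀ f : MvPolynomial (Fin n) k, MvPolynomial.aeval X f = 0 ↔ f ∈ tIdeal k q n
  surj : Function.Surjective ev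
  aug : ∀ i, Coalgebra.counit (R := k) (ev (X i)) = 0
  pow : ∀ i, ev (X i) ^ q = 0
  finrank : Module.finrank k A = q ^ n
  alg : IsModAlg k act
  lift : ∀ (b : B) (f : P), ι (ev (act b f)) = adj k b (ι (ev f))
  triv : ∀ (a : A) (f : P), act (ι a) f = Coalgebra.counit (R := k) a • f

/-- Let `p` be the characteristic of `k`. `A` is commutative and there is a thickening `ev : P → A` of
the adjoint action of `B` on `ι(A)` for some power `p ^ s > 1` of `p` such that `B` acts on the kernel
of `ev` (it is spanned by the `X_i ^ (p ^ s)`) through the quotient Hopf algebra `q : B → D`, and the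
matrix coefficients `b ↦ φ (b f)` (`f` in this kernel, `φ` a linear form on `P`) are central in the
dual algebra of `B`. -/
structure LiftedActs (k : Type u) [Field k] (p : ℕ) {A B D : Type u} [Ring A] [Ring B] [Ring D]
    [HopfAlgebra k A] [HopfAlgebra k B] [HopfAlgebra k D] (ι : A →ₐc[k] B) (q : B →ₐc[k] D) :
    Prop where
  comm : ∀ a a' : A, a * a' = a' * a
  surj : Function.Surjective q
  act : ∃ (n s : ℕ) (P : Type u) (_ : CommRing P) (_ : Algebra k P) (X : Fin n → P)
    (ev : P →ₐ[k] A) (act : B →ₗ[k] P →ₗ[k] P), 0 < s ∧ ThickAct k (p ^ s) ι X ev act ∧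
    (∀ f, ev f = 0 → ∀ b, q b = 0 → act b f = 0) ∧
    ∀ f, ev f = 0 → ∀ φ : P →ₗ[k] k, IsCentralForm (φ ∘ₗ act.flip f)

/-- `TwistSteps k C B`: the Hopf algebra `B` is reached from the Hopf algebra `C` by finitely many
steps of the following kinds. -/
inductive TwistSteps (k : Type u) [Field k] (C : Type u) [Ring C] [HopfAlgebra k C] :
    (B : Type u) → [Ring B] → [HopfAlgebra k B] → Prop
  /-- no step -/
  | refl : TwistSteps k C C
  /-- from `B'` to `B` in an exact sequence `A → B → B'`, in characteristic `p`, if `A` is commutative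
  and generated by a stable subspace `U` of primitive elements and `B` acts on `U^(1)` through a
  semisimple quotient Hopf algebra `D` -/
  | twist (p : ℕ) [Fact p.Prime] [CharP k p] {A B B' D : Type u} [Ring A] [Ring B] [Ring B'] [Ring D]
      [HopfAlgebra k A] [HopfAlgebra k B] [HopfAlgebra k B'] [HopfAlgebra k D] [IsSemisimpleRing D]
      (ι : A →ₐc[k] B) (π : B →ₐc[k] B') (q : B →ₐc[k] D) (hex : HopfExact k ι π)
      (hq : TwistActs k p ι q) (h : TwistSteps k C B') : TwistSteps k C B
  /-- from `B'` to `B` in an exact sequence `A → B → B'`, in characteristic `p`, if `A` is commutative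
  and the adjoint action of `B` on `A` has a thickening `P → A` on whose kernel `B` acts through a
  semisimple quotient Hopf algebra `D`, with central matrix coefficients -/
  | lift (p : ℕ) [Fact p.Prime] [CharP k p] {A B B' D : Type u} [Ring A] [Ring B] [Ring B'] [Ring D]
      [HopfAlgebra k A] [HopfAlgebra k B] [HopfAlgebra k B'] [HopfAlgebra k D] [IsSemisimpleRing D]
      (ι : A →ₐc[k] B) (π : B →ₐc[k] B') (q : B →ₐc[k] D) (hex : HopfExact k ι π)
      (hq : LiftedActs k p ι q) (h : TwistSteps k C B') : TwistSteps k C B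

end Pool.Agent.Helper49.FA
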