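import Pool.Agent.Helper49.FA.Coef
import Pool.Agent.Helper90.UN.Local

/-!
# Project FA: the matrix of a stable space of primitive elements
-/

set_option linter.unusedSectionVars false
set_option autoImplicit false

open scoped TensorProduct
open WithConv
open Pool.Agent.Helper90.FC Pool.Agent.Helper90.UN Pool.Agent.Helper56.SS

namespace Pool.Agent.Helper49.FA

universe u

theorem sum_pow_char_comm {R : Type*} [Ring R] (p : ℕ) [Fact p.Prime] [CharP R p] {I : Type*}
    (s : Finset I) (f : I → R) (h : ∀ i j, Commute (f i) (f j)) :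
    (∑ i ∈ s, f i) ^ p = ∑ i ∈ s, f i ^ p := by
  classical
  induction s using Finset.induction_on with
  | empty => rw [Finset.sum_empty, Finset.sum_empty, zero_pow (Fact.out : p.Prime).ne_zero]
  | insert i s hi ih =>
    rw [Finset.sum_insert hi, Finset.sum_insert hi, add_pow_char_of_commute, ih]
    exact Commute.sum_right _ _ _ fun j _ => h i j

theorem charP_end (k : Type*) [Field k] (V : Type*) [AddCommGroup V] [Module k V] [Nontrivial V]
    (p : ℕ) [CharP k p] : CharP (Module.End k V) p :=
  charP_of_injective_algebraMap (algebraMap k (Module.End k V)).injective p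

section

variable {k : Type u} [Field k] {A B : Type u} [Ring A] [Ring B] [HopfAlgebra k A]
    [HopfAlgebra k B]

/-- A basis of `U` and dual linear forms on `B`. -/
structure MatU (ι : A →ₐc[k] B) (U : Submodule k A) (n : ℕ) where
  x : Fin n → A
  phi : Fin n → B →ₗ[k] k
  mem : ∀ i, x i ∈ U
  li : LinearIndependent k x
  span : Submodule.span k (Set.range x) = U
  dual : ∀ i j, phi i (ι (x j)) = if i = j then 1 else 0
  coord : ∀ u ∈ U, u = ∑ i, phi i (ι u) • x i

theorem exists_matU [Module.Finite k A] (ι : A →ₐc[k] B) (hi : Function.Injective ι)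
    (U : Submodule k A) : ∃ n, Nonempty (MatU ι U n) := by
  let bs := Module.finBasis k U
  obtain ⟨g, hg⟩ := LinearMap.exists_leftInverse_of_injective
    ((ι : A →ₗ[k] B) ∘ₗ U.subtype) (LinearMap.ker_eq_bot.2 (hi.comp U.injective_subtype))
  have hg' : ∀ u : U, g (ι (u : A)) = u := fun u => LinearMap.congr_fun hg u
  refine ⟨_, ⟨⟨fun i => (bs i : A), fun i => bs.coord i ∘ₗ g, fun i => (bs i).2, ?_, ?_, ?_, ?_⟩⟩⟩
  · exact bs.linearIndependent.map' U.subtype U.ker_subtype
  · have h1 := bs.span_eq
    have h2 : Set.range (fun i => (bs i : A)) = U.subtype '' Set.range bs := by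
      rw [← Set.range_comp]
      rfl
    rw [h2, ← Submodule.map_span, h1, Submodule.map_top, Submodule.range_subtype]
  · intro i j
    change bs.coord i (g (ι (bs j : A))) = _
    rw [hg', Module.Basis.coord_apply, bs.repr_self, Finsupp.single_apply]
    exact if_congr eq_comm rfl rfl
  · intro u hu
    have h1 := congrArg Subtype.val (bs.sum_repr ⟨u, hu⟩)
    rw [AddSubmonoidClass.coe_finsetSum] at h1
    refine h1.symm.trans (Finset.sum_congr rfl fun i _ => ?_)
    change (bs.repr ⟨u, hu⟩ i) • (bs i : A) = (bs.coord i (g (ι u))) • (bs i : A)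
    rw [show g (ι u) = ⟨u, hu⟩ from hg' ⟨u, hu⟩]
    rfl

variable {ι : A →ₐc[k] B} {U : Submodule k A} {n : ℕ} (M : MatU ι U n)

/-- The matrix of the `B`-module `U`. -/
noncomputable def MatU.m (i j : Fin n) : WithConv (B →ₗ[k] k) :=
  toConv (M.phi i ∘ₗ adR k (ι (M.x j)))

theorem MatU.m_apply (i j : Fin n) (b : B) : (M.m i j).ofConv b = M.phi i (adj k b (ι (M.x j))) :=
  rfl

variable (hprim : ∀ u ∈ U, Coalgebra.comul (R := k) u = u ⊗ₜ[k] 1 + 1 ⊗ₜ[k] u)
  (hstab : ∀ u ∈ U, ∀ b : B, ∃ v ∈ U, adj k b (ι u) = ι v)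

include hstab in
theorem MatU.adj_x (b : B) (j : Fin n) :
    adj k b (ι (M.x j)) = ∑ i, (M.m i j).ofConv b • ι (M.x i) := by
  obtain ⟨v, hv, h⟩ := hstab (M.x j) (M.mem j) b
  have h1 := congrArg ι (M.coord v hv)
  rw [map_sum] at h1
  rw [h]
  refine h1.trans (Finset.sum_congr rfl fun i _ => ?_)
  rw [M.m_apply, h, map_smul]

include hstab in
theorem MatU.m_mul (i j : Fin n) (b b' : B) :
    (M.m i j).ofConv (b * b') = ∑ l, (M.m i l).ofConv b * (M.m l j).ofConv b' := by
  have hadd : ∀ (b : B) (s : Finset (Fin n)) (c : Fin n → k) (y : Fin n → B),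
      adj k b (∑ l ∈ s, c l • y l) = ∑ l ∈ s, c l • adj k b (y l) := by
    intro b s c y
    classical
    induction s using Finset.induction_on with
    | empty => rw [Finset.sum_empty, Finset.sum_empty, adj_tensor_zero]
    | insert l s hl ih =>
      rw [Finset.sum_insert hl, Finset.sum_insert hl, adj_tensor_add, adj_tensor_smul, ih]
  rw [M.m_apply, adj_mul, M.adj_x hstab b' j, hadd, map_sum]
  refine Finset.sum_congr rfl fun l _ => ?_
  rw [map_smul, smul_eq_mul, mul_comm]
  rfl

theorem MatU.m_one (i j : Fin n) : (M.m i j).ofConv 1 = if i = j then 1 else 0 := by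
  rw [M.m_apply, adj_one, M.dual]

include hprim hstab in
theorem MatU.m_comm (i j : Fin n) (f : WithConv (B →ₗ[k] k)) : M.m i j * f = f * M.m i j := by
  refine coef_comm (fun b => ?_) _ f
  obtain ⟨v, hv, h⟩ := hstab (M.x j) (M.mem j) b
  rw [h]
  have h1 : TensorProduct.map (ι : A →ₗ[k] B) (ι : A →ₗ[k] B) (Coalgebra.comul (R := k) v) =
        Coalgebra.comul (R := k) (ι v) := CoalgHomClass.map_comp_comul_apply ι v
  rw [← h1, hprim v hv, map_add, TensorProduct.map_tmul, TensorProduct.map_tmul]
  have h2 : (ι : A →ₗ[k] B) 1 = 1 := map_one ι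
  rw [h2]
  rfl

/-- `Lf` of a product of linear forms -/
theorem Lf_mul (f g : WithConv (B →ₗ[k] k)) (b : B) :
    Lf (f * g).ofConv b = Lf g.ofConv (Lf f.ofConv b) := by
  have h : ∀ t : B ⊗[k] B, TensorProduct.lid k B (g.ofConv.rTensor B ((Lf f.ofConv).rTensor B t)) =
      TensorProduct.lid k B ((f * g).ofConv.rTensor B t) := by
    intro t
    induction t with
    | zero => simp
    | add x y hx hy => simp only [map_add, hx, hy]
    | tmul x y =>
      simp only [LinearMap.rTensor_tmul, TensorProduct.lid_tmul, Lf_apply]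
      congr 1
      change _ = LinearMap.mul' k k (TensorProduct.map f.ofConv g.ofConv
        (Coalgebra.comul (R := k) x))
      induction Coalgebra.comul (R := k) x with
      | zero => simp
      | add s t hs ht => simp only [map_add, hs, ht]
      | tmul u v => simp
  rw [Lf_apply g.ofConv, comul_Lf, h, ← Lf_apply]

/-- `b ↦ f(b₁) b₂`, as an endomorphism -/
noncomputable def TT (f : WithConv (B →ₗ[k] k)) : Module.End k B := Lf f.ofConv

theorem TT_apply (f : WithConv (B →ₗ[k] k)) (b : B) : TT f b = Lf f.ofConv b := rfl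

theorem TT_mul (f g : WithConv (B →ₗ[k] k)) : TT (f * g) = TT g * TT f :=
  LinearMap.ext fun b => Lf_mul f g b

theorem TT_one : TT (1 : WithConv (B →ₗ[k] k)) = 1 := by
  refine LinearMap.ext fun b => ?_
  have h : (1 : WithConv (B →ₗ[k] k)).ofConv = Coalgebra.counit (R := k) := by
    refine LinearMap.ext fun x => ?_
    change algebraMap k k (Coalgebra.counit (R := k) x) = _
    rfl
  rw [TT_apply, h, Lf_counit]
  rfl

theorem TT_pow (f : WithConv (B →ₗ[k] k)) (r : ℕ) : TT (f ^ r) = TT f ^ r := by
  induction r with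
  | zero => rw [pow_zero, pow_zero, TT_one]
  | succ r ih => rw [pow_succ', pow_succ, TT_mul, ih]

theorem TT_smul (c : k) (f : WithConv (B →ₗ[k] k)) : TT (c • f) = c • TT f := by
  refine LinearMap.ext fun b => ?_
  rw [TT_apply, Lf_apply, LinearMap.smul_apply, TT_apply, Lf_apply]
  have h : (c • f).ofConv = c • f.ofConv := rfl
  rw [h, LinearMap.rTensor_smul, LinearMap.smul_apply, map_smul]

theorem TT_comm {f g : WithConv (B →ₗ[k] k)} (h : f * g = g * f) : Commute (TT f) (TT g) := by
  change TT f * TT g = TT g * TT f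
  rw [← TT_mul, ← TT_mul, h]

/-- `T_ij(b b') = ∑ T_il(b) T_lj(b')` -/
theorem TT_prod (f : WithConv (B →ₗ[k] k)) {I : Type} (s : Finset I)
    (g h : I → WithConv (B →ₗ[k] k))
    (hf : ∀ b b', f.ofConv (b * b') = ∑ l ∈ s, (g l).ofConv b * (h l).ofConv b') (b b' : B) :
    TT f (b * b') = ∑ l ∈ s, TT (g l) b * TT (h l) b' := by
  have h1 : ∀ t t' : B ⊗[k] B, TensorProduct.lid k B (f.ofConv.rTensor B (t * t')) =
      ∑ l ∈ s, TensorProduct.lid k B ((g l).ofConv.rTensor B t) *
        TensorProduct.lid k B ((h l).ofConv.rTensor B t') := by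
    intro t t'
    induction t with
    | zero => simp
    | add x y hx hy =>
      rw [add_mul, map_add, map_add, hx, hy, ← Finset.sum_add_distrib]
      refine Finset.sum_congr rfl fun l _ => ?_
      rw [map_add, map_add, add_mul]
    | tmul x y =>
      induction t' with
      | zero => simp
      | add u v hu hv =>
        rw [mul_add, map_add, map_add, hu, hv, ← Finset.sum_add_distrib]
        refine Finset.sum_congr rfl fun l _ => ?_
        rw [map_add, map_add, mul_add]
      | tmul u v =>
        rw [Algebra.TensorProduct.tmul_mul_tmul, LinearMap.rTensor_tmul, TensorProduct.lid_tmul,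
          hf, Finset.sum_smul]
        refine Finset.sum_congr rfl fun l _ => ?_
        rw [LinearMap.rTensor_tmul, TensorProduct.lid_tmul, LinearMap.rTensor_tmul,
          TensorProduct.lid_tmul, smul_mul_smul_comm]
  rw [TT_apply, Lf_apply, Bialgebra.comul_mul, h1]
  rfl

include hstab in
theorem MatU.TT_m_mul (i j : Fin n) (b b' : B) :
    TT (M.m i j) (b * b') = ∑ l, TT (M.m i l) b * TT (M.m l j) b' :=
  TT_prod _ _ _ _ (M.m_mul hstab i j) b b'

include hprim hstab in
/-- The Frobenius twist of `U`. -/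
theorem MatU.TT_m_pow_mul (p : ℕ) [Fact p.Prime] [CharP k p] (i j : Fin n) (b b' : B) :
    TT (M.m i j ^ p) (b * b') = ∑ l, TT (M.m i l ^ p) b * TT (M.m l j ^ p) b' := by
  have hB : Nontrivial B := ⟨⟨0, 1, fun h => by
    have h2 : Coalgebra.counit (R := k) (0 : B) = Coalgebra.counit (R := k) (1 : B) := by rw [h]
    rw [map_zero, Bialgebra.counit_one] at h2
    exact zero_ne_one h2⟩⟩
  have hBB : Nontrivial (B ⊗[k] B) := by
    refine ⟨⟨0, 1 ⊗ₜ[k] 1, fun h => ?_⟩⟩
    have h2 := congrArg ((TensorProduct.lid k k).toLinearMap ∘ₗ TensorProduct.map (Coalgebra.counit (R := k))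
      (Coalgebra.counit (R := k) (A := B))) h
    simp at h2
  have hC := charP_end k (B ⊗[k] B) p
  let Θ : Fin n → Module.End k (B ⊗[k] B) := fun l =>
    TensorProduct.map (TT (M.m i l)) (TT (M.m l j))
  have hcm : ∀ a b c d : Fin n, Commute (TT (M.m a b)) (TT (M.m c d)) := fun a b c d =>
    TT_comm (M.m_comm hprim hstab a b _)
  have hΘ : ∀ l l', Commute (Θ l) (Θ l') := by
    intro l l'
    change Θ l * Θ l' = Θ l' * Θ l
    change TensorProduct.map _ _ ∘ₗ TensorProduct.map _ _ =
      TensorProduct.map _ _ ∘ₗ TensorProduct.map _ _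
    rw [← TensorProduct.map_comp, ← TensorProduct.map_comp]
    have e1 := hcm i l i l'
    have e2 := hcm l j l' j
    exact congrArg₂ TensorProduct.map e1 e2
  have h1 : ∀ t : B ⊗[k] B, TT (M.m i j) (LinearMap.mul' k B t) =
      LinearMap.mul' k B ((∑ l, Θ l) t) := by
    intro t
    induction t with
    | zero => simp
    | add x y hx hy => simp only [map_add, hx, hy]
    | tmul x y =>
      rw [LinearMap.mul'_apply, M.TT_m_mul hstab, LinearMap.sum_apply, map_sum]
      rfl
  have h2 : ∀ (r : ℕ) (t : B ⊗[k] B), (TT (M.m i j) ^ r) (LinearMap.mul' k B t) =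
      LinearMap.mul' k B (((∑ l, Θ l) ^ r) t) := by
    intro r
    induction r with
    | zero => intro t; rfl
    | succ r ih =>
      intro t
      rw [pow_succ, pow_succ, Module.End.mul_apply, Module.End.mul_apply, h1, ih]
  have h3 : ∀ (r : ℕ) (l : Fin n), Θ l ^ r = TensorProduct.map (TT (M.m i l) ^ r)
      (TT (M.m l j) ^ r) := by
    intro r l
    exact TensorProduct.map_pow _ _ r
  have h4 := h2 p (b ⊗ₜ[k] b')
  rw [sum_pow_char_comm p _ _ hΘ, LinearMap.mul'_apply, LinearMap.sum_apply, map_sum] at h4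
  rw [TT_pow, h4]
  refine Finset.sum_congr rfl fun l _ => ?_
  rw [h3, TensorProduct.map_tmul, LinearMap.mul'_apply, TT_pow, TT_pow]

/-- If `A` is commutative, it acts trivially on itself. -/
theorem adj_comm (hcomm : ∀ a a' : A, a * a' = a' * a) (a a' : A) :
    adj k (ι a) (ι a') = Coalgebra.counit (R := k) a • ι a' := by
  rw [← Pool.Agent.Helper90.UN.map_adj, ← map_smul]
  congr 1
  have h : ∀ t : A ⊗[k] A, LinearMap.mul' k A (TensorProduct.map (LinearMap.mulRight k a')
      (HopfAlgebra.antipode k) t) = a' * LinearMap.mul' k A ((HopfAlgebra.antipode k).lTensor A t) := by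
    intro t
    induction t with
    | zero => simp
    | add x y hx hy => simp only [map_add, hx, hy, mul_add]
    | tmul x y =>
      rw [TensorProduct.map_tmul, LinearMap.lTensor_tmul, LinearMap.mul'_apply,
        LinearMap.mul'_apply, LinearMap.mulRight_apply, hcomm x a', mul_assoc]
  unfold adj
  rw [h, HopfAlgebra.mul_antipode_lTensor_comul_apply, ← Algebra.commutes, ← Algebra.smul_def]

theorem MatU.m_iota (hcomm : ∀ a a' : A, a * a' = a' * a) (i j : Fin n) (a : A) :
    (M.m i j).ofConv (ι a) = Coalgebra.counit (R := k) a * if i = j then 1 else 0 := by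
  rw [M.m_apply, adj_comm hcomm, map_smul, M.dual, smul_eq_mul]

theorem MatU.TT_iota (hcomm : ∀ a a' : A, a * a' = a' * a) (i j : Fin n) (a : A) :
    TT (M.m i j) (ι a) = if i = j then ι a else 0 := by
  have h1 : TensorProduct.map (ι : A →ₗ[k] B) (ι : A →ₗ[k] B) (Coalgebra.comul (R := k) a) =
        Coalgebra.comul (R := k) (ι a) := CoalgHomClass.map_comp_comul_apply ι a
  have h2 : ∀ t : A ⊗[k] A, TensorProduct.lid k B ((M.m i j).ofConv.rTensor B
      (TensorProduct.map (ι : A →ₗ[k] B) (ι : A →ₗ[k] B) t)) =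
      (if i = j then (1 : k) else 0) • ι (TensorProduct.lid k A
        ((Coalgebra.counit (R := k)).rTensor A t)) := by
    intro t
    induction t with
    | zero => simp
    | add x y hx hy => simp only [map_add, hx, hy, smul_add]
    | tmul x y =>
      rw [TensorProduct.map_tmul, LinearMap.rTensor_tmul, TensorProduct.lid_tmul,
        LinearMap.rTensor_tmul, TensorProduct.lid_tmul]
      change (M.m i j).ofConv (ι x) • ι y = _
      rw [M.m_iota hcomm, map_smul, smul_smul, mul_comm]
  rw [TT_apply, Lf_apply, ← h1, h2, Coalgebra.rTensor_counit_comul, TensorProduct.lid_tmul,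
    one_smul]
  split_ifs <;> simp

include hstab in
/-- `b x_j = ∑ x_i T_ij(b)` -/
theorem MatU.mul_x (b : B) (j : Fin n) :
    b * ι (M.x j) = ∑ i, ι (M.x i) * TT (M.m i j) b := by
  have h1 : ∀ t : B ⊗[k] B, LinearMap.mul' k B ((adR k (ι (M.x j))).rTensor B t) =
      ∑ i, ι (M.x i) * TensorProduct.lid k B ((M.m i j).ofConv.rTensor B t) := by
    intro t
    induction t with
    | zero => simp
    | add x y hx hy =>
      rw [map_add, map_add, hx, hy, ← Finset.sum_add_distrib]
      refine Finset.sum_congr rfl fun l _ => ?_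
      rw [map_add, map_add, mul_add]
    | tmul x y =>
      rw [LinearMap.rTensor_tmul, LinearMap.mul'_apply, adR_apply, M.adj_x hstab, Finset.sum_mul]
      refine Finset.sum_congr rfl fun l _ => ?_
      rw [LinearMap.rTensor_tmul, TensorProduct.lid_tmul, smul_mul_assoc, mul_smul_comm]
  rw [mul_eq_adR (k := k), h1]
  rfl

include hprim hstab in
/-- `b x_j^p = ∑ x_i^p T_ij^p(b)` -/
theorem MatU.mul_x_pow (hcomm : ∀ a a' : A, a * a' = a' * a) (p : ℕ) [Fact p.Prime] [CharP k p]
    (b : B) (j : Fin n) :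
    b * ι (M.x j) ^ p = ∑ i, ι (M.x i) ^ p * TT (M.m i j ^ p) b := by
  have hB : Nontrivial B := ⟨⟨0, 1, fun h => by
    have h2 : Coalgebra.counit (R := k) (0 : B) = Coalgebra.counit (R := k) (1 : B) := by rw [h]
    rw [map_zero, Bialgebra.counit_one] at h2
    exact zero_ne_one h2⟩⟩
  have hC := charP_end k B p
  let L : Fin n → Module.End k B := fun i => LinearMap.mulLeft k (ι (M.x i))
  let T : Fin n → Module.End k B := fun i => TT (M.m i j)
  let R : Module.End k B := LinearMap.mulRight k (ι (M.x j))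
  have hR : R = ∑ i, L i * T i := by
    refine LinearMap.ext fun b => ?_
    rw [LinearMap.sum_apply]
    exact M.mul_x hstab b j
  have hLL : ∀ i l, Commute (L i) (L l) := by
    intro i l
    refine LinearMap.ext fun b => ?_
    change ι (M.x i) * (ι (M.x l) * b) = ι (M.x l) * (ι (M.x i) * b)
    rw [← mul_assoc, ← mul_assoc, ← map_mul, ← map_mul, hcomm]
  have hTT : ∀ i l, Commute (T i) (T l) := fun i l => TT_comm (M.m_comm hprim hstab i j _)
  have hTL : ∀ i l, Commute (T i) (L l) := by
    intro i l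
    refine LinearMap.ext fun b => ?_
    change TT (M.m i j) (ι (M.x l) * b) = ι (M.x l) * TT (M.m i j) b
    rw [M.TT_m_mul hstab, Finset.sum_eq_single i]
    · rw [M.TT_iota hcomm, if_pos rfl]
    · intro s _ hs
      rw [M.TT_iota hcomm, if_neg (Ne.symm hs), zero_mul]
    · intro h
      exact absurd (Finset.mem_univ _) h
  have hc : ∀ i l, Commute (L i * T i) (L l * T l) := fun i l =>
    ((hLL i l).mul_right (hTL l i).symm).mul_left ((hTL i l).mul_right (hTT i l))
  have h1 : R ^ p = ∑ i, L i ^ p * T i ^ p := by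
    rw [hR, sum_pow_char_comm p _ _ hc]
    refine Finset.sum_congr rfl fun i _ => ?_
    exact ((hTL i i).symm).mul_pow p
  have h2 := LinearMap.congr_fun h1 b
  have h3 : ∀ (y b : B) (r : ℕ), (LinearMap.mulRight k y ^ r) b = b * y ^ r := by
    intro y b r
    induction r with
    | zero => simp
    | succ r ih =>
      rw [pow_succ', Module.End.mul_apply, ih, LinearMap.mulRight_apply, pow_succ, mul_assoc]
  have h4 : ∀ (y b : B) (r : ℕ), (LinearMap.mulLeft k y ^ r) b = y ^ r * b := by
    intro y b r
    induction r with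
    | zero => simp
    | succ r ih =>
      rw [pow_succ', Module.End.mul_apply, ih, LinearMap.mulLeft_apply, pow_succ', mul_assoc]
  rw [h3, LinearMap.sum_apply] at h2
  rw [h2]
  refine Finset.sum_congr rfl fun i _ => ?_
  rw [Module.End.mul_apply, h4, TT_pow]

end

end Pool.Agent.Helper49.FA
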