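import Pool.Agent.Helper49.FA.MainStep
import Pool.Agent.Helper49.FA.Mat
import Pool.Agent.Helper76.FA.Act
import Pool.Agent.Helper90.FC.Height

/-!
# Project FA: the step for a normal Hopf subalgebra of height one
-/

set_option linter.unusedSectionVars false
set_option autoImplicit false

open CategoryTheory CategoryTheory.Abelian CategoryTheory.Limits
open scoped ModuleCat TensorProduct
open WithConv
open Pool.Agent.Helper59.FG Pool.Agent.Helper90.FC Pool.Agent.Helper90.UN
open Pool.Agent.Helper56.SS Pool.Agent.Helper10.FA Pool.Agent.Helper76.FA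

namespace Pool.Agent.Helper49.FA

universe u

section

variable {k : Type u} [Field k]

theorem triv_of_ker {F B C : Type u} [Ring F] [Ring B] [Ring C] [HopfAlgebra k F]
    [HopfAlgebra k B] [HopfAlgebra k C] {ι : F →ₐc[k] B} {π : B →ₐc[k] C}
    (hker : ∀ b : B, π b = 0 ↔
      b ∈ Ideal.span (ι '' {a : F | Coalgebra.counit (R := k) a = 0})) (a : F) :
    π (ι a) = algebraMap k C (Coalgebra.counit (R := k) a) := by
  have h2 : π (ι (a - algebraMap k F (Coalgebra.counit (R := k) a))) = 0 := by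
    rw [hker]
    refine Ideal.subset_span ⟨_, ?_, rfl⟩
    change Coalgebra.counit (R := k) (a - algebraMap k F (Coalgebra.counit (R := k) a)) = 0
    rw [map_sub, Bialgebra.counit_algebraMap, sub_self]
  rw [map_sub, map_sub, sub_eq_zero] at h2
  rw [h2]
  have h3 : ι (algebraMap k F (Coalgebra.counit (R := k) a)) =
      algebraMap k B (Coalgebra.counit (R := k) a) := AlgHomClass.commutes ι _
  rw [h3]
  exact AlgHomClass.commutes π _

theorem height_of_bock (p : ℕ) [Fact p.Prime] [CharP k p] {F B C : Type u} [CommRing F] [Ring B]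
    [Ring C] [HopfAlgebra k F] [HopfAlgebra k B] [HopfAlgebra k C] [Module.Finite k F]
    [Module.Finite k B] [Module.Finite k C] (ι : F →ₐc[k] B) (π : B →ₐc[k] C)
    (hex : NExact k ι π) (hF : ∀ a : F, Coalgebra.counit (R := k) a = 0 → a ^ p = 0)
    (hC : FGE k C) {n : ℕ} (c : Coords k p F n)
    (hb : ∀ i, ∃ (X : TA k (HD k B)) (Y : TA k (HD k C)), X ∈ Tn k (HD k B) 2 ∧
      Y ∈ Tn k (HD k C) 3 ∧ dd k (HD k B) X = mapT (HDmap π : HD k C →ₗ[k] HD k B) Y ∧
      dd k (HD k F) (mapT (HDmap ι : HD k B →ₗ[k] HD k F) X) = 0 ∧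
      ∀ f g : F, val2 (evn k 2 (mapT (HDmap ι : HD k B →ₗ[k] HD k F) X)) f g =
        c.bock i f g) : FGE k B := by
  have hp : 0 < p := (Fact.out : p.Prime).pos
  have hN : AugNil k F := augNil_of_pow p hp hF
  have hnt : Nontrivial F := by
    refine ⟨⟨0, 1, fun h => ?_⟩⟩
    have h2 : Coalgebra.counit (R := k) (0 : F) = Coalgebra.counit (R := k) (1 : F) := by rw [h]
    rw [map_zero, Bialgebra.counit_one] at h2
    exact zero_ne_one h2
  have hιπ := triv_of_ker hex.ker
  choose D hD using exists_vdata p c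
  have hη : ∀ i, ∃ (K : ℕ) (η : Ext (trivObj k B) (trivObj k B) (2 * p ^ K)),
      rsE (ι : F →ₐ[k] B) (aug_of_bialg ι) η = ypow (D i).cl (p ^ K) := by
    intro i
    obtain ⟨X, Y, hX, hY, hXY, hd, hval⟩ := hb i
    obtain ⟨K, η, h⟩ := transgress p ι π hex.surj hιπ hC X hX Y hY hXY hd
    refine ⟨K, η, ?_⟩
    rw [h, hD i (mapT (HDmap ι : HD k B →ₗ[k] HD k F) X) (mapT_pow _ 2 X hX) hd hval]
  choose K η hη using hη
  let H : Fam k B (Fin n) :=
    { deg := fun i => 2 * p ^ K i
      cls := η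
      pos := fun i => Nat.mul_pos (by norm_num) (pow_pos hp _)
      even := fun i => even_two.mul_right _ }
  refine main_step ι π hex hN hC H ?_
  have h1 := Fam.evGen_pow (fam2 fun i => (D i).cl) (fun i => p ^ K i) (fun i => pow_pos hp _)
    (evGen_bock p c D)
  refine Fam.evGen_mono ((fam2 fun i => (D i).cl).pow (fun i => p ^ K i)
    (fun i => pow_pos hp _)) (H.res (ι : F →ₐ[k] B) (aug_of_bialg ι)) id (fun i => rfl)
    (fun i => ?_) h1
  exact congrArg (Sigma.mk (β := fun n => Ext (trivObj k F) (trivObj k F) n) (2 * p ^ K i)) (hη i)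

variable {F B C : Type u} [CommRing F] [Ring B] [Ring C] [HopfAlgebra k F] [HopfAlgebra k B]
    [HopfAlgebra k C]

theorem counit_ev {p n : ℕ} (c : Coords k p F n) (f : MvPolynomial (Fin n) k) :
    Coalgebra.counit (R := k) (c.ev f) = MvPolynomial.constantCoeff f := by
  have h : (Bialgebra.counitAlgHom k F).comp c.ev = MvPolynomial.aeval (fun _ : Fin n => (0 : k)) := by
    refine MvPolynomial.algHom_ext fun i => ?_
    rw [AlgHom.comp_apply, Coords.ev, MvPolynomial.aeval_X, MvPolynomial.aeval_X]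
    exact c.aug i
  have h1 := AlgHom.congr_fun h f
  refine Eq.trans h1 ?_
  rw [MvPolynomial.aeval_zero']
  rfl

/-- `B F⁺ ⊆ F⁺ B` from a lifted action -/
theorem norm_of_lact {p n : ℕ} [Fact p.Prime] {ι : F →ₐc[k] B} {c : Coords k p F n}
    (a : LAct ι c) (b : B) (x : F) (hx : Coalgebra.counit (R := k) x = 0) :
    b * ι x ∈ Submodule.span k {y : B | ∃ (a' : F) (b' : B),
      Coalgebra.counit (R := k) a' = 0 ∧ ι a' * b' = y} := by
  have h0 : MvPolynomial.constantCoeff (c.red x) = 0 := by rw [c.const_red, hx]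
  have h1 := a.comm b (c.red x)
  rw [c.ev_red] at h1
  rw [h1]
  generalize Coalgebra.comul (R := k) b = t
  induction t with
  | zero => rw [map_zero]; exact zero_mem _
  | add s t hs ht => rw [map_add]; exact add_mem hs ht
  | tmul s t =>
    rw [TensorProduct.lift.tmul]
    refine Submodule.subset_span ⟨c.ev (a.act s (c.red x)), t, ?_, rfl⟩
    rw [counit_ev, a.cst, h0, mul_zero]

end

end Pool.Agent.Helper49.FA
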