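import Pool.Agent.Helper90.FC.FRed

/-!
# Project FA, definitions: actions on thickenings

`F` is a finite-dimensional commutative Hopf algebra, `P → F` a surjective homomorphism of
commutative algebras with linear section `red`, `lam_i` are linear forms on `P` with
`lam_i (g f) = ε(g) lam_i(f)` for `f` in the kernel. `PAct ι c` is an action of `B` on `P`, which
lifts the adjoint action of `B` on `F`.
-/

set_option linter.unusedSectionVars false
set_option autoImplicit false

open scoped TensorProduct
open Pool.Agent.Helper90.FC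

namespace Pool.Agent.Helper49.FA

universe u

/-- An augmentation and linear forms on `P`. -/
class PAug (k P : Type u) [Field k] [CommRing P] [Algebra k P] (n : outParam ℕ) where
  cst : P →ₐ[k] k
  lam : Fin n → P →ₗ[k] k

/-- A thickening. -/
structure Thick (k F P : Type u) [Field k] [CommRing F] [Bialgebra k F] [CommRing P] [Algebra k P]
    {n : ℕ} [PAug k P n] where
  ev : P →ₐ[k] F
  red : F →ₗ[k] P
  ev_red : ∀ a, ev (red a) = a
  red_one : red 1 = 1
  cst_ev : ∀ f, PAug.cst (k := k) f = Coalgebra.counit (R := k) (ev f)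
  lam_red : ∀ i a, PAug.lam (k := k) i (red a) = 0
  lam_mul : ∀ i g f, ev f = 0 →
    PAug.lam (k := k) i (g * f) = PAug.cst (k := k) g * PAug.lam (k := k) i f

theorem Thick.const_red {k F P : Type u} [Field k] [CommRing F] [Bialgebra k F] [CommRing P]
    [Algebra k P] {n : ℕ} [PAug k P n] (c : Thick k F P) (a : F) :
    PAug.cst (k := k) (c.red a) = Coalgebra.counit (R := k) a := by
  rw [c.cst_ev, c.ev_red]

/-- A lift to `P` of the adjoint action of `B` on `F`. -/
structure PAct {k : Type u} [Field k] {F B P : Type u} [CommRing F] [Ring B] [HopfAlgebra k F]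
    [HopfAlgebra k B] [CommRing P] [Algebra k P] {n : ℕ} [PAug k P n] (ι : F →ₐc[k] B)
    (c : Thick k F P) where
  act : B →ₗ[k] P →ₗ[k] P
  one_act : ∀ f, act 1 f = f
  mul_act : ∀ b b' f, act (b * b') f = act b (act b' f)
  act_one : ∀ b, act b 1 = Coalgebra.counit (R := k) b • (1 : P)
  act_mul : ∀ (b : B) (f g : P), act b (f * g) =
    TensorProduct.lift ((LinearMap.mul k P).compl₁₂ (act.flip f) (act.flip g)) (Coalgebra.comul b)
  cst : ∀ (b : B) (f : P), PAug.cst (k := k) (act b f) =
    Coalgebra.counit (R := k) b * PAug.cst (k := k) f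
  comm : ∀ (b : B) (f : P), b * ι (c.ev f) =
    TensorProduct.lift ((LinearMap.mul k B).compl₁₂
      ((ι : F →ₐ[k] B).toLinearMap ∘ₗ c.ev.toLinearMap ∘ₗ act.flip f) LinearMap.id)
      (Coalgebra.comul b)
  ker : ∀ (b : B) (f : P), c.ev f = 0 → c.ev (act b f) = 0
  triv : ∀ (a : F) (f : P), act (ι a) f = Coalgebra.counit (R := k) a • f
  lam : ∀ (b : B) (i : Fin n) (f : P), c.ev f = 0 →
    PAug.lam (k := k) i (act b f) = Coalgebra.counit (R := k) b * PAug.lam (k := k) i f

end Pool.Agent.Helper49.FA
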