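import Pool.Agent.Helper49.FA.ThkAct
import Pool.Agent.Helper49.FA.PDefs
import Pool.Agent.Helper49.FA.RedQ

/-!
# Project FA: the thickening of truncated polynomials
-/

set_option autoImplicit false

open Pool.Agent.Helper90.FC Pool.Agent.Helper49.FA

namespace Pool.Agent.Helper49.FA.TH

universe u

section

variable (k : Type u) [Field k] (q n : ℕ)

variable {k q n}

theorem TI_cst (f : MvPolynomial (Fin n) k) (hf : f ∈ tIdeal k q n) :
    MvPolynomial.aeval (fun _ : Fin n => (0 : k)) f = 0 := by
  have h : tIdeal k q n ≤ RingHom.ker (MvPolynomial.aeval (fun _ : Fin n => (0 : k))) := by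
    rw [tIdeal, Ideal.span_le]
    rintro _ ⟨t, rfl⟩
    rw [SetLike.mem_coe, RingHom.mem_ker, map_mul, MvPolynomial.aeval_X, mul_zero]
  exact h hf

theorem TI_coeff (f : MvPolynomial (Fin n) k) (hf : f ∈ tIdeal k q n) :
    ∀ s : Fin n →₀ ℕ, s.degree ≤ q → MvPolynomial.coeff s f = 0 := by
  classical
  unfold tIdeal at hf
  induction hf using Submodule.span_induction with
  | mem x hx =>
    obtain ⟨t, rfl⟩ := hx
    intro s hs
    have h1 : (MvPolynomial.X t.1 ^ q * MvPolynomial.X t.2 : MvPolynomial (Fin n) k) =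
        MvPolynomial.monomial (Finsupp.single t.1 q + Finsupp.single t.2 1) 1 := by
      rw [MvPolynomial.X_pow_eq_monomial, MvPolynomial.X, MvPolynomial.monomial_mul, one_mul]
    show MvPolynomial.coeff s (MvPolynomial.X t.1 ^ q * MvPolynomial.X t.2 :
      MvPolynomial (Fin n) k) = 0
    rw [h1, MvPolynomial.coeff_monomial, if_neg]
    intro h
    rw [← h, map_add, Finsupp.degree_single, Finsupp.degree_single] at hs
    omega
  | zero =>
    intro s _
    exact MvPolynomial.coeff_zero s
  | add x y _ _ hx hy =>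
    intro s hs
    rw [MvPolynomial.coeff_add, hx s hs, hy s hs, add_zero]
  | smul a x _ hx =>
    intro s hs
    rw [smul_eq_mul, MvPolynomial.coeff_mul]
    refine Finset.sum_eq_zero fun y hy => ?_
    have h1 : y.1 + y.2 = s := Finset.HasAntidiagonal.mem_antidiagonal.1 hy
    rw [hx y.2 ?_, mul_zero]
    rw [← h1, map_add] at hs
    omega

theorem TI_lam (i : Fin n) (f : MvPolynomial (Fin n) k) (hf : f ∈ tIdeal k q n) :
    lam q i f = 0 := by
  refine TI_coeff f hf (Finsupp.single i q) ?_
  rw [Finsupp.degree_single]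

variable (k q n)

/-- The constant coefficient. -/
noncomputable def tcst : TPoly k q n →ₐ[k] k :=
  Ideal.Quotient.liftₐ (tIdeal k q n) (MvPolynomial.aeval (fun _ : Fin n => (0 : k))) TI_cst

variable {n}

/-- The coefficient of `X_i ^ q`. -/
noncomputable def tlam (i : Fin n) : TPoly k q n →ₗ[k] k :=
  ((tIdeal k q n).restrictScalars k).liftQ (lam q i) (fun f hf => TI_lam i f hf) ∘ₗ
    (Submodule.Quotient.restrictScalarsEquiv k (tIdeal k q n)).symm.toLinearMap

theorem tcst_mk (f : MvPolynomial (Fin n) k) :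
    tcst k q n (Ideal.Quotient.mk _ f) = MvPolynomial.constantCoeff f := by
  have h3 : MvPolynomial.aeval (fun _ : Fin n => (0 : k)) f = MvPolynomial.constantCoeff f :=
    MvPolynomial.aeval_zero' f
  rw [← h3]
  rfl

theorem tlam_mk (i : Fin n) (f : MvPolynomial (Fin n) k) :
    tlam k q i (Ideal.Quotient.mk _ f) = lam q i f := rfl

noncomputable instance (n : ℕ) : PAug k (TPoly k q n) n where
  cst := tcst k q n
  lam := tlam k q

theorem finite_TPoly0 (n : ℕ) : Module.Finite k (TPoly k q n) := by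
  classical
  let x : Fin n → TPoly k q n := fun i => Ideal.Quotient.mk _ (MvPolynomial.X i)
  have hx : ∀ i, x i ^ (q + 1) = 0 := by
    intro i
    show (Ideal.Quotient.mk (tIdeal k q n) (MvPolynomial.X i)) ^ (q + 1) = 0
    rw [← map_pow, Ideal.Quotient.eq_zero_iff_mem, pow_succ]
    exact Ideal.subset_span ⟨(i, i), rfl⟩
  have hspan : Submodule.span k (Set.range fun α : Fin n → Fin (q + 1) =>
      ∏ i, x i ^ (α i : ℕ)) = ⊤ := by
    rw [eq_top_iff]
    intro a _
    obtain ⟨f, rfl⟩ := Ideal.Quotient.mk_surjective a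
    have h1 : ∀ f : MvPolynomial (Fin n) k, Ideal.Quotient.mk (tIdeal k q n) f =
        MvPolynomial.aeval x f := by
      intro f
      have h2 : Ideal.Quotient.mkₐ k (tIdeal k q n) = MvPolynomial.aeval x := by
        apply MvPolynomial.algHom_ext
        intro i
        rw [MvPolynomial.aeval_X]
        rfl
      exact DFunLike.congr_fun h2 f
    rw [h1, ← MvPolynomial.support_sum_monomial_coeff f, map_sum]
    refine Submodule.sum_mem _ fun s _ => ?_
    rw [MvPolynomial.aeval_monomial, ← Algebra.smul_def, Finsupp.prod_fintype _ _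
      (fun i => pow_zero _)]
    exact Submodule.smul_mem _ _ (FStr_mon_mem x hx s)
  exact Module.Finite.of_fg_top ⟨Set.finite_range _ |>.toFinset, by
    rw [Set.Finite.coe_toFinset, hspan]⟩

end

section

variable {k : Type u} [Field k] {q : ℕ} {F : Type u} [CommRing F] [HopfAlgebra k F] {n : ℕ}

/-- Coordinates from the dimension. -/
theorem coords_q [Module.Finite k F] (x : Fin n → F)
    (hx0 : ∀ i, Coalgebra.counit (R := k) (x i) = 0) (hxp : ∀ i, x i ^ q = 0)
    (hgen : Algebra.adjoin k (Set.range x) = ⊤) (hdim : Module.finrank k F = q ^ n) :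
    ∃ c : Coords k q F n, c.x = x := by
  classical
  let mon : (Fin n → Fin q) → F := fun α => ∏ i, x i ^ (α i : ℕ)
  have hspan : Submodule.span k (Set.range mon) = ⊤ := by
    rw [eq_top_iff]
    intro a _
    have ha : a ∈ Algebra.adjoin k (Set.range x) := by
      rw [hgen]
      trivial
    have hP : ∀ f : MvPolynomial (Fin n) k, MvPolynomial.aeval x f ∈
        Submodule.span k (Set.range mon) := by
      intro f
      rw [← MvPolynomial.support_sum_monomial_coeff f, map_sum]
      refine Submodule.sum_mem _ fun s _ => ?_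
      rw [MvPolynomial.aeval_monomial, ← Algebra.smul_def, Finsupp.prod_fintype _ _
        (fun i => pow_zero _)]
      exact Submodule.smul_mem _ _ (FStr_mon_mem x hxp s)
    rw [Algebra.adjoin_range_eq_range_aeval] at ha
    obtain ⟨f, rfl⟩ := ha
    exact hP f
  have hcard : Fintype.card (Fin n → Fin q) = Module.finrank k F := by
    rw [hdim, Fintype.card_fun, Fintype.card_fin, Fintype.card_fin]
  refine ⟨⟨x, hx0, hxp, basisOfTopLeSpanOfCardEqFinrank mon hspan.ge hcard, fun α => ?_⟩, rfl⟩
  rw [coe_basisOfTopLeSpanOfCardEqFinrank]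

theorem exists_thick0 {q n : ℕ} (hq : 0 < q) {F : Type u} [CommRing F] [HopfAlgebra k F]
    [Module.Finite k F] (ev : TPoly k q n →ₐ[k] F) (hs : Function.Surjective ev)
    (haug : ∀ i, Coalgebra.counit (R := k)
      (ev (Ideal.Quotient.mk _ (MvPolynomial.X i))) = 0)
    (hpow : ∀ i, ev (Ideal.Quotient.mk _ (MvPolynomial.X i)) ^ q = 0)
    (hdim : Module.finrank k F = q ^ n) :
    ∃ (c : Coords k q F n) (t : Thick k F (TPoly k q n)), t.ev = ev ∧
      (∀ i, c.x i = ev (Ideal.Quotient.mk _ (MvPolynomial.X i))) ∧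
      ∀ i f g, PAug.lam (k := k) i (t.red f * t.red g) = c.bock i f g := by
  let x : Fin n → F := fun i => ev (Ideal.Quotient.mk _ (MvPolynomial.X i))
  have hev : ∀ f : MvPolynomial (Fin n) k, ev (Ideal.Quotient.mk _ f) = MvPolynomial.aeval x f := by
    intro f
    have h2 : ev.comp (Ideal.Quotient.mkₐ k (tIdeal k q n)) = MvPolynomial.aeval x := by
      apply MvPolynomial.algHom_ext
      intro i
      rw [MvPolynomial.aeval_X]
      rfl
    exact DFunLike.congr_fun h2 f
  have hgen : Algebra.adjoin k (Set.range x) = ⊤ := by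
    rw [eq_top_iff]
    intro a _
    obtain ⟨b, rfl⟩ := hs a
    obtain ⟨f, rfl⟩ := Ideal.Quotient.mk_surjective b
    rw [Algebra.adjoin_range_eq_range_aeval, hev]
    exact ⟨f, rfl⟩
  obtain ⟨c, hc⟩ := coords_q x haug hpow hgen hdim
  have hcev : ∀ f : MvPolynomial (Fin n) k, ev (Ideal.Quotient.mk _ f) = c.ev f := by
    intro f
    rw [hev, Coords.ev, hc]
  refine ⟨c, {
    ev := ev
    red := (Ideal.Quotient.mkₐ k (tIdeal k q n)).toLinearMap ∘ₗ c.red
    ev_red := fun a => ?_
    red_one := ?_
    cst_ev := ?_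
    lam_red := fun i a => q_lam_red c i a
    lam_mul := ?_ }, rfl, fun i => congrFun hc i, fun i f g => ?_⟩
  · show ev (Ideal.Quotient.mk _ (c.red a)) = a
    rw [hcev, q_ev_red]
  · show Ideal.Quotient.mk _ (c.red 1) = 1
    rw [q_red_one hq, map_one]
  · intro f
    obtain ⟨f, rfl⟩ := Ideal.Quotient.mk_surjective f
    have h2 : MvPolynomial.aeval (fun _ : Fin n => (0 : k)) =
        (Bialgebra.counitAlgHom k F).comp (MvPolynomial.aeval x) := by
      apply MvPolynomial.algHom_ext
      intro i
      rw [MvPolynomial.aeval_X, AlgHom.comp_apply, MvPolynomial.aeval_X]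
      exact (haug i).symm
    rw [hev]
    exact DFunLike.congr_fun h2 f
  · intro i g f hf
    obtain ⟨f, rfl⟩ := Ideal.Quotient.mk_surjective f
    obtain ⟨g, rfl⟩ := Ideal.Quotient.mk_surjective g
    rw [hcev] at hf
    rw [← map_mul]
    show tlam k q i (Ideal.Quotient.mk _ (g * f)) =
      tcst k q n (Ideal.Quotient.mk _ g) * tlam k q i (Ideal.Quotient.mk _ f)
    rw [tlam_mk, tlam_mk, tcst_mk]
    exact q_lam_mul hq c i g f hf
  · show tlam k q i (Ideal.Quotient.mk _ (c.red f) * Ideal.Quotient.mk _ (c.red g)) = _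
    rw [← map_mul, tlam_mk]
    rfl

theorem finite_TPoly (q n : ℕ) : Module.Finite k (TPoly k q n) :=
  finite_TPoly0 k q n

theorem exists_thick {q n : ℕ} (hq : 0 < q) {F : Type u} [CommRing F] [HopfAlgebra k F]
    [Module.Finite k F] (ev : TPoly k q n →ₐ[k] F) (hs : Function.Surjective ev)
    (haug : ∀ i, Coalgebra.counit (R := k) (ev (tX k q n i)) = 0)
    (hpow : ∀ i, ev (tX k q n i) ^ q = 0)
    (hdim : Module.finrank k F = q ^ n) :
    ∃ (c : Coords k q F n) (t : Thick k F (TPoly k q n)), t.ev = ev ∧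
      (∀ i, c.x i = ev (tX k q n i)) ∧
      ∀ i f g, PAug.lam (k := k) i (t.red f * t.red g) = c.bock i f g :=
  exists_thick0 hq ev hs haug hpow hdim

end

end Pool.Agent.Helper49.FA.TH
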