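import Pool.Agent.Helper49.FA.Defs
import Pool.Agent.Helper56.SS.HC
import Pool.Agent.Helper90.UN.Prim

/-!
# Project FA: matrix coefficients of a stable space of primitive elements

If `v` and all `b ▷ v` are primitive then `∑ b₁ ⊗ (b₂ ▷ v) = ∑ b₂ ⊗ (b₁ ▷ v)`, so the matrix
coefficients `b ↦ φ (b ▷ v)` are central in the dual algebra of `B`.
-/

set_option linter.unusedSectionVars false
set_option autoImplicit false

open scoped TensorProduct
open WithConv
open Pool.Agent.Helper90.FC Pool.Agent.Helper90.UN Pool.Agent.Helper56.SS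

namespace Pool.Agent.Helper49.FA

universe u

section

variable {k : Type u} [Field k] {B : Type u} [Ring B] [HopfAlgebra k B]

theorem swap_conv {v : B}
    (hP : ∀ b : B, Coalgebra.comul (R := k) (adj k b v) = adj k b v ⊗ₜ[k] 1 + 1 ⊗ₜ[k] adj k b v) :
    toConv (il k B).toLinearMap * toConv ((ir k B).toLinearMap ∘ₗ adR k v) =
      toConv ((ir k B).toLinearMap ∘ₗ adR k v) * toConv (il k B).toLinearMap := by
  have hv : Coalgebra.comul (R := k) v = v ⊗ₜ[k] 1 + 1 ⊗ₜ[k] v := by
    have h := hP 1
    rwa [adj_one] at h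
  have h1 : toConv (LinearMap.lTensor B (adR k v) ∘ₗ kk k B) =
      toConv ((ir k B).toLinearMap ∘ₗ adR k v) := by
    refine WithConv.ext (LinearMap.ext fun b => ?_)
    have h2 := comul_adj v hv b
    rw [hP b] at h2
    exact (add_left_cancel h2).symm
  have h2 := lT_kk (k := k) (adR k v)
  rw [h1] at h2
  have h3 := congrArg (· * toConv (il k B).toLinearMap) h2
  simp only [mul_assoc] at h3
  rw [compS_mul, mul_one] at h3
  exact h3.symm

/-- `∑ b₁ ⊗ (b₂ ▷ v) = ∑ b₂ ⊗ (b₁ ▷ v)` -/
theorem swap {v : B}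
    (hP : ∀ b : B, Coalgebra.comul (R := k) (adj k b v) = adj k b v ⊗ₜ[k] 1 + 1 ⊗ₜ[k] adj k b v)
    (b : B) : (adR k v).lTensor B (Coalgebra.comul (R := k) b) =
      TensorProduct.comm k B B ((adR k v).rTensor B (Coalgebra.comul (R := k) b)) := by
  have h1 := LinearMap.congr_fun (congrArg ofConv (swap_conv hP)) b
  have h2 : ∀ t : B ⊗[k] B, LinearMap.mul' k (B ⊗[k] B) (TensorProduct.map
      (il k B).toLinearMap ((ir k B).toLinearMap ∘ₗ adR k v) t) = (adR k v).lTensor B t := by
    intro t
    induction t with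
    | zero => simp
    | add x y hx hy => simp only [map_add, hx, hy]
    | tmul x y =>
      rw [TensorProduct.map_tmul, LinearMap.mul'_apply]
      change (x ⊗ₜ[k] (1 : B)) * ((1 : B) ⊗ₜ[k] (adR k v y)) = _
      rw [Algebra.TensorProduct.tmul_mul_tmul, mul_one, one_mul, LinearMap.lTensor_tmul]
  have h3 : ∀ t : B ⊗[k] B, LinearMap.mul' k (B ⊗[k] B) (TensorProduct.map
      ((ir k B).toLinearMap ∘ₗ adR k v) (il k B).toLinearMap t) =
      TensorProduct.comm k B B ((adR k v).rTensor B t) := by
    intro t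
    induction t with
    | zero => simp
    | add x y hx hy => simp only [map_add, hx, hy]
    | tmul x y =>
      rw [TensorProduct.map_tmul, LinearMap.mul'_apply]
      change ((1 : B) ⊗ₜ[k] (adR k v x)) * (y ⊗ₜ[k] (1 : B)) = _
      rw [Algebra.TensorProduct.tmul_mul_tmul, mul_one, one_mul, LinearMap.rTensor_tmul,
        TensorProduct.comm_tmul]
  exact (h2 _).symm.trans (h1.trans (h3 _))

/-- The matrix coefficients are central. -/
theorem coef_comm {v : B}
    (hP : ∀ b : B, Coalgebra.comul (R := k) (adj k b v) = adj k b v ⊗ₜ[k] 1 + 1 ⊗ₜ[k] adj k b v)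
    (φ : B →ₗ[k] k) (f : WithConv (B →ₗ[k] k)) :
    toConv (φ ∘ₗ adR k v) * f = f * toConv (φ ∘ₗ adR k v) := by
  refine WithConv.ext (LinearMap.ext fun b => ?_)
  have h1 := congrArg (fun t => LinearMap.mul' k k (TensorProduct.map f.ofConv φ t)) (swap hP b)
  have h2 : ∀ t : B ⊗[k] B, LinearMap.mul' k k (TensorProduct.map f.ofConv φ
      ((adR k v).lTensor B t)) = LinearMap.mul' k k (TensorProduct.map f.ofConv
        (φ ∘ₗ adR k v) t) := by
    intro t
    induction t with
    | zero => simp
    | add x y hx hy => simp only [map_add, hx, hy]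
    | tmul x y => simp
  have h3 : ∀ t : B ⊗[k] B, LinearMap.mul' k k (TensorProduct.map f.ofConv φ
      (TensorProduct.comm k B B ((adR k v).rTensor B t))) = LinearMap.mul' k k
        (TensorProduct.map (φ ∘ₗ adR k v) f.ofConv t) := by
    intro t
    induction t with
    | zero => simp
    | add x y hx hy => simp only [map_add, hx, hy]
    | tmul x y => simp [mul_comm]
  simp only [h2, h3] at h1
  exact h1.symm

/-- A central linear form acts in the same way from both sides. -/
theorem Lf_eq_Rg [Module.Finite k B] {c : WithConv (B →ₗ[k] k)}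
    (hc : ∀ f : WithConv (B →ₗ[k] k), c * f = f * c) (b : B) :
    Lf c.ofConv b = Rg c.ofConv b := by
  refine sep (k := k) _ _ fun f => ?_
  have h1 := LinearMap.congr_fun (congrArg ofConv (hc (toConv f))) b
  have h2 : ∀ t : B ⊗[k] B, f (TensorProduct.lid k B (c.ofConv.rTensor B t)) =
      LinearMap.mul' k k (TensorProduct.map c.ofConv f t) := by
    intro t
    induction t with
    | zero => simp
    | add x y hx hy => simp only [map_add, hx, hy]
    | tmul x y => simp
  have h3 : ∀ t : B ⊗[k] B, f (TensorProduct.rid k B (c.ofConv.lTensor B t)) =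
      LinearMap.mul' k k (TensorProduct.map f c.ofConv t) := by
    intro t
    induction t with
    | zero => simp
    | add x y hx hy => simp only [map_add, hx, hy]
    | tmul x y => simp [mul_comm]
  rw [Lf_apply, Rg_apply, h2, h3]
  exact h1

/-- `b v = ∑ (b₁ ▷ v) b₂` -/
theorem mul_eq_adR (b v : B) : b * v = LinearMap.mul' k B ((adR k v).rTensor B
    (Coalgebra.comul (R := k) b)) :=
  (LinearMap.congr_fun (congrArg ofConv (adR_mul_id (k := k) v)) b).symm

end

end Pool.Agent.Helper49.FA
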