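import Pool.Agent.Helper49.FA.Defs
import Pool.Agent.Helper49.FA.PDefs
import Pool.Agent.Helper49.FA.Coef
import Pool.Agent.Helper90.UN.Main
import Pool.Agent.Helper90.UN.Prim

/-!
# Project FA: thickened actions
-/

set_option linter.unusedSectionVars false
set_option autoImplicit false

open scoped TensorProduct
open WithConv
open Pool.Agent.Helper90.FC Pool.Agent.Helper90.UN Pool.Agent.Helper56.SS

namespace Pool.Agent.Helper49.FA

universe u

section

variable {k : Type u} [Field k] {q n : ℕ} {A B : Type u} [Ring A] [Ring B] [HopfAlgebra k A]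
  [HopfAlgebra k B] {ι : A →ₐc[k] B}

theorem counit_adj_mul (b x : B) : Coalgebra.counit (R := k) (adj k b x) =
    Coalgebra.counit (R := k) b * Coalgebra.counit (R := k) x := by
  have h : ∀ t : B ⊗[k] B, Coalgebra.counit (R := k) (LinearMap.mul' k B
      (TensorProduct.map (LinearMap.mulRight k x) (HopfAlgebra.antipode k) t)) =
      Coalgebra.counit (R := k) x * Coalgebra.counit (R := k)
        (TensorProduct.lid k B ((Coalgebra.counit (R := k)).rTensor B t)) := by
    intro t
    induction t with
    | zero => simp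
    | add s t hs ht => simp only [map_add, hs, ht, mul_add]
    | tmul s t =>
      rw [TensorProduct.map_tmul, LinearMap.mul'_apply, LinearMap.mulRight_apply,
        Bialgebra.counit_mul, Bialgebra.counit_mul, HopfAlgebra.counit_antipode,
        LinearMap.rTensor_tmul, TensorProduct.lid_tmul, map_smul, smul_eq_mul]
      ring
  rw [adj, h, Coalgebra.rTensor_counit_comul, TensorProduct.lid_tmul, one_smul, mul_comm]

/-- The algebra `k[X_1, ..., X_n] / (X_i ^ q X_j)`. -/
abbrev TPoly (k : Type u) [Field k] (q n : ℕ) : Type u :=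
  MvPolynomial (Fin n) k ⧸ tIdeal k q n

/-- The class of `X_i` in `k[X_1, ..., X_n] / (X_i ^ q X_j)`. -/
noncomputable def tX (k : Type u) [Field k] (q n : ℕ) (i : Fin n) : TPoly k q n :=
  Ideal.Quotient.mk (tIdeal k q n) (MvPolynomial.X i)

/-- A thickening with `P = TPoly k q n`. -/
structure ThkA (k : Type u) [Field k] (q n : ℕ) {A B : Type u} [Ring A] [Ring B]
    [HopfAlgebra k A] [HopfAlgebra k B] (ι : A →ₐc[k] B) where
  ev : TPoly k q n →ₐ[k] A
  surj : Function.Surjective ev
  aug : ∀ i, Coalgebra.counit (R := k) (ev (tX k q n i)) = 0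
  pow : ∀ i, ev (tX k q n i) ^ q = 0
  finrank : Module.finrank k A = q ^ n
  act : B →ₗ[k] TPoly k q n →ₗ[k] TPoly k q n
  alg : IsModAlg k act
  lift : ∀ (b : B) (f : TPoly k q n), ι (ev (act b f)) = adj k b (ι (ev f))
  triv : ∀ (a : A) (f : TPoly k q n), act (ι a) f = Coalgebra.counit (R := k) a • f

theorem exists_equiv {P : Type u} [CommRing P] [Algebra k P] (X : Fin n → P)
    (gen : Algebra.adjoin k (Set.range X) = ⊤)
    (rel : ∀ f : MvPolynomial (Fin n) k, MvPolynomial.aeval X f = 0 ↔ f ∈ tIdeal k q n) :
    ∃ e : TPoly k q n ≃ₐ[k] P, ∀ i, e (tX k q n i) = X i := by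
  have hs : Function.Surjective (MvPolynomial.aeval X : MvPolynomial (Fin n) k →ₐ[k] P) := by
    rw [← AlgHom.range_eq_top, ← Algebra.adjoin_range_eq_range_aeval, gen]
  have hk : tIdeal k q n = RingHom.ker (MvPolynomial.aeval X : MvPolynomial (Fin n) k →ₐ[k] P) := by
    ext f
    rw [RingHom.mem_ker, ← rel]
  refine ⟨(Ideal.quotientEquivAlgOfEq k hk).trans
    (Ideal.quotientKerAlgEquivOfSurjective hs), fun i => ?_⟩
  have h1 : ∀ f : MvPolynomial (Fin n) k, ((Ideal.quotientEquivAlgOfEq k hk).trans
      (Ideal.quotientKerAlgEquivOfSurjective hs)) (Ideal.Quotient.mk (tIdeal k q n) f) =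
      MvPolynomial.aeval X f := fun f => rfl
  exact (h1 _).trans (MvPolynomial.aeval_X _ _)

section transport

variable {P Q : Type u} [CommRing P] [Algebra k P] [CommRing Q] [Algebra k Q] (e : Q ≃ₐ[k] P)
  (act : B →ₗ[k] P →ₗ[k] P)

/-- transport of an action -/
noncomputable def trAct : B →ₗ[k] Q →ₗ[k] Q where
  toFun := fun b => e.symm.toLinearMap ∘ₗ act b ∘ₗ e.toLinearMap
  map_add' := fun b b' => LinearMap.ext fun f => by
    change e.symm (act (b + b') (e f)) = e.symm (act b (e f)) + e.symm (act b' (e f))
    rw [map_add, LinearMap.add_apply, map_add]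
  map_smul' := fun r b => LinearMap.ext fun f => by
    change e.symm (act (r • b) (e f)) = r • e.symm (act b (e f))
    rw [map_smul, LinearMap.smul_apply, map_smul]

theorem trAct_apply (b : B) (f : Q) : trAct e act b f = e.symm (act b (e f)) := rfl

theorem isModAlg_tr (h : IsModAlg k act) : IsModAlg k (trAct e act) where
  one_act := fun f => by rw [trAct_apply, h.one_act, e.symm_apply_apply]
  mul_act := fun b b' f => by
    rw [trAct_apply, trAct_apply, trAct_apply, h.mul_act, e.apply_symm_apply]
  act_one := fun b => by rw [trAct_apply, map_one, h.act_one, map_smul, map_one]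
  act_mul := fun b f g => by
    rw [trAct_apply, map_mul, h.act_mul]
    generalize Coalgebra.comul (R := k) b = t
    induction t with
    | zero => rw [map_zero, map_zero, map_zero]
    | add s t hs ht => rw [map_add, map_add, map_add, hs, ht]
    | tmul s t =>
      rw [TensorProduct.lift.tmul, TensorProduct.lift.tmul]
      change e.symm (act s (e f) * act t (e g)) = e.symm (act s (e f)) * e.symm (act t (e g))
      rw [map_mul]

theorem lift_tr {ev : P →ₐ[k] A} (h : ∀ (b : B) (f : P), ι (ev (act b f)) = adj k b (ι (ev f)))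
    (b : B) (f : Q) : ι ((ev.comp e.toAlgHom) (trAct e act b f)) =
      adj k b (ι ((ev.comp e.toAlgHom) f)) := by
  change ι (ev (e (e.symm (act b (e f))))) = adj k b (ι (ev (e f)))
  rw [e.apply_symm_apply, h]

theorem triv_tr (h : ∀ (a : A) (f : P), act (ι a) f = Coalgebra.counit (R := k) a • f)
    (a : A) (f : Q) : trAct e act (ι a) f = Coalgebra.counit (R := k) a • f := by
  rw [trAct_apply, h, map_smul, e.symm_apply_apply]

end transport

/-- transport of a thickening to `TPoly k q n` -/
noncomputable def ThickAct.toThkA {P : Type u} [CommRing P] [Algebra k P] {X : Fin n → P}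
    {ev : P →ₐ[k] A} {act : B →ₗ[k] P →ₗ[k] P} (T : ThickAct k q ι X ev act)
    (e : TPoly k q n ≃ₐ[k] P) (he : ∀ i, e (tX k q n i) = X i) : ThkA k q n ι where
  ev := ev.comp e.toAlgHom
  surj := T.surj.comp e.surjective
  aug := fun i => by
    have h := T.aug i
    rwa [← he] at h
  pow := fun i => by
    have h := T.pow i
    rwa [← he] at h
  finrank := T.finrank
  act := trAct e act
  alg := isModAlg_tr e act T.alg
  lift := lift_tr e act T.lift
  triv := triv_tr e act T.triv

theorem ThkA.ker (T : ThkA k q n ι) (hι : Function.Injective ι) (b : B)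
    (f : TPoly k q n) (hf : T.ev f = 0) : T.ev (T.act b f) = 0 := by
  apply hι
  rw [T.lift, hf, map_zero, adj_tensor_zero]

/-- restriction to a Hopf subalgebra -/
noncomputable def ThkA.restr (T : ThkA k q n ι) {K : Type u} [Ring K] [HopfAlgebra k K]
    (j : K →ₐc[k] B) (hj : Function.Injective j) (ι1 : A →ₐc[k] K) (hι1 : ∀ a, j (ι1 a) = ι a) :
    ThkA k q n ι1 where
  ev := T.ev
  surj := T.surj
  aug := T.aug
  pow := T.pow
  finrank := T.finrank
  act := T.act ∘ₗ (j : K →ₗ[k] B)
  alg :=
    { one_act := fun f => by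
        change T.act (j 1) f = f
        rw [map_one, T.alg.one_act]
      mul_act := fun b b' f => by
        change T.act (j (b * b')) f = T.act (j b) (T.act (j b') f)
        rw [map_mul, T.alg.mul_act]
      act_one := fun b => by
        change T.act (j b) 1 = _
        rw [T.alg.act_one, map_counit]
      act_mul := fun b f g => by
        change T.act (j b) (f * g) = _
        rw [T.alg.act_mul, ← CoalgHomClass.map_comp_comul_apply]
        generalize Coalgebra.comul (R := k) b = t
        induction t with
        | zero => simp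
        | add s t hs ht => rw [map_add, map_add, map_add, hs, ht]
        | tmul s t => rfl }
  lift := fun b f => by
    apply hj
    rw [hι1, map_adj, hι1]
    exact T.lift (j b) f
  triv := fun a f => by
    change T.act (j (ι1 a)) f = _
    rw [hι1, T.triv]

theorem ThkA.exists_basis (T : ThkA k q n ι) (hfin : Module.Finite k (TPoly k q n)) :
    ∃ (m : ℕ) (f : Fin m → TPoly k q n) (φ : Fin m → TPoly k q n →ₗ[k] k),
      (∀ i, T.ev (f i) = 0) ∧ (∀ i l, φ i (f l) = if i = l then 1 else 0) ∧
      ∀ g, T.ev g = 0 → g = ∑ i, φ i g • f i := by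
  let W : Submodule k (TPoly k q n) := LinearMap.ker T.ev.toLinearMap
  let b := Module.finBasis k W
  obtain ⟨r, hr⟩ := LinearMap.exists_leftInverse_of_injective W.subtype (by
    rw [Submodule.ker_subtype])
  have hr' : ∀ w : W, r w = w := fun w => LinearMap.congr_fun hr w
  refine ⟨Module.finrank k W, fun i => (b i : TPoly k q n), fun i => b.coord i ∘ₗ r,
    fun i => (b i).2, ?_, ?_⟩
  · intro i l
    rw [LinearMap.comp_apply, hr', Module.Basis.coord_apply, Module.Basis.repr_self,
      Finsupp.single_apply]
    simp only [eq_comm]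
  · intro g hg
    have h1 := congrArg (W.subtype) (b.sum_repr ⟨g, hg⟩)
    rw [map_sum] at h1
    refine Eq.trans h1.symm (Finset.sum_congr rfl fun i _ => ?_)
    rw [map_smul, LinearMap.comp_apply]
    have h2 : r g = ⟨g, hg⟩ := hr' ⟨g, hg⟩
    rw [h2]
    rfl

end

section

variable {k : Type u} [Field k] {q n : ℕ} {A B : Type u} [CommRing A] [Ring B] [HopfAlgebra k A]
  [HopfAlgebra k B] {ι : A →ₐc[k] B}

/-- the action on a thickening -/
noncomputable def ThkA.toPAct [PAug k (TPoly k q n) n] (T : ThkA k q n ι)
    (hι : Function.Injective ι)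
    (t : Thick k A (TPoly k q n)) (ht : t.ev = T.ev)
    (htriv : ∀ f, T.ev f = 0 → ∀ b, T.act b f = Coalgebra.counit (R := k) b • f) :
    PAct ι t where
  act := T.act
  one_act := T.alg.one_act
  mul_act := T.alg.mul_act
  act_one := T.alg.act_one
  act_mul := T.alg.act_mul
  cst := fun b f => by
    rw [t.cst_ev, t.cst_ev, ht]
    have h := counit_adj_mul (k := k) b (ι (T.ev f))
    rw [← T.lift, map_counit, map_counit] at h
    exact h
  comm := fun b f => by
    rw [ht, mul_eq_adR (k := k)]
    generalize Coalgebra.comul (R := k) b = s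
    induction s with
    | zero => simp
    | add x y hx hy => rw [map_add, map_add, map_add, hx, hy]
    | tmul x y =>
      rw [LinearMap.rTensor_tmul, LinearMap.mul'_apply, TensorProduct.lift.tmul]
      change adj k x (ι (T.ev f)) * y = ι (T.ev (T.act x f)) * y
      rw [T.lift]
  ker := fun b f hf => by
    rw [ht] at hf ⊢
    exact T.ker hι b f hf
  triv := T.triv
  lam := fun b i f hf => by
    rw [ht] at hf
    rw [htriv f hf b, map_smul, smul_eq_mul]

end

end Pool.Agent.Helper49.FA
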