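import Pool.Agent.Helper49.FA.MainStep
import Pool.Agent.Helper49.FA.Height
import Pool.Agent.Helper49.FA.ThkAct
import Pool.Agent.Helper49.FA.BockP
import Pool.Agent.Helper49.FA.RedQ
import Pool.Agent.Helper90.FC.Height
import Pool.Agent.Helper49.FA.Thk
import Pool.Agent.Helper76.FA.QMod
import Pool.Agent.Helper76.FA.QEv
import Pool.Agent.Helper98.FA.RedW
import Pool.Agent.Helper56.SS.Steps

/-!
# Project FA: the step for a kernel with a thickened action
-/

set_option linter.unusedSectionVars false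
set_option autoImplicit false

open CategoryTheory CategoryTheory.Abelian CategoryTheory.Limits
open scoped ModuleCat TensorProduct
open WithConv
open Pool.Agent.Helper59.FG Pool.Agent.Helper90.FC Pool.Agent.Helper90.UN
open Pool.Agent.Helper56.SS Pool.Agent.Helper76.FA Pool.Agent.Helper98.FA
open Pool.Agent.Helper49.FA.TH

namespace Pool.Agent.Helper49.FA

universe u

section

variable {k : Type u} [Field k]

theorem height_of_bock_q (p s : ℕ) [Fact p.Prime] [CharP k p] (hs : 0 < s) {F B C : Type u}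
    [CommRing F] [Ring B] [Ring C] [HopfAlgebra k F] [HopfAlgebra k B] [HopfAlgebra k C]
    [Module.Finite k F] [Module.Finite k B] [Module.Finite k C] (ι : F →ₐc[k] B) (π : B →ₐc[k] C)
    (hex : NExact k ι π) (hN : AugNil k F) (hC : FGE k C) {n : ℕ} (c : Coords k (p ^ s) F n)
    (hb : ∀ i, ∃ (X : TA k (HD k B)) (Y : TA k (HD k C)), X ∈ Tn k (HD k B) 2 ∧
      Y ∈ Tn k (HD k C) 3 ∧ dd k (HD k B) X = mapT (HDmap π : HD k C →ₗ[k] HD k B) Y ∧
      dd k (HD k F) (mapT (HDmap ι : HD k B →ₗ[k] HD k F) X) = 0 ∧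
      ∀ f g : F, val2 (evn k 2 (mapT (HDmap ι : HD k B →ₗ[k] HD k F) X)) f g =
        c.bock i f g) : FGE k B := by
  have hp : 0 < p := (Fact.out : p.Prime).pos
  have hq : 1 < p ^ s := Nat.one_lt_pow hs.ne' (Fact.out : p.Prime).one_lt
  have hnt : Nontrivial F := by
    refine ⟨⟨0, 1, fun h => ?_⟩⟩
    have h2 : Coalgebra.counit (R := k) (0 : F) = Coalgebra.counit (R := k) (1 : F) := by rw [h]
    rw [map_zero, Bialgebra.counit_one] at h2
    exact zero_ne_one h2
  have hιπ := triv_of_ker hex.ker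
  choose D hD using exists_vdata_q (p ^ s) hq c
  have hη : ∀ i, ∃ (K : ℕ) (η : Ext (trivObj k B) (trivObj k B) (2 * p ^ K)),
      rsE (ι : F →ₐ[k] B) (aug_of_bialg ι) η = ypow (D i).cl (p ^ K) := by
    intro i
    obtain ⟨X, Y, hX, hY, hXY, hd, hval⟩ := hb i
    obtain ⟨K, η, h⟩ := transgress p ι π hex.surj hιπ hC X hX Y hY hXY hd
    refine ⟨K, η, ?_⟩
    rw [h, hD i (mapT (HDmap ι : HD k B →ₗ[k] HD k F) X) (mapT_pow _ 2 X hX) hd hval]
  choose K η hη using hη
  let H : Fam k B (Fin n) :=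
    { deg := fun i => 2 * p ^ K i
      cls := η
      pos := fun i => Nat.mul_pos (by norm_num) (pow_pos hp _)
      even := fun i => even_two.mul_right _ }
  refine main_step ι π hex hN hC H ?_
  have h1 := Fam.evGen_pow (fam2 fun i => (D i).cl) (fun i => p ^ K i) (fun i => pow_pos hp _)
    (evGen_bock_q p s hs c D)
  refine Fam.evGen_mono ((fam2 fun i => (D i).cl).pow (fun i => p ^ K i)
    (fun i => pow_pos hp _)) (H.res (ι : F →ₐ[k] B) (aug_of_bialg ι)) id (fun i => rfl)
    (fun i => ?_) h1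
  exact congrArg (Sigma.mk (β := fun n => Ext (trivObj k F) (trivObj k F) n) (2 * p ^ K i)) (hη i)

theorem pow_eq_counit (p s : ℕ) [Fact p.Prime] [CharP k p] {F : Type u} [CommRing F]
    [HopfAlgebra k F] {n : ℕ} (c : Coords k (p ^ s) F n) (a : F) :
    a ^ p ^ s = algebraMap k F (Coalgebra.counit (R := k) a ^ p ^ s) := by
  have hq : 0 < p ^ s := pow_pos (Fact.out : p.Prime).pos _
  have hnt : Nontrivial F := by
    refine ⟨⟨0, 1, fun h => ?_⟩⟩
    have h2 : Coalgebra.counit (R := k) (0 : F) = Coalgebra.counit (R := k) (1 : F) := by rw [h]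
    rw [map_zero, Bialgebra.counit_one] at h2
    exact zero_ne_one h2
  have hch : CharP F p := charP_of_injective_algebraMap (algebraMap k F).injective p
  rw [← q_ev_red c a]
  generalize c.red a = f
  induction f using MvPolynomial.induction_on with
  | C r =>
    have h1 : c.ev (MvPolynomial.C r) = algebraMap k F r := c.ev.commutes r
    rw [h1, Bialgebra.counit_algebraMap, map_pow]
  | add f g hf hg => rw [map_add, add_pow_char_pow, hf, hg, map_add, add_pow_char_pow, map_add]
  | mul_X f i hf =>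
    have h1 : c.ev (MvPolynomial.X i) = c.x i := MvPolynomial.aeval_X _ _
    rw [map_mul, mul_pow, h1, c.pow, mul_zero, Bialgebra.counit_mul, c.aug, mul_zero,
      zero_pow hq.ne', map_zero]

theorem augNil_of_coords (p s : ℕ) [Fact p.Prime] [CharP k p] {F : Type u} [CommRing F]
    [HopfAlgebra k F] [Module.Finite k F] {n : ℕ} (c : Coords k (p ^ s) F n) : AugNil k F := by
  have hq : 0 < p ^ s := pow_pos (Fact.out : p.Prime).pos _
  refine augNil_of_pow (p ^ s) hq fun a ha => ?_
  rw [pow_eq_counit p s c a, ha, zero_pow hq.ne', map_zero]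

/-- `B F⁺ ⊆ F⁺ B` if `F` is stable under the adjoint action -/
theorem norm_of_adj {F B : Type u} [Ring F] [Ring B] [HopfAlgebra k F] [HopfAlgebra k B]
    (ι : F →ₐc[k] B) (h : ∀ (b : B) (x : F), ∃ y, adj k b (ι x) = ι y) (b : B) (x : F)
    (hx : Coalgebra.counit (R := k) x = 0) :
    b * ι x ∈ Submodule.span k {y : B | ∃ (a' : F) (b' : B),
      Coalgebra.counit (R := k) a' = 0 ∧ ι a' * b' = y} := by
  rw [mul_eq_adR (k := k)]
  generalize Coalgebra.comul (R := k) b = t
  induction t with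
  | zero => rw [map_zero, map_zero]; exact zero_mem _
  | add s t hs ht => rw [map_add, map_add]; exact add_mem hs ht
  | tmul s t =>
    rw [LinearMap.rTensor_tmul, LinearMap.mul'_apply]
    obtain ⟨y, hy⟩ := h s x
    refine Submodule.subset_span ⟨y, t, ?_, ?_⟩
    · have h1 := counit_adj_mul (k := k) s (ι x)
      rw [hy, map_counit, map_counit, hx, mul_zero] at h1
      exact h1
    · rw [adR_apply, hy]

/-- The step for a thickened action, trivial on the kernel. -/
theorem thick_height (p s : ℕ) [Fact p.Prime] [CharP k p] (hs : 0 < s) {F B C : Type u}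
    [CommRing F] [Ring B] [Ring C] [HopfAlgebra k F] [HopfAlgebra k B] [HopfAlgebra k C]
    [Module.Finite k B] (ι : F →ₐc[k] B) (π : B →ₐc[k] C) (hex : HopfExact k ι π) {n : ℕ}
    (T : ThkA k (p ^ s) n ι)
    (htriv : ∀ f, T.ev f = 0 → ∀ b, T.act b f = Coalgebra.counit (R := k) b • f)
    (hC : FGE k C) : FGE k B := by
  have hfF : Module.Finite k F := Module.Finite.of_injective (ι : F →ₗ[k] B) hex.inj
  have hfC : Module.Finite k C := Module.Finite.of_surjective (π : B →ₗ[k] C) hex.surj
  have hq : 0 < p ^ s := pow_pos (Fact.out : p.Prime).pos _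
  obtain ⟨c, t, ht, hx, hlam⟩ := exists_thick hq T.ev T.surj T.aug T.pow T.finrank
  have hNil := augNil_of_coords p s c
  have hN : NExact k ι π := ⟨hex.inj, hex.surj, hex.ker, fun b x hx =>
    norm_of_adj ι (fun b x => by
      obtain ⟨f, rfl⟩ := T.surj x
      exact ⟨_, (T.lift b f).symm⟩) b x hx⟩
  obtain ⟨σ⟩ := exists_sect ι π hN hNil
  refine height_of_bock_q p s hs ι π hN hNil hC c fun i => ?_
  obtain ⟨X, Y, h1, h2, h3, h4, h5⟩ := exists_bock_P ι π hex.surj (triv_of_ker hex.ker) σ t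
    (T.toPAct hex.inj t ht htriv) i
  exact ⟨X, Y, h1, h2, h3, h4, fun f g => by rw [h5, hlam]⟩

/-- The step for a thickened action. -/
theorem fge_lift (p : ℕ) [Fact p.Prime] [CharP k p] {A B C D : Type u} [Ring A] [Ring B]
    [Ring C] [Ring D] [HopfAlgebra k A] [HopfAlgebra k B] [HopfAlgebra k C] [HopfAlgebra k D]
    [Module.Finite k B] [IsSemisimpleRing D] (ι : A →ₐc[k] B) (π : B →ₐc[k] C) (q : B →ₐc[k] D)
    (hex : HopfExact k ι π) (hq : LiftedActs k p ι q) (hC : FGE k C) : FGE k B := by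
  obtain ⟨hcomm, hqs, n, s, P, _, _, X, ev, act, hs, hT0, hT1', hT2'⟩ := hq
  obtain ⟨e, he⟩ := exists_equiv X hT0.gen hT0.rel
  let T : ThkA k (p ^ s) n ι := hT0.toThkA e he
  have hT1 : ∀ f, T.ev f = 0 → ∀ b, q b = 0 → T.act b f = 0 := by
    intro f hf b hb
    change e.symm (act b (e f)) = 0
    rw [hT1' (e f) hf b hb, map_zero]
  have hT2 : ∀ f, T.ev f = 0 → ∀ (φ : TPoly k (p ^ s) n →ₗ[k] k) (g : B →ₗ[k] k),
      toConv (φ ∘ₗ T.act.flip f) * toConv g = toConv g * toConv (φ ∘ₗ T.act.flip f) := by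
    intro f hf φ g
    exact hT2' (e f) hf (φ ∘ₗ e.symm.toLinearMap) g
  obtain ⟨m, f, φ, hf, hφ, hsum⟩ := T.exists_basis (finite_TPoly _ _)
  have hact : ∀ b l, T.act b (f l) = ∑ i, φ i (T.act b (f l)) • f i := fun b l =>
    hsum _ (T.ker hex.inj b (f l) (hf l))
  obtain ⟨K, _, _, C1, _, _, j, ι1, π1, g, hj, hjι, hex1, hg1, hg, hw, hup⟩ :=
    exists_red_mat ι π q hex hqs (fun i l => toConv (φ i ∘ₗ T.act.flip (f l)))
      (fun i l => by
        change φ i (T.act 1 (f l)) = _
        rw [T.alg.one_act, hφ])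
      (fun i l b b' => by
        change φ i (T.act (b * b') (f l)) = ∑ l', φ i (T.act b (f l')) * φ l' (T.act b' (f l))
        rw [T.alg.mul_act]
        conv_lhs => rw [hact b' l]
        rw [map_sum, map_sum]
        refine Finset.sum_congr rfl fun l' _ => ?_
        rw [map_smul, map_smul, smul_eq_mul, mul_comm])
      (fun i l g => hT2 (f l) (hf l) (φ i) g.ofConv)
      (fun i l a => by
        change φ i (T.act (ι a) (f l)) = _
        rw [T.triv, map_smul, hφ, smul_eq_mul, mul_ite, mul_one, mul_zero])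
      (fun i l b hb => by
        change φ i (T.act b (f l)) = 0
        rw [hT1 (f l) (hf l) b hb, map_zero])
  refine hup ?_
  have hfK : Module.Finite k K := Module.Finite.of_injective (j : K →ₗ[k] B) hj
  have hfC : Module.Finite k C := Module.Finite.of_surjective (π : B →ₗ[k] C) hex.surj
  have hfC1 : Module.Finite k C1 := Module.Finite.of_injective (g : C1 →ₗ[k] C) hg
  have hC1 : FGE k C1 := fge_hopfSub g hg hC
  let _ : CommRing A := { (inferInstance : Ring A) with mul_comm := hcomm }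
  refine thick_height p s hs ι1 π1 hex1 (T.restr j hj ι1 hjι) (fun h hh x => ?_) hC1
  change T.act (j x) h = _
  have hh' : T.ev h = 0 := hh
  conv_lhs => rw [hsum h hh']
  conv_rhs => rw [hsum h hh']
  rw [map_sum, Finset.smul_sum]
  refine Finset.sum_congr rfl fun l _ => ?_
  rw [map_smul, hact, smul_comm]
  congr 1
  have h1 : ∀ i, φ i (T.act (j x) (f l)) = if i = l then Coalgebra.counit (R := k) x else 0 :=
    fun i => hw i l x
  rw [Finset.sum_eq_single l]
  · rw [h1, if_pos rfl]
  · intro i _ hi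
    rw [h1, if_neg hi, zero_smul]
  · intro hl
    exact absurd (Finset.mem_univ _) hl

end

end Pool.Agent.Helper49.FA
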