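import Pool.Agent.Helper49.FA.Mat
import Pool.Agent.Helper90.FC.Tower

/-!
# Project FA: the tower

`A → B → C` exact, `A` commutative, generated by a stable space `U` of primitive elements, and `B`
acts trivially on `U^(1)`. Then the span `A'` of the `p`-th powers is central in `B`; `B' = B // A'`
and `F` is the image of `A` in `B'`.
-/

set_option linter.unusedSectionVars false
set_option autoImplicit false

open scoped TensorProduct
open WithConv
open Pool.Agent.Helper90.FC Pool.Agent.Helper90.UN Pool.Agent.Helper56.SS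

namespace Pool.Agent.Helper49.FA

universe u

section

variable {k : Type u} [Field k]

/-- convolution powers and homomorphisms of coalgebras -/
theorem conv_pow_comp {B B' : Type u} [Ring B] [Ring B'] [HopfAlgebra k B] [HopfAlgebra k B']
    (π : B →ₐc[k] B') (f : WithConv (B' →ₗ[k] k)) (r : ℕ) (b : B) :
    ((toConv (f.ofConv ∘ₗ (π : B →ₗ[k] B')) : WithConv (B →ₗ[k] k)) ^ r).ofConv b =
      (f ^ r).ofConv (π b) := by
  induction r generalizing b with
  | zero =>
    rw [pow_zero, pow_zero]
    change algebraMap k k (Coalgebra.counit (R := k) b) =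
      algebraMap k k (Coalgebra.counit (R := k) (π b))
    rw [Pool.Agent.Helper90.UN.map_counit]
  | succ r ih =>
    rw [pow_succ, pow_succ]
    change LinearMap.mul' k k (TensorProduct.map _ _ (Coalgebra.comul (R := k) b)) =
      LinearMap.mul' k k (TensorProduct.map _ _ (Coalgebra.comul (R := k) (π b)))
    have h1 : TensorProduct.map (π : B →ₗ[k] B') (π : B →ₗ[k] B') (Coalgebra.comul (R := k) b) =
        Coalgebra.comul (R := k) (π b) := CoalgHomClass.map_comp_comul_apply π b
    rw [← h1]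
    generalize Coalgebra.comul (R := k) b = t
    induction t with
    | zero => simp only [map_zero]
    | add x y hx hy => simp only [map_add, hx, hy]
    | tmul x y =>
      rw [TensorProduct.map_tmul, TensorProduct.map_tmul, TensorProduct.map_tmul,
        LinearMap.mul'_apply, LinearMap.mul'_apply, ih]
      rfl

theorem exists_twTower (p : ℕ) [Fact p.Prime] [CharP k p] {A B C : Type u} [CommRing A] [Ring B]
    [Ring C] [HopfAlgebra k A] [HopfAlgebra k B] [HopfAlgebra k C] [Module.Finite k A]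
    [Module.Finite k B] (ι : A →ₐc[k] B) (π : B →ₐc[k] C) (hex : HopfExact k ι π)
    (U : Submodule k A) (hgen : Algebra.adjoin k (U : Set A) = ⊤)
    (hprim : ∀ u ∈ U, Coalgebra.comul (R := k) u = u ⊗ₜ[k] 1 + 1 ⊗ₜ[k] u)
    (hstab : ∀ u ∈ U, ∀ b : B, ∃ v ∈ U, adj k b (ι u) = ι v)
    (htw : ∀ u ∈ U, ∀ φ : B →ₗ[k] k,
      (toConv (φ ∘ₗ adR k (ι u)) : WithConv (B →ₗ[k] k)) ^ p = (φ (ι u)) ^ p • 1) :
    ∃ (A' : Type u) (_ : CommRing A') (_ : HopfAlgebra k A') (B' : Type u) (_ : Ring B')
      (_ : HopfAlgebra k B') (F : Type u) (_ : CommRing F) (_ : HopfAlgebra k F)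
      (ι' : A' →ₐc[k] B) (π' : B →ₐc[k] B') (ι'' : F →ₐc[k] B') (π'' : B' →ₐc[k] C)
      (V : Submodule k F),
      CentralExact k ι' π' ∧ HopfExact k ι'' π'' ∧
        (∀ a : F, Coalgebra.counit (R := k) a = 0 → a ^ p = 0) ∧
        Module.Finite k A' ∧ Module.Finite k F ∧ Module.Finite k B' ∧
        Algebra.adjoin k (V : Set F) = ⊤ ∧
        (∀ u ∈ V, Coalgebra.comul (R := k) u = u ⊗ₜ[k] 1 + 1 ⊗ₜ[k] u) ∧
        (∀ u ∈ V, ∀ b : B', ∃ v ∈ V, adj k b (ι'' u) = ι'' v) ∧
        (∀ u ∈ V, ∀ φ : B' →ₗ[k] k,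
          (toConv (φ ∘ₗ adR k (ι'' u)) : WithConv (B' →ₗ[k] k)) ^ p = (φ (ι'' u)) ^ p • 1) := by
  have hAc : ∀ a a' : A, a * a' = a' * a := fun a a' => mul_comm a a'
  obtain ⟨n, ⟨M⟩⟩ := exists_matU ι hex.inj U
  -- the `p`-th powers are central
  have hmp : ∀ i j, M.m i j ^ p = if i = j then 1 else 0 := by
    intro i j
    have h1 := htw (M.x j) (M.mem j) (M.phi i)
    rw [M.dual] at h1
    refine Eq.trans h1 ?_
    by_cases hij : i = j
    · rw [if_pos hij, if_pos hij, one_pow, one_smul]
    · rw [if_neg hij, if_neg hij, zero_pow (Fact.out : p.Prime).ne_zero, zero_smul]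
  have hcx : ∀ (j : Fin n) (b : B), b * ι (M.x j) ^ p = ι (M.x j) ^ p * b := by
    intro j b
    rw [M.mul_x_pow hprim hstab hAc p b j, Finset.sum_eq_single j]
    · rw [hmp, if_pos rfl, TT_one]
      rfl
    · intro i _ hij
      rw [hmp, if_neg hij]
      have : TT (0 : WithConv (B →ₗ[k] k)) = 0 := by
        have h := TT_smul (k := k) (B := B) 0 0
        rwa [zero_smul, zero_smul] at h
      rw [this, LinearMap.zero_apply, mul_zero]
    · intro h
      exact absurd (Finset.mem_univ _) h
  have hAalg : CharP A p := by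
    have hAn : Nontrivial A := ⟨⟨0, 1, fun h => by
      have h2 : Coalgebra.counit (R := k) (0 : A) = Coalgebra.counit (R := k) (1 : A) := by rw [h]
      rw [map_zero, Bialgebra.counit_one] at h2
      exact zero_ne_one h2⟩⟩
    exact charP_of_injective_algebraMap (algebraMap k A).injective p
  let Z : Subalgebra k A :=
    { carrier := {c | ∀ b : B, b * ι (c ^ p) = ι (c ^ p) * b}
      mul_mem' := by
        intro c d hc hd b
        have hc' : ∀ b : B, b * ι (c ^ p) = ι (c ^ p) * b := hc
        have hd' : ∀ b : B, b * ι (d ^ p) = ι (d ^ p) * b := hd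
        rw [mul_pow, map_mul, ← mul_assoc, hc', mul_assoc, hd', mul_assoc]
      add_mem' := by
        intro c d hc hd b
        have hc' : ∀ b : B, b * ι (c ^ p) = ι (c ^ p) * b := hc
        have hd' : ∀ b : B, b * ι (d ^ p) = ι (d ^ p) * b := hd
        rw [add_pow_char, map_add, mul_add, hc', hd', add_mul]
      algebraMap_mem' := by
        intro r b
        rw [← map_pow, AlgHomClass.commutes ι, Algebra.commutes] }
  have hZ : Z = ⊤ := by
    rw [eq_top_iff, ← hgen, Algebra.adjoin_le_iff]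
    intro u hu
    have hu' : u ∈ Submodule.span k (Set.range M.x) := by
      rw [M.span]
      exact hu
    have hle : Submodule.span k (Set.range M.x) ≤ Subalgebra.toSubmodule Z := by
      rw [Submodule.span_le]
      rintro _ ⟨j, rfl⟩
      change ∀ b : B, b * ι (M.x j ^ p) = ι (M.x j ^ p) * b
      intro b
      rw [map_pow]
      exact hcx j b
    exact hle hu'
  have hcent : ∀ (c : A) (b : B), ι (c ^ p) * b = b * ι (c ^ p) := by
    intro c b
    have h : c ∈ Z := by
      rw [hZ]
      trivial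
    exact (h b).symm
  obtain ⟨A', _, _, j, hj, hr⟩ := exists_frob (k := k) p A
  let ι' : A' →ₐc[k] B := ι.comp j
  have hι' : ∀ a, ι' a = ι (j a) := fun a => rfl
  have hi' : Function.Injective ι' := hex.inj.comp hj
  have hcc : ∀ (a : A') (b : B), ι' a * b = b * ι' a := by
    intro a b
    have h1 : j a ∈ Submodule.span k (Set.range fun b : A => b ^ p) := (hr (j a)).1 ⟨a, rfl⟩
    have h2 : ∀ y ∈ Submodule.span k (Set.range fun b : A => b ^ p), ι y * b = b * ι y := by
      intro y hy
      induction hy using Submodule.span_induction with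
      | mem y hy =>
        obtain ⟨c, rfl⟩ := hy
        exact hcent c b
      | zero => rw [map_zero, zero_mul, mul_zero]
      | add x y _ _ hx hy => rw [map_add, add_mul, mul_add, hx, hy]
      | smul r x _ hx => rw [map_smul, smul_mul_assoc, mul_smul_comm, hx]
    exact h2 _ h1
  obtain ⟨B', _, _, π', hex'⟩ := exists_quotHopf ι' hi' hcc
  let f : A →ₐc[k] B' := π'.comp ι
  have hf : ∀ a, f a = π' (ι a) := fun a => rfl
  obtain ⟨F, _, _, q, g, hq, hg, hqg⟩ := exists_image f
  obtain ⟨π'', hπ''⟩ := exists_desc ι' π' hex' π (fun a ha => (hex.ker (ι (j a))).2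
    (Ideal.subset_span ⟨j a, (counit_map j a).trans ha, rfl⟩))
  have hAp : ∀ c : A, Coalgebra.counit (R := k) c = 0 → π' (ι (c ^ p)) = 0 := by
    intro c hc
    obtain ⟨c', hc'⟩ := (hr (c ^ p)).2 (Submodule.subset_span ⟨c, rfl⟩)
    have h0 : Coalgebra.counit (R := k) c' = 0 := by
      rw [← counit_map j, hc']
      have : Coalgebra.counit (R := k) (c ^ p) = Coalgebra.counit (R := k) c ^ p :=
        map_pow (Bialgebra.counitAlgHom k A) c p
      rw [this, hc, zero_pow (Fact.out : p.Prime).ne_zero]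
    have h1 := (hex'.ker (ι' c')).2 (Ideal.subset_span ⟨c', h0, rfl⟩)
    rw [hι', hc'] at h1
    exact h1
  refine ⟨A', inferInstance, inferInstance, B', inferInstance, inferInstance, F, inferInstance,
    inferInstance, ι', π', g, π'', U.map (q : A →ₗ[k] F), hex', ?_, ?_, ?_, ?_, ?_, ?_, ?_, ?_, ?_⟩
  · refine ⟨hg, ?_, ?_⟩
    · intro c
      obtain ⟨b, rfl⟩ := hex.surj c
      exact ⟨π' b, hπ'' b⟩
    · intro b'
      obtain ⟨b, rfl⟩ := hex'.surj b'
      rw [hπ'']
      constructor
      · intro h0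
        have h1 := (hex.ker b).1 h0
        have h2 : π' b ∈ Ideal.map (AlgHomClass.toAlgHom π' : B →ₐ[k] B')
            (Ideal.span (ι '' {a : A | Coalgebra.counit (R := k) a = 0})) :=
          Ideal.mem_map_of_mem (AlgHomClass.toAlgHom π' : B →ₐ[k] B') h1
        rw [Ideal.map_span] at h2
        refine Ideal.span_mono ?_ h2
        rintro _ ⟨_, ⟨a, ha, rfl⟩, rfl⟩
        refine ⟨q a, ?_, ?_⟩
        · change Coalgebra.counit (R := k) (q a) = 0
          rw [counit_map]
          exact ha
        · rw [hqg]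
          rfl
      · intro h0
        have hle : Ideal.span (g '' {a : F | Coalgebra.counit (R := k) a = 0}) ≤
            RingHom.ker (AlgHomClass.toAlgHom π'' : B' →ₐ[k] C) := by
          rw [Ideal.span_le]
          rintro _ ⟨x, hx, rfl⟩
          obtain ⟨a, rfl⟩ := hq x
          change π'' (g (q a)) = 0
          rw [hqg, hf, hπ'']
          refine (hex.ker (ι a)).2 (Ideal.subset_span ⟨a, ?_, rfl⟩)
          change Coalgebra.counit (R := k) (q a) = 0 at hx
          rw [counit_map] at hx
          exact hx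
        have h1 : π'' (π' b) = 0 := hle h0
        rw [← hπ'']
        exact h1
  · intro x hx
    obtain ⟨c, rfl⟩ := hq x
    rw [counit_map] at hx
    apply hg
    rw [← map_pow, hqg, hf, hAp c hx, map_zero]
  · exact Module.Finite.of_injective (j : A' →ₗ[k] A) hj
  · exact Module.Finite.of_surjective (q : A →ₗ[k] F) hq
  · exact Module.Finite.of_surjective (π' : B →ₗ[k] B') hex'.surj
  · have h1 : (U.map (q : A →ₗ[k] F) : Set F) = (q : A →ₐ[k] F) '' (U : Set A) := rfl
    rw [h1, ← AlgHom.map_adjoin, hgen, Algebra.map_top, AlgHom.range_eq_top]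
    exact hq
  · rintro _ ⟨u, hu, rfl⟩
    have h1 : TensorProduct.map (q : A →ₗ[k] F) (q : A →ₗ[k] F) (Coalgebra.comul (R := k) u) =
        Coalgebra.comul (R := k) (q u) := CoalgHomClass.map_comp_comul_apply q u
    refine h1.symm.trans ?_
    rw [hprim u hu, map_add, TensorProduct.map_tmul, TensorProduct.map_tmul]
    have h2 : (q : A →ₗ[k] F) 1 = 1 := map_one q
    rw [h2]
  · rintro _ ⟨u, hu, rfl⟩ b'
    obtain ⟨b, rfl⟩ := hex'.surj b'
    obtain ⟨v, hv, h⟩ := hstab u hu b
    refine ⟨q v, ⟨v, hv, rfl⟩, ?_⟩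
    change adj k (π' b) (g (q u)) = g (q v)
    rw [hqg, hqg, hf, hf, ← Pool.Agent.Helper90.UN.map_adj, h]
  · rintro _ ⟨u, hu, rfl⟩ φ
    refine WithConv.ext (LinearMap.ext fun b' => ?_)
    obtain ⟨b, rfl⟩ := hex'.surj b'
    have h1 := htw u hu (φ ∘ₗ (π' : B →ₗ[k] B'))
    have h2 : ((toConv (φ ∘ₗ adR k (g (q u))) : WithConv (B' →ₗ[k] k)).ofConv ∘ₗ
        (π' : B →ₗ[k] B')) = (φ ∘ₗ (π' : B →ₗ[k] B')) ∘ₗ adR k (ι u) := by
      refine LinearMap.ext fun x => ?_
      change φ (adj k (π' x) (g (q u))) = φ (π' (adj k x (ι u)))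
      rw [hqg, hf, ← Pool.Agent.Helper90.UN.map_adj]
    have h3 := conv_pow_comp π' (toConv (φ ∘ₗ adR k (g (q u))) : WithConv (B' →ₗ[k] k)) p b
    rw [h2, h1] at h3
    refine h3.symm.trans ?_
    change φ (π' (ι u)) ^ p * algebraMap k k (Coalgebra.counit (R := k) b) =
      φ (g (q u)) ^ p * algebraMap k k (Coalgebra.counit (R := k) (π' b))
    rw [hqg, hf, Pool.Agent.Helper90.UN.map_counit]

end

end Pool.Agent.Helper49.FA
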