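import Pool.Agent.Helper49.FA.Height
import Pool.Agent.Helper49.FA.Tow
import Pool.Agent.Helper10.FA.Bock
import Pool.Agent.Helper49.FA.HeightP
import Pool.Agent.Helper98.FA.Red
import Pool.Agent.Helper56.SS.Steps

/-!
# Project FA: assembly
-/

set_option linter.unusedSectionVars false
set_option autoImplicit false

open CategoryTheory CategoryTheory.Abelian CategoryTheory.Limits
open scoped ModuleCat TensorProduct
open WithConv
open Pool.Agent.Helper59.FG Pool.Agent.Helper90.FC Pool.Agent.Helper90.UN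
open Pool.Agent.Helper56.SS Pool.Agent.Helper10.FA Pool.Agent.Helper76.FA Pool.Agent.Helper98.FA

namespace Pool.Agent.Helper49.FA

universe u

section

variable {k : Type u} [Field k]

/-- The step for a kernel of height one with a lifted action. -/
theorem height_of_lact (p : ℕ) [Fact p.Prime] [CharP k p] {F B C : Type u} [CommRing F] [Ring B]
    [Ring C] [HopfAlgebra k F] [HopfAlgebra k B] [HopfAlgebra k C] [Module.Finite k F]
    [Module.Finite k B] (ι : F →ₐc[k] B) (π : B →ₐc[k] C) (hex : HopfExact k ι π)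
    (hF : ∀ a : F, Coalgebra.counit (R := k) a = 0 → a ^ p = 0) {n : ℕ} (c : Coords k p F n)
    (a : LAct ι c) (hC : FGE k C) : FGE k B := by
  have hfC : Module.Finite k C := Module.Finite.of_surjective (π : B →ₗ[k] C) hex.surj
  have hN : NExact k ι π := ⟨hex.inj, hex.surj, hex.ker, fun b x hx => norm_of_lact a b x hx⟩
  obtain ⟨σ⟩ := exists_sect ι π hN (augNil_of_pow p (Fact.out : p.Prime).pos hF)
  exact height_of_bock p ι π hN hF hC c fun i =>
    exists_bock_tw p ι π hex.surj (triv_of_ker hex.ker) σ c a i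

/-- The step for a kernel of height one with trivial action on the Frobenius twist. -/
theorem tw_height (p : ℕ) [Fact p.Prime] [CharP k p] {F B C : Type u} [CommRing F] [Ring B]
    [Ring C] [HopfAlgebra k F] [HopfAlgebra k B] [HopfAlgebra k C] [Module.Finite k F]
    [Module.Finite k B] (ι : F →ₐc[k] B) (π : B →ₐc[k] C) (hex : HopfExact k ι π)
    (hF : ∀ a : F, Coalgebra.counit (R := k) a = 0 → a ^ p = 0)
    (V : Submodule k F) (hgen : Algebra.adjoin k (V : Set F) = ⊤)
    (hprim : ∀ u ∈ V, Coalgebra.comul (R := k) u = u ⊗ₜ[k] 1 + 1 ⊗ₜ[k] u)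
    (hstab : ∀ u ∈ V, ∀ b : B, ∃ v ∈ V, adj k b (ι u) = ι v)
    (htw : ∀ u ∈ V, ∀ φ : B →ₗ[k] k,
      (toConv (φ ∘ₗ adR k (ι u)) : WithConv (B →ₗ[k] k)) ^ p = (φ (ι u)) ^ p • 1)
    (hC : FGE k C) : FGE k B := by
  obtain ⟨n, ⟨M⟩⟩ := exists_matU ι hex.inj V
  have hmp : ∀ i j, toConv (M.m i j).ofConv ^ p = if i = j then 1 else 0 := by
    intro i j
    have h1 := htw (M.x j) (M.mem j) (M.phi i)
    rw [M.dual] at h1
    refine Eq.trans h1 ?_
    by_cases hij : i = j
    · rw [if_pos hij, if_pos hij, one_pow, one_smul]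
    · rw [if_neg hij, if_neg hij, zero_pow (Fact.out : p.Prime).ne_zero, zero_smul]
  have hx0 : ∀ i, Coalgebra.counit (R := k) (M.x i) = 0 := fun i =>
    counit_prim (hprim _ (M.mem i))
  have hgx : Algebra.adjoin k (Set.range M.x) = ⊤ := by
    have h1 := Algebra.adjoin_span (R := k) (s := Set.range M.x)
    rw [M.span, hgen] at h1
    exact h1.symm
  obtain ⟨c, -, a, -⟩ := exists_coords_lact (m := fun i j => (M.m i j).ofConv) ι hex.inj M.x
    (fun i => hprim _ (M.mem i)) (fun i => hF _ (hx0 i)) M.li hgx (fun b j => M.adj_x hstab b j) hmp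
  exact height_of_lact p ι π hex hF c a hC

/-- Finite generation along extensions with a commutative kernel generated by a stable space `U` of
primitive elements, if `B` acts on `U^(1)` through a semisimple quotient. -/
theorem fge_twist (p : ℕ) [Fact p.Prime] [CharP k p] {A B C D : Type u} [Ring A] [Ring B]
    [Ring C] [Ring D] [HopfAlgebra k A] [HopfAlgebra k B] [HopfAlgebra k C] [HopfAlgebra k D]
    [Module.Finite k B] [IsSemisimpleRing D] (ι : A →ₐc[k] B) (π : B →ₐc[k] C) (q : B →ₐc[k] D)
    (hex : HopfExact k ι π) (hq : TwistActs k p ι q) (hC : FGE k C) : FGE k B := by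
  obtain ⟨hcomm, hqs, U, hgen, hprim, hstab, htw⟩ := hq
  obtain ⟨K, _, _, C1, _, _, j, ι1, π1, g, hj, hjι, hex1, hg1, hg, hstab1, htw1, hup⟩ :=
    exists_red p ι π q hex hcomm hqs U hprim hstab htw
  refine hup ?_
  have hfK : Module.Finite k K := Module.Finite.of_injective (j : K →ₗ[k] B) hj
  have hfC : Module.Finite k C := Module.Finite.of_surjective (π : B →ₗ[k] C) hex.surj
  have hfC1 : Module.Finite k C1 := Module.Finite.of_injective (g : C1 →ₗ[k] C) hg
  have hfA : Module.Finite k A := Module.Finite.of_injective (ι : A →ₗ[k] B) hex.inj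
  have hC1 : FGE k C1 := fge_hopfSub g hg hC
  let _ : CommRing A := { (inferInstance : Ring A) with mul_comm := hcomm }
  obtain ⟨A', _, _, B', _, _, F, _, _, ι', π', ι'', π'', V, h1, h2, h3, h4, h5, h6, h7, h8, h9,
    h10⟩ := exists_twTower p ι1 π1 hex1 U hgen hprim hstab1 htw1
  have hB' : FGE k B' := tw_height p ι'' π'' h2 h3 V h7 h8 h9 h10 hC1
  exact fge_of_fgc (central ι' π' h1 (fgc_of_fge hB'))

/-- The FGC property passes along the steps. -/
theorem twistSteps_fgc {C : Type u} [Ring C] [HopfAlgebra k C]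
    (hC : FGC k C) {B : Type u} [Ring B] [HopfAlgebra k B] (h : TwistSteps k C B)
    (hB : Module.Finite k B) : FGC k B := by
  induction h with
  | refl => exact hC
  | twist p ι π q hex hq h ih =>
    have hf := finite_of_surj' π hex.surj
    exact fgc_of_fge (fge_twist p ι π q hex hq (fge_of_fgc (ih hf)))
  | lift p ι π q hex hq h ih =>
    have hf := finite_of_surj' π hex.surj
    exact fgc_of_fge (fge_lift p ι π q hex hq (fge_of_fgc (ih hf)))

end

end Pool.Agent.Helper49.FA
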