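import Pool.Agent.Helper49.FA.PDefs
import Pool.Agent.Helper90.FC.Sect

/-!
# Project FA, the bilinear forms `b_i` for a noncentral `F`

As `Pool/Agent/Helper90/FC/Form.lean`, but `F` need not be central in `B`: `B` acts on
`P = k[X_1, ..., X_n]` (`LAct`).

* `tw h φ b = ∑ (b₁ ▷ h) • φ b₂` for linear `φ : B → P ⊗ C`.
* `Ph z b` (`b ∈ B`, `z ∈ P ⊗ C`): `Ph (g ⊗ c') = tw g (b ↦ sg (b * s c'))`; `q (Ph z b) = b q z`.
* `forM (f ⊗ c) z = f • Ph z (s c)`.
* `b_i (u, v) = L_i (forM (sg u) (sg v))`.
-/

set_option linter.unusedSectionVars false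
set_option autoImplicit false

open CategoryTheory CategoryTheory.Abelian CategoryTheory.Limits
open scoped ModuleCat TensorProduct
open Pool.Agent.Helper59.FG Pool.Agent.Helper90.FC Pool.Agent.Helper49.FA

namespace Pool.Agent.Helper49.FA.FP

universe u

section

variable {k : Type u} [Field k]

section maps

variable {F B C P : Type u} [CommRing F] [Ring B] [Ring C] [HopfAlgebra k F]
variable [HopfAlgebra k B] [HopfAlgebra k C] [CommRing P] [Algebra k P] {n : ℕ} [PAug k P n]
variable {ι : F →ₐc[k] B} {π : B →ₐc[k] C} (σ : Sect ι π)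
  (c : Thick k F P) (A : PAct ι c)

/-- `F ⊗ C ≃ B`. -/
private noncomputable def forEqv : (F ⊗[k] C) ≃ₗ[k] B :=
  LinearEquiv.ofBijective (fsMap ι σ.s) σ.bij

/-- the lift of an element of `B`. -/
private noncomputable def forSg : B →ₗ[k] P ⊗[k] C :=
  LinearMap.rTensor C c.red ∘ₗ (forEqv σ).symm.toLinearMap

/-- The projection `P ⊗ C → B`. -/
private noncomputable def forQ : P ⊗[k] C →ₗ[k] B :=
  fsMap ι σ.s ∘ₗ LinearMap.rTensor C c.ev.toLinearMap

private theorem fsMap_tmul (f : F) (a : C) : fsMap ι σ.s (f ⊗ₜ[k] a) = ι f * σ.s a := rfl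

private theorem forQ_tmul (f : P) (a : C) :
    forQ σ c (f ⊗ₜ a) = ι (c.ev f) * σ.s a := rfl

private theorem forQ_smul (f : P) (z : P ⊗[k] C) :
    forQ σ c (f • z) = ι (c.ev f) * forQ σ c z := by
  induction z using TensorProduct.induction_on with
  | zero => rw [smul_zero, map_zero, mul_zero]
  | tmul g a =>
    rw [TensorProduct.smul_tmul', forQ_tmul, forQ_tmul, smul_eq_mul, map_mul, map_mul, mul_assoc]
  | add x y hx hy => rw [smul_add, map_add, hx, hy, map_add, mul_add]

private theorem forQ_sg (u : B) : forQ σ c (forSg σ c u) = u := by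
  have h : ∀ z : F ⊗[k] C, LinearMap.rTensor C c.ev.toLinearMap (LinearMap.rTensor C c.red z) =
      z := by
    intro z
    rw [← LinearMap.comp_apply, ← LinearMap.rTensor_comp]
    have h1 : c.ev.toLinearMap ∘ₗ c.red = LinearMap.id := by
      ext a
      exact c.ev_red a
    rw [h1, LinearMap.rTensor_id, LinearMap.id_apply]
  change fsMap ι σ.s (LinearMap.rTensor C c.ev.toLinearMap
    (LinearMap.rTensor C c.red ((forEqv σ).symm u))) = u
  rw [h]
  exact (forEqv σ).apply_symm_apply u

/-- The functional `L_i`. -/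
private noncomputable def forL (i : Fin n) : P ⊗[k] C →ₗ[k] k :=
  TensorProduct.lift ((LinearMap.mul k k).compl₁₂ (PAug.lam (k := k) i) Coalgebra.counit)

private theorem forL_tmul (i : Fin n) (f : P) (a : C) :
    forL i (f ⊗ₜ[k] a) = PAug.lam (k := k) i f * Coalgebra.counit (R := k) a := rfl

/-- The constant coefficient, as a linear map. -/
private noncomputable def forCC : P →ₗ[k] k :=
  (PAug.cst (k := k) : P →ₐ[k] k).toLinearMap

private theorem forCC_apply (f : P) :
    forCC f = PAug.cst (k := k) f := rfl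

/-- The map `e0`. -/
private noncomputable def forE : P ⊗[k] C →ₗ[k] C :=
  TensorProduct.lift (LinearMap.lsmul k C ∘ₗ forCC)

private theorem forE_tmul (f : P) (a : C) :
    forE (f ⊗ₜ[k] a) = PAug.cst (k := k) f • a := by
  rw [← forCC_apply]
  rfl

private theorem forE_smul (f : P) (z : P ⊗[k] C) :
    forE (f • z) = PAug.cst (k := k) f • forE z := by
  induction z using TensorProduct.induction_on with
  | zero => rw [smul_zero, map_zero, smul_zero]
  | tmul g a =>
    rw [TensorProduct.smul_tmul', forE_tmul, forE_tmul, smul_eq_mul, map_mul, mul_smul]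
  | add x y hx hy => rw [smul_add, map_add, hx, hy, map_add, smul_add]

private theorem forL_sg (i : Fin n) (u : B) : forL i (forSg σ c u) = 0 := by
  have h : ∀ z : F ⊗[k] C, forL (C := C) i (LinearMap.rTensor C c.red z) = 0 := by
    intro z
    induction z using TensorProduct.induction_on with
    | zero => rw [map_zero, map_zero]
    | tmul g a =>
      rw [LinearMap.rTensor_tmul, forL_tmul, c.lam_red, zero_mul]
    | add x y hx hy => rw [map_add, map_add, hx, hy, add_zero]
  exact h _

private theorem forE_sg (hker : ∀ a : F, π (ι a) =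
    algebraMap k C (Coalgebra.counit (R := k) a)) (u : B) : forE (forSg σ c u) = π u := by
  have h : ∀ z : F ⊗[k] C, forE (LinearMap.rTensor C c.red z) = π (fsMap ι σ.s z) := by
    intro z
    induction z using TensorProduct.induction_on with
    | zero => rw [map_zero, map_zero, map_zero, map_zero]
    | tmul g a =>
      rw [LinearMap.rTensor_tmul, forE_tmul, c.const_red, fsMap_tmul, map_mul, hker, σ.sec,
        Algebra.smul_def]
    | add x y hx hy => rw [map_add, map_add, hx, hy, map_add, map_add]
  have h1 := h ((forEqv σ).symm u)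
  have h2 : fsMap ι σ.s ((forEqv σ).symm u) = u := (forEqv σ).apply_symm_apply u
  rw [h2] at h1
  exact h1

/-- The kernel of `q` is generated by the `f ⊗ a` with `ev f = 0`. -/
private theorem forQ_ker {motive : P ⊗[k] C → Prop}
    (h0 : motive 0) (hadd : ∀ x y, motive x → motive y → motive (x + y))
    (ht : ∀ (f : P) (a : C), c.ev f = 0 → motive (f ⊗ₜ a))
    (z : P ⊗[k] C) (hz : forQ σ c z = 0) : motive z := by
  have h1 : LinearMap.rTensor C c.ev.toLinearMap z = 0 := by
    apply σ.bij.1
    rw [map_zero]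
    exact hz
  have h2 : Function.Exact (LinearMap.rTensor C (LinearMap.ker c.ev.toLinearMap).subtype)
      (LinearMap.rTensor C c.ev.toLinearMap) := by
    apply rTensor_exact
    · exact LinearMap.exact_subtype_ker_map _
    · intro a
      exact ⟨c.red a, c.ev_red a⟩
  obtain ⟨w, hw⟩ := (h2 z).1 h1
  rw [← hw]
  clear hw h1 hz
  induction w using TensorProduct.induction_on with
  | zero => rw [map_zero]; exact h0
  | tmul f a => exact ht f.1 a f.2
  | add x y hx hy => rw [map_add]; exact hadd _ _ hx hy

private theorem forL_smul_ev (i : Fin n) (f : P)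
    (hf : c.ev f = 0) (w : P ⊗[k] C) :
    forL i (f • w) = PAug.lam (k := k) i f * Coalgebra.counit (R := k) (forE w) := by
  induction w using TensorProduct.induction_on with
  | zero => rw [smul_zero, map_zero, map_zero, map_zero, mul_zero]
  | tmul g a =>
    rw [TensorProduct.smul_tmul', forL_tmul, forE_tmul, smul_eq_mul, mul_comm f g,
      c.lam_mul i g f hf, map_smul, smul_eq_mul]
    ring
  | add x y hx hy => rw [smul_add, map_add, hx, hy, map_add, map_add, mul_add]

private theorem forL_smul (i : Fin n) (f : P)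
    (z : P ⊗[k] C) (hz : forQ σ c z = 0) :
    forL i (f • z) = PAug.cst (k := k) f * forL i z := by
  refine forQ_ker σ c (motive := fun z => forL i (f • z) =
    PAug.cst (k := k) f * forL i z) ?_ ?_ ?_ z hz
  · rw [smul_zero, map_zero, mul_zero]
  · intro x y hx hy
    rw [smul_add, map_add, hx, hy, map_add, mul_add]
  · intro g a hg
    rw [TensorProduct.smul_tmul', forL_tmul, forL_tmul, smul_eq_mul, c.lam_mul i f g hg]
    ring

/-! ### The twisted product -/

/-- The product of polynomials with elements of `P ⊗ C`, bilinear over `k`. -/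
private noncomputable def sm : P →ₗ[k]
    P ⊗[k] C →ₗ[k] P ⊗[k] C :=
  (Algebra.lsmul k k (P ⊗[k] C)).toLinearMap

private theorem sm_apply (f : P) (z : P ⊗[k] C) :
    sm f z = f • z := rfl

/-- The twisted product `∑ (b₁ ▷ h) • φ b₂`. -/
private noncomputable def tw (h : P)
    (φ : B →ₗ[k] P ⊗[k] C) : B →ₗ[k] P ⊗[k] C :=
  TensorProduct.lift (sm.compl₁₂ (A.act.flip h) φ) ∘ₗ Coalgebra.comul

private theorem tw_repr (h : P)
    (φ : B →ₗ[k] P ⊗[k] C) {b : B} {I : Type*}
    (R : Coalgebra.Repr k b I) :
    tw c A h φ b = ∑ i ∈ R.index, A.act (R.left i) h • φ (R.right i) := by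
  rw [tw, LinearMap.comp_apply, ← R.eq, map_sum]
  rfl

private theorem tw_add_left (h h' : P)
    (φ : B →ₗ[k] P ⊗[k] C) (b : B) :
    tw c A (h + h') φ b = tw c A h φ b + tw c A h' φ b := by
  let R := Coalgebra.Repr.arbitrary k b
  simp only [tw_repr c A _ _ R, map_add, add_smul, Finset.sum_add_distrib]

private theorem tw_smul_left (r : k) (h : P)
    (φ : B →ₗ[k] P ⊗[k] C) (b : B) :
    tw c A (r • h) φ b = r • tw c A h φ b := by
  let R := Coalgebra.Repr.arbitrary k b
  simp only [tw_repr c A _ _ R, map_smul, smul_assoc, Finset.smul_sum]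

private theorem tw_add_right (h : P)
    (φ φ' : B →ₗ[k] P ⊗[k] C) (b : B) :
    tw c A h (φ + φ') b = tw c A h φ b + tw c A h φ' b := by
  let R := Coalgebra.Repr.arbitrary k b
  simp only [tw_repr c A _ _ R, LinearMap.add_apply, smul_add, Finset.sum_add_distrib]

private theorem tw_smul_right (r : k) (h : P)
    (φ : B →ₗ[k] P ⊗[k] C) (b : B) :
    tw c A h (r • φ) b = r • tw c A h φ b := by
  let R := Coalgebra.Repr.arbitrary k b
  simp only [tw_repr c A _ _ R, LinearMap.smul_apply, Finset.smul_sum]
  refine Finset.sum_congr rfl fun i _ => ?_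
  rw [smul_comm]

private theorem sum_counit_smul {b : B} {I : Type*} (R : Coalgebra.Repr k b I)
    (φ : B →ₗ[k] P ⊗[k] C) :
    ∑ i ∈ R.index, Coalgebra.counit (R := k) (R.left i) • φ (R.right i) = φ b := by
  rw [← congrArg φ (Coalgebra.sum_counit_smul R), map_sum]
  refine Finset.sum_congr rfl fun i _ => ?_
  rw [map_smul]

private theorem tw_one (φ : B →ₗ[k] P ⊗[k] C) (b : B) :
    tw c A 1 φ b = φ b := by
  let R := Coalgebra.Repr.arbitrary k b
  rw [tw_repr c A _ _ R, ← sum_counit_smul R φ]
  refine Finset.sum_congr rfl fun i _ => ?_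
  rw [A.act_one, smul_assoc, one_smul]

private theorem tw_mul (h h' : P)
    (φ : B →ₗ[k] P ⊗[k] C) (b : B) :
    tw c A (h * h') φ b = tw c A h (tw c A h' φ) b := by
  let T : B ⊗[k] (B ⊗[k] B) →ₗ[k] P ⊗[k] C :=
    TensorProduct.lift (sm.compl₁₂ (A.act.flip h)
      (TensorProduct.lift (sm.compl₁₂ (A.act.flip h') φ)))
  have hT : ∀ x y z : B, T (x ⊗ₜ (y ⊗ₜ z)) = A.act x h • A.act y h' • φ z := fun _ _ _ => rfl
  have h1 : ∀ w : B ⊗[k] B, T (TensorProduct.assoc k B B B
      ((Coalgebra.comul (R := k) (A := B)).rTensor B w)) =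
      TensorProduct.lift (sm.compl₁₂ (A.act.flip (h * h')) φ) w := by
    intro w
    induction w using TensorProduct.induction_on with
    | zero => simp only [map_zero]
    | add x y hx hy => simp only [map_add, hx, hy]
    | tmul x y =>
      rw [LinearMap.rTensor_tmul]
      change _ = A.act x (h * h') • φ y
      rw [A.act_mul]
      generalize (Coalgebra.comul (R := k) x : B ⊗[k] B) = v
      induction v using TensorProduct.induction_on with
      | zero => simp only [map_zero, TensorProduct.zero_tmul, zero_smul]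
      | add x y hx hy => simp only [map_add, TensorProduct.add_tmul, hx, hy, add_smul]
      | tmul x' y' =>
        rw [TensorProduct.assoc_tmul, hT, ← mul_smul]
        rfl
  have h2 : ∀ w : B ⊗[k] B, T ((Coalgebra.comul (R := k) (A := B)).lTensor B w) =
      TensorProduct.lift (sm.compl₁₂ (A.act.flip h) (tw c A h' φ)) w := by
    intro w
    induction w using TensorProduct.induction_on with
    | zero => simp only [map_zero]
    | add x y hx hy => simp only [map_add, hx, hy]
    | tmul x y => rfl
  change TensorProduct.lift (sm.compl₁₂ (A.act.flip (h * h')) φ) (Coalgebra.comul b) =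
    TensorProduct.lift (sm.compl₁₂ (A.act.flip h) (tw c A h' φ)) (Coalgebra.comul b)
  rw [← h1, ← h2, Coalgebra.coassoc_apply]

private theorem tw_q (h : P) (φ : B →ₗ[k] P ⊗[k] C)
    (y : B) (hq : ∀ b, forQ σ c (φ b) = b * y) (b : B) :
    forQ σ c (tw c A h φ b) = b * (ι (c.ev h) * y) := by
  rw [← mul_assoc, A.comm]
  let R := Coalgebra.Repr.arbitrary k b
  rw [tw_repr c A _ _ R, ← R.eq, map_sum, map_sum, Finset.sum_mul]
  refine Finset.sum_congr rfl fun i _ => ?_
  rw [forQ_smul, hq]
  change _ = ι (c.ev (A.act (R.left i) h)) * (R.right i) * y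
  rw [mul_assoc]

private theorem tw_ker (h : P)
    (φ : B →ₗ[k] P ⊗[k] C) (hq : ∀ b, forQ σ c (φ b) = 0) (b : B) :
    forQ σ c (tw c A h φ b) = 0 := by
  let R := Coalgebra.Repr.arbitrary k b
  rw [tw_repr c A _ _ R, map_sum]
  refine Finset.sum_eq_zero fun i _ => ?_
  rw [forQ_smul, hq, mul_zero]

private theorem L_tw (i : Fin n) (h : P)
    (φ : B →ₗ[k] P ⊗[k] C) (hq : ∀ b, forQ σ c (φ b) = 0) (b : B) :
    forL i (tw c A h φ b) = PAug.cst (k := k) h * forL i (φ b) := by
  let R := Coalgebra.Repr.arbitrary k b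
  rw [tw_repr c A _ _ R, map_sum, ← sum_counit_smul R φ, map_sum, Finset.mul_sum]
  refine Finset.sum_congr rfl fun j _ => ?_
  rw [forL_smul σ c i _ _ (hq _), A.cst, map_smul, smul_eq_mul]
  ring

private theorem E_tw (h : P)
    (φ : B →ₗ[k] P ⊗[k] C) (y : C) (hE : ∀ b, forE (φ b) = π b * y)
    (b : B) : forE (tw c A h φ b) = PAug.cst (k := k) h • (π b * y) := by
  let R := Coalgebra.Repr.arbitrary k b
  rw [tw_repr c A _ _ R, map_sum, ← hE, ← sum_counit_smul R φ, map_sum, Finset.smul_sum]
  refine Finset.sum_congr rfl fun j _ => ?_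
  rw [forE_smul, A.cst, map_smul, smul_smul, mul_comm]

/-! ### The lifted product -/

/-- `b ↦ sg (b * s a)`. -/
private noncomputable def psi (a : C) : B →ₗ[k] P ⊗[k] C :=
  forSg σ c ∘ₗ LinearMap.mulRight k (σ.s a)

private theorem psi_apply (a : C) (b : B) : psi σ c a b = forSg σ c (b * σ.s a) := rfl

/-- `Ph (g ⊗ a) b = ∑ (b₁ ▷ g) • sg (b₂ * s a)`. -/
private noncomputable def Ph : P ⊗[k] C →ₗ[k]
    (B →ₗ[k] P ⊗[k] C) :=
  TensorProduct.lift (LinearMap.mk₂ k (fun g a => tw c A g (psi σ c a))
    (fun g g' a => LinearMap.ext fun b => tw_add_left c A g g' _ b)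
    (fun r g a => LinearMap.ext fun b => tw_smul_left c A r g _ b)
    (fun g a a' => LinearMap.ext fun b => by
      have h : psi σ c (a + a') = psi σ c a + psi σ c a' := by
        ext b
        rw [LinearMap.add_apply, psi_apply, psi_apply, psi_apply, map_add, mul_add, map_add]
      rw [h]
      exact tw_add_right c A g _ _ b)
    (fun r g a => LinearMap.ext fun b => by
      have h : psi σ c (r • a) = r • psi σ c a := by
        ext b
        rw [LinearMap.smul_apply, psi_apply, psi_apply, map_smul, mul_smul_comm, map_smul]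
      rw [h]
      exact tw_smul_right c A r g _ b))

private theorem Ph_tmul (g : P) (a : C) :
    Ph σ c A (g ⊗ₜ a) = tw c A g (psi σ c a) := rfl

private theorem Ph_smul (g : P) (z : P ⊗[k] C) :
    Ph σ c A (g • z) = tw c A g (Ph σ c A z) := by
  induction z using TensorProduct.induction_on with
  | zero =>
    rw [smul_zero, map_zero]
    ext b
    have h := tw_smul_right c A 0 g (0 : B →ₗ[k] P ⊗[k] C) b
    rw [zero_smul, zero_smul] at h
    rw [h]
    rfl
  | tmul g' a =>
    rw [TensorProduct.smul_tmul', Ph_tmul, smul_eq_mul, Ph_tmul]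
    ext b
    exact tw_mul c A g g' _ b
  | add x y hx hy =>
    rw [smul_add, map_add, hx, hy, map_add]
    ext b
    exact (tw_add_right c A g _ _ b).symm

private theorem Ph_q (z : P ⊗[k] C) (b : B) :
    forQ σ c (Ph σ c A z b) = b * forQ σ c z := by
  induction z using TensorProduct.induction_on with
  | zero => rw [map_zero, LinearMap.zero_apply, map_zero, mul_zero]
  | add x y hx hy => rw [map_add, LinearMap.add_apply, map_add, hx, hy, map_add, mul_add]
  | tmul g a =>
    rw [Ph_tmul, forQ_tmul]
    exact tw_q σ c A g _ _ (fun b => by rw [psi_apply, forQ_sg]) b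

private theorem Ph_E (hker : ∀ a : F, π (ι a) =
    algebraMap k C (Coalgebra.counit (R := k) a)) (z : P ⊗[k] C) (b : B) :
    forE (Ph σ c A z b) = π b * forE z := by
  induction z using TensorProduct.induction_on with
  | zero => rw [map_zero, LinearMap.zero_apply, map_zero, mul_zero]
  | add x y hx hy => rw [map_add, LinearMap.add_apply, map_add, hx, hy, map_add, mul_add]
  | tmul g a =>
    rw [Ph_tmul, forE_tmul, mul_smul_comm]
    exact E_tw c A g _ _ (fun b => by rw [psi_apply, forE_sg σ c hker, map_mul, σ.sec]) b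

/-- The lifted product. -/
private noncomputable def forM (x z : P ⊗[k] C) :
    P ⊗[k] C :=
  TensorProduct.lift (sm.compl₁₂ LinearMap.id (Ph σ c A z ∘ₗ σ.s)) x

private theorem forM_tmul (f : P) (a : C)
    (z : P ⊗[k] C) :
    forM σ c A (f ⊗ₜ a) z = f • Ph σ c A z (σ.s a) := rfl

private theorem forM_zero_left (z : P ⊗[k] C) : forM σ c A 0 z = 0 :=
  map_zero _

private theorem forM_add_left (x x' z : P ⊗[k] C) :
    forM σ c A (x + x') z = forM σ c A x z + forM σ c A x' z := map_add _ x x'

private theorem forM_ksmul_left (r : k) (x z : P ⊗[k] C) :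
    forM σ c A (r • x) z = r • forM σ c A x z := map_smul _ r x

private theorem forM_sub_left (x x' z : P ⊗[k] C) :
    forM σ c A (x - x') z = forM σ c A x z - forM σ c A x' z := map_sub _ x x'

private theorem forM_sum_left {I : Type*} (s : Finset I) (x : I → P ⊗[k] C)
    (z : P ⊗[k] C) :
    forM σ c A (∑ i ∈ s, x i) z = ∑ i ∈ s, forM σ c A (x i) z := map_sum _ x s

private theorem forM_add_right (x z z' : P ⊗[k] C) :
    forM σ c A x (z + z') = forM σ c A x z + forM σ c A x z' := by
  induction x using TensorProduct.induction_on with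
  | zero => rw [forM_zero_left, forM_zero_left, forM_zero_left, add_zero]
  | add x y hx hy => rw [forM_add_left, forM_add_left, forM_add_left, hx, hy]; abel
  | tmul f a => rw [forM_tmul, forM_tmul, forM_tmul, map_add, LinearMap.add_apply, smul_add]

private theorem forM_ksmul_right (r : k) (x z : P ⊗[k] C) :
    forM σ c A x (r • z) = r • forM σ c A x z := by
  induction x using TensorProduct.induction_on with
  | zero => rw [forM_zero_left, forM_zero_left, smul_zero]
  | add x y hx hy => rw [forM_add_left, forM_add_left, hx, hy, smul_add]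
  | tmul f a => rw [forM_tmul, forM_tmul, map_smul, LinearMap.smul_apply, smul_comm]

private theorem forM_sub_right (x z z' : P ⊗[k] C) :
    forM σ c A x (z - z') = forM σ c A x z - forM σ c A x z' := by
  have h : forM σ c A x (z - z' + z') = forM σ c A x z := by rw [sub_add_cancel]
  rw [forM_add_right] at h
  exact eq_sub_of_add_eq h

private theorem forM_zero_right (x : P ⊗[k] C) : forM σ c A x 0 = 0 := by
  have h := forM_ksmul_right σ c A 0 x 0
  rwa [zero_smul, zero_smul] at h

private theorem forM_smul_left (g : P)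
    (x z : P ⊗[k] C) : forM σ c A (g • x) z = g • forM σ c A x z := by
  induction x using TensorProduct.induction_on with
  | zero => rw [smul_zero, forM_zero_left, smul_zero]
  | add x y hx hy => rw [smul_add, forM_add_left, forM_add_left, hx, hy, smul_add]
  | tmul f a => rw [TensorProduct.smul_tmul', forM_tmul, forM_tmul, smul_eq_mul, mul_smul]

private theorem forQ_M (x z : P ⊗[k] C) :
    forQ σ c (forM σ c A x z) = forQ σ c x * forQ σ c z := by
  induction x using TensorProduct.induction_on with
  | zero => rw [forM_zero_left, map_zero, zero_mul]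
  | add x y hx hy => rw [forM_add_left, map_add, hx, hy, map_add, add_mul]
  | tmul f a => rw [forM_tmul, forQ_smul, Ph_q, forQ_tmul, mul_assoc]

private theorem forE_M (hker : ∀ a : F, π (ι a) =
    algebraMap k C (Coalgebra.counit (R := k) a)) (x z : P ⊗[k] C) :
    forE (forM σ c A x z) = forE x * forE z := by
  induction x using TensorProduct.induction_on with
  | zero => rw [forM_zero_left, map_zero, zero_mul]
  | add x y hx hy => rw [forM_add_left, map_add, hx, hy, map_add, add_mul]
  | tmul f a => rw [forM_tmul, forE_smul, Ph_E σ c A hker, forE_tmul, σ.sec, smul_mul_assoc]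

private theorem forL_M_left (hker : ∀ a : F, π (ι a) =
    algebraMap k C (Coalgebra.counit (R := k) a)) (i : Fin n)
    (z u : P ⊗[k] C) (hz : forQ σ c z = 0) :
    forL i (forM σ c A z u) = forL i z * Coalgebra.counit (R := k) (forE u) := by
  refine forQ_ker σ c (motive := fun z => forL i (forM σ c A z u) =
    forL i z * Coalgebra.counit (R := k) (forE u)) ?_ ?_ ?_ z hz
  · rw [forM_zero_left, map_zero, zero_mul]
  · intro x y hx hy
    rw [forM_add_left, map_add, hx, hy, map_add, add_mul]
  · intro g a hg
    rw [forM_tmul, forL_smul_ev c i g hg, Ph_E σ c A hker, σ.sec, forL_tmul,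
      Bialgebra.counit_mul, mul_assoc]

private theorem forL_M_right (hker : ∀ a : F, π (ι a) =
    algebraMap k C (Coalgebra.counit (R := k) a)) (i : Fin n)
    (u z : P ⊗[k] C) (hz : forQ σ c z = 0) :
    forL i (forM σ c A u z) = Coalgebra.counit (R := k) (forE u) * forL i z := by
  refine forQ_ker σ c (motive := fun z => forL i (forM σ c A u z) =
    Coalgebra.counit (R := k) (forE u) * forL i z) ?_ ?_ ?_ z hz
  · rw [forM_zero_right, map_zero, mul_zero]
  · intro x y hx hy
    rw [forM_add_right, map_add, hx, hy, map_add, mul_add]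
  · intro g a hg
    have hφ : ∀ b : B, forL i (Ph σ c A (g ⊗ₜ a) b) =
        Coalgebra.counit (R := k) b * forL i (g ⊗ₜ[k] a) := by
      intro b
      let R := Coalgebra.Repr.arbitrary k b
      rw [Ph_tmul, tw_repr c A _ _ R, map_sum]
      have h1 : ∀ j ∈ R.index, forL i (A.act (R.left j) g • psi σ c a (R.right j)) =
          (PAug.lam (k := k) i g * Coalgebra.counit (R := k) a) *
            (Coalgebra.counit (R := k) (R.left j) * Coalgebra.counit (R := k) (R.right j)) := by
        intro j _
        rw [forL_smul_ev c i _ (A.ker _ g hg), A.lam _ i g hg, psi_apply, forE_sg σ c hker,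
          map_mul, σ.sec, Bialgebra.counit_mul]
        have h2 : Coalgebra.counit (R := k) (π (R.right j)) =
          Coalgebra.counit (R := k) (R.right j) := CoalgHomClass.counit_comp_apply π _
        rw [h2]
        ring
      rw [Finset.sum_congr rfl h1, ← Finset.mul_sum, forL_tmul]
      have h3 : ∑ j ∈ R.index, Coalgebra.counit (R := k) (R.left j) *
          Coalgebra.counit (R := k) (R.right j) = Coalgebra.counit (R := k) b := by
        rw [← congrArg (Coalgebra.counit (R := k)) (Coalgebra.sum_counit_smul R), map_sum]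
        refine Finset.sum_congr rfl fun j _ => ?_
        rw [map_smul, smul_eq_mul]
      rw [h3]
      ring
    have hk : ∀ b : B, forQ σ c (Ph σ c A (g ⊗ₜ a) b) = 0 := by
      intro b
      rw [Ph_q, forQ_tmul, hg, map_zero, zero_mul, mul_zero]
    induction u using TensorProduct.induction_on with
    | zero => rw [forM_zero_left, map_zero, map_zero, map_zero, zero_mul]
    | add x y hx hy => rw [forM_add_left, map_add, hx, hy, map_add, map_add, add_mul]
    | tmul f d =>
      rw [forM_tmul, forL_smul σ c i f _ (hk _), hφ, forE_tmul, map_smul, smul_eq_mul]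
      have h2 : Coalgebra.counit (R := k) (σ.s d) = Coalgebra.counit (R := k) d := by
        have h3 := CoalgHomClass.counit_comp_apply π (σ.s d)
        rw [σ.sec] at h3
        exact h3.symm
      rw [h2, mul_assoc]

/-- The associator followed by `L_i`. -/
private noncomputable def forT (i : Fin n) (x y z : P ⊗[k] C) : k :=
  forL i (forM σ c A x (forM σ c A y z) - forM σ c A (forM σ c A x y) z)

private theorem forQ_assoc (x y z : P ⊗[k] C) :
    forQ σ c (forM σ c A x (forM σ c A y z) - forM σ c A (forM σ c A x y) z) = 0 := by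
  rw [map_sub, forQ_M, forQ_M, forQ_M, forQ_M, mul_assoc, sub_self]

private theorem forT_add₁ (i : Fin n) (x x' y z : P ⊗[k] C) :
    forT σ c A i (x + x') y z = forT σ c A i x y z + forT σ c A i x' y z := by
  rw [forT, forT, forT, ← map_add]
  congr 1
  simp only [forM_add_left]
  abel

private theorem forT_add₂ (i : Fin n) (x y y' z : P ⊗[k] C) :
    forT σ c A i x (y + y') z = forT σ c A i x y z + forT σ c A i x y' z := by
  rw [forT, forT, forT, ← map_add]
  congr 1
  simp only [forM_add_left, forM_add_right]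
  abel

private theorem forT_add₃ (i : Fin n) (x y z z' : P ⊗[k] C) :
    forT σ c A i x y (z + z') = forT σ c A i x y z + forT σ c A i x y z' := by
  rw [forT, forT, forT, ← map_add]
  congr 1
  simp only [forM_add_right]
  abel

private theorem forT_ksmul₁ (i : Fin n) (r : k) (x y z : P ⊗[k] C) :
    forT σ c A i (r • x) y z = r * forT σ c A i x y z := by
  rw [forT, forT, ← smul_eq_mul, ← map_smul]
  congr 1
  simp only [forM_ksmul_left, smul_sub]

private theorem forT_ksmul₂ (i : Fin n) (r : k) (x y z : P ⊗[k] C) :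
    forT σ c A i x (r • y) z = r * forT σ c A i x y z := by
  rw [forT, forT, ← smul_eq_mul, ← map_smul]
  congr 1
  simp only [forM_ksmul_left, forM_ksmul_right, smul_sub]

private theorem forT_ksmul₃ (i : Fin n) (r : k) (x y z : P ⊗[k] C) :
    forT σ c A i x y (r • z) = r * forT σ c A i x y z := by
  rw [forT, forT, ← smul_eq_mul, ← map_smul]
  congr 1
  simp only [forM_ksmul_right, smul_sub]

private theorem forT_zero₁ (i : Fin n) (y z : P ⊗[k] C) :
    forT σ c A i 0 y z = 0 := by
  have h := forT_ksmul₁ σ c A i 0 0 y z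
  rwa [zero_smul, zero_mul] at h

private theorem forT_zero₂ (i : Fin n) (x z : P ⊗[k] C) :
    forT σ c A i x 0 z = 0 := by
  have h := forT_ksmul₂ σ c A i 0 x 0 z
  rwa [zero_smul, zero_mul] at h

private theorem forT_zero₃ (i : Fin n) (x y : P ⊗[k] C) :
    forT σ c A i x y 0 = 0 := by
  have h := forT_ksmul₃ σ c A i 0 x y 0
  rwa [zero_smul, zero_mul] at h

private theorem forT_smul₁ (i : Fin n) (g : P)
    (x y z : P ⊗[k] C) :
    forT σ c A i (g • x) y z = PAug.cst (k := k) g * forT σ c A i x y z := by
  rw [forT, forT, ← forL_smul σ c i g _ (forQ_assoc σ c A _ _ _)]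
  congr 1
  simp only [forM_smul_left, smul_sub]

private theorem forT_smul₂ (i : Fin n) (g : P)
    (x y z : P ⊗[k] C) :
    forT σ c A i x (g • y) z = PAug.cst (k := k) g * forT σ c A i x y z := by
  induction x using TensorProduct.induction_on with
  | zero => rw [forT_zero₁, forT_zero₁, mul_zero]
  | add x x' hx hx' => rw [forT_add₁, forT_add₁, hx, hx', mul_add]
  | tmul f a =>
    let fL : B →ₗ[k] P ⊗[k] C :=
      { toFun := fun b => forM σ c A (Ph σ c A y b) z
        map_add' := fun b b' => by rw [map_add, forM_add_left]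
        map_smul' := fun r b => by rw [map_smul, forM_ksmul_left]; rfl }
    let ψ : B →ₗ[k] P ⊗[k] C := Ph σ c A (forM σ c A y z) - fL
    have hψ : ∀ b, ψ b = Ph σ c A (forM σ c A y z) b - forM σ c A (Ph σ c A y b) z :=
      fun _ => rfl
    have hψq : ∀ b, forQ σ c (ψ b) = 0 := by
      intro b
      rw [hψ, map_sub, Ph_q, forQ_M, forQ_M, Ph_q, mul_assoc, sub_self]
    have h1 : ∀ b, tw c A g ψ b = Ph σ c A (forM σ c A (g • y) z) b -
        forM σ c A (Ph σ c A (g • y) b) z := by
      intro b
      let R := Coalgebra.Repr.arbitrary k b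
      rw [tw_repr c A _ _ R, forM_smul_left, Ph_smul, Ph_smul, tw_repr c A _ _ R,
        tw_repr c A _ _ R, forM_sum_left, ← Finset.sum_sub_distrib]
      refine Finset.sum_congr rfl fun j _ => ?_
      rw [hψ, smul_sub, forM_smul_left]
    have h2 : forT σ c A i (f ⊗ₜ a) (g • y) z =
        PAug.cst (k := k) f * forL i (tw c A g ψ (σ.s a)) := by
      rw [← forL_smul σ c i f _ (tw_ker σ c A g ψ hψq _), h1, forT]
      congr 1
      rw [forM_tmul, forM_tmul, forM_smul_left σ c A f]
      exact (smul_sub _ _ _).symm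
    have h3 : forT σ c A i (f ⊗ₜ a) y z =
        PAug.cst (k := k) f * forL i (ψ (σ.s a)) := by
      rw [← forL_smul σ c i f _ (hψq _), hψ, forT]
      congr 1
      rw [forM_tmul, forM_tmul, forM_smul_left σ c A f]
      exact (smul_sub _ _ _).symm
    rw [h2, h3, L_tw σ c A i g ψ hψq]
    ring

/-- The value at a product. -/
private theorem tw_mul_arg (h : P)
    (φ : B →ₗ[k] P ⊗[k] C) (b : B) {b' : B} {I : Type*}
    (R : Coalgebra.Repr k b' I) :
    tw c A h φ (b * b') = ∑ j ∈ R.index,
      tw c A (A.act (R.left j) h) (φ ∘ₗ LinearMap.mulRight k (R.right j)) b := by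
  let S := Coalgebra.Repr.arbitrary k b
  have h1 : (Coalgebra.comul (R := k) (b * b') : B ⊗[k] B) = ∑ i ∈ S.index, ∑ j ∈ R.index,
      (S.left i * R.left j) ⊗ₜ[k] (S.right i * R.right j) := by
    rw [Bialgebra.comul_mul, ← S.eq, ← R.eq, Finset.sum_mul_sum]
    simp only [Algebra.TensorProduct.tmul_mul_tmul]
  rw [tw, LinearMap.comp_apply, h1]
  simp only [map_sum, tw_repr c A _ _ S]
  rw [Finset.sum_comm]
  refine Finset.sum_congr rfl fun j _ => Finset.sum_congr rfl fun i _ => ?_
  change A.act (S.left i * R.left j) h • φ (S.right i * R.right j) = _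
  rw [A.mul_act]
  rfl

private theorem Ph_tw (z : P ⊗[k] C) (h : P) (b : B)
    {b' : B} {I : Type*} (R : Coalgebra.Repr k b' I) :
    Ph σ c A (tw c A h (Ph σ c A z) b') b = ∑ j ∈ R.index,
      tw c A (A.act (R.left j) h) (Ph σ c A (Ph σ c A z (R.right j))) b := by
  rw [tw_repr c A _ _ R, map_sum, LinearMap.sum_apply]
  refine Finset.sum_congr rfl fun j _ => ?_
  rw [Ph_smul]

private theorem forT_smul₃ (i : Fin n) (h : P)
    (x y z : P ⊗[k] C) :
    forT σ c A i x y (h • z) = PAug.cst (k := k) h * forT σ c A i x y z := by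
  -- first step: products of two values
  have key1 : ∀ b b' : B, forL i (Ph σ c A (tw c A h (Ph σ c A z) b') b) -
      forL i (tw c A h (Ph σ c A z) (b * b')) = PAug.cst (k := k) h *
        (forL i (Ph σ c A (Ph σ c A z b') b) - forL i (Ph σ c A z (b * b'))) := by
    intro b b'
    let R := Coalgebra.Repr.arbitrary k b'
    let ψ : B → (B →ₗ[k] P ⊗[k] C) := fun x =>
      Ph σ c A (Ph σ c A z x) - Ph σ c A z ∘ₗ LinearMap.mulRight k x
    have hψ : ∀ x b, ψ x b = Ph σ c A (Ph σ c A z x) b - Ph σ c A z (b * x) := fun _ _ => rfl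
    have hψq : ∀ x b, forQ σ c (ψ x b) = 0 := by
      intro x b
      rw [hψ, map_sub, Ph_q, Ph_q, Ph_q, mul_assoc, sub_self]
    have hψa : ∀ x x' b, ψ (x + x') b = ψ x b + ψ x' b := by
      intro x x' b
      rw [hψ, hψ, hψ, map_add, map_add, LinearMap.add_apply, mul_add, map_add]
      abel
    have hψs : ∀ (r : k) x b, ψ (r • x) b = r • ψ x b := by
      intro r x b
      rw [hψ, hψ, map_smul, map_smul, LinearMap.smul_apply, mul_smul_comm, map_smul, smul_sub]
    let χ : B →ₗ[k] k :=
      { toFun := fun x => forL i (ψ x b)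
        map_add' := fun x x' => by rw [hψa, map_add]
        map_smul' := fun r x => by rw [hψs, map_smul]; rfl }
    have hχ : ∀ x, χ x = forL i (ψ x b) := fun _ => rfl
    rw [Ph_tw σ c A z h b R, tw_mul_arg c A h _ b R, map_sum, map_sum, ← Finset.sum_sub_distrib,
      ← map_sub (forL i), ← hψ, ← hχ, ← congrArg χ (Coalgebra.sum_counit_smul R), map_sum,
      Finset.mul_sum]
    refine Finset.sum_congr rfl fun j _ => ?_
    rw [map_smul, hχ, smul_eq_mul, ← map_sub]
    have h1 : tw c A (A.act (R.left j) h) (Ph σ c A (Ph σ c A z (R.right j))) b -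
        tw c A (A.act (R.left j) h) (Ph σ c A z ∘ₗ LinearMap.mulRight k (R.right j)) b =
          tw c A (A.act (R.left j) h) (ψ (R.right j)) b := by
      let S := Coalgebra.Repr.arbitrary k b
      simp only [tw_repr c A _ _ S, ← Finset.sum_sub_distrib]
      refine Finset.sum_congr rfl fun i _ => ?_
      rw [hψ]
      exact (smul_sub _ _ _).symm
    rw [h1, L_tw σ c A i _ _ (hψq _), A.cst]
    ring
  -- second step: the first factor
  have key2 : ∀ v : P ⊗[k] C, forL i (forM σ c A v (h • z)) -
      forL i (tw c A h (Ph σ c A z) (forQ σ c v)) = PAug.cst (k := k) h *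
        (forL i (forM σ c A v z) - forL i (Ph σ c A z (forQ σ c v))) := by
    intro v
    induction v using TensorProduct.induction_on with
    | zero => simp only [forM_zero_left, map_zero, sub_zero, mul_zero]
    | add v v' hv hv' =>
      simp only [forM_add_left, map_add]
      linear_combination hv + hv'
    | tmul f a =>
      have h0 : ∀ b, forL i (f • tw c A h (Ph σ c A z) b) -
          forL i (tw c A h (Ph σ c A z) (ι (c.ev f) * b)) =
          PAug.cst (k := k) h * (forL i (f • Ph σ c A z b) -
            forL i (Ph σ c A z (ι (c.ev f) * b))) := by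
        intro b
        let ψ : B →ₗ[k] P ⊗[k] C := (sm f) ∘ₗ Ph σ c A z -
          Ph σ c A z ∘ₗ LinearMap.mulLeft k (ι (c.ev f))
        have hψ : ∀ b, ψ b = f • Ph σ c A z b - Ph σ c A z (ι (c.ev f) * b) := fun _ => rfl
        have hψq : ∀ b, forQ σ c (ψ b) = 0 := by
          intro b
          rw [hψ, map_sub, forQ_smul, Ph_q, Ph_q, mul_assoc, sub_self]
        have h1 : tw c A h ψ b = f • tw c A h (Ph σ c A z) b -
            tw c A h (Ph σ c A z) (ι (c.ev f) * b) := by
          let S := Coalgebra.Repr.arbitrary k b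
          let a : F := c.ev f
          let Ra := Coalgebra.Repr.arbitrary k a
          have h2 : (Coalgebra.comul (R := k) (ι a * b) : B ⊗[k] B) = ∑ j ∈ Ra.index,
              ∑ i ∈ S.index, (ι (Ra.left j) * S.left i) ⊗ₜ[k] (ι (Ra.right j) * S.right i) := by
            have h3 : (Coalgebra.comul (R := k) (ι a) : B ⊗[k] B) = ∑ j ∈ Ra.index,
                ι (Ra.left j) ⊗ₜ[k] ι (Ra.right j) := by
              rw [← CoalgHomClass.map_comp_comul_apply ι a, ← Ra.eq, map_sum]
              rfl
            rw [Bialgebra.comul_mul, h3, ← S.eq, Finset.sum_mul_sum]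
            simp only [Algebra.TensorProduct.tmul_mul_tmul]
          have h4 : tw c A h (Ph σ c A z) (ι a * b) =
              ∑ i ∈ S.index, A.act (S.left i) h • Ph σ c A z (ι a * S.right i) := by
            rw [tw, LinearMap.comp_apply, h2, Finset.sum_comm]
            simp only [map_sum]
            refine Finset.sum_congr rfl fun i _ => ?_
            have h5 : ι a * S.right i = ∑ j ∈ Ra.index,
                Coalgebra.counit (R := k) (Ra.left j) • (ι (Ra.right j) * S.right i) := by
              conv_lhs => rw [← Coalgebra.sum_counit_smul Ra, map_sum, Finset.sum_mul]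
              refine Finset.sum_congr rfl fun j _ => ?_
              rw [map_smul, smul_mul_assoc]
            rw [h5, map_sum, Finset.smul_sum]
            refine Finset.sum_congr rfl fun j _ => ?_
            change A.act (ι (Ra.left j) * S.left i) h • Ph σ c A z (ι (Ra.right j) * S.right i) = _
            rw [A.mul_act, A.triv, map_smul, smul_assoc, smul_comm]
          rw [h4, tw_repr c A _ _ S, tw_repr c A _ _ S, Finset.smul_sum,
            ← Finset.sum_sub_distrib]
          refine Finset.sum_congr rfl fun i _ => ?_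
          rw [hψ, smul_sub, smul_comm f]
        rw [← map_sub, ← map_sub, ← h1, ← hψ, L_tw σ c A i h ψ hψq]
      rw [forM_tmul, forM_tmul, Ph_smul, forQ_tmul]
      exact h0 (σ.s a)
  -- third step: all together
  have key3 : ∀ a a' : C, forT σ c A i (1 ⊗ₜ a) (1 ⊗ₜ a') (h • z) =
      PAug.cst (k := k) h * forT σ c A i (1 ⊗ₜ a) (1 ⊗ₜ a') z := by
    intro a a'
    have h1 := key1 (σ.s a) (σ.s a')
    have h2 := key2 (forM σ c A (1 ⊗ₜ a) (1 ⊗ₜ a'))
    have h3 : ∀ d : C, forQ σ c (1 ⊗ₜ d) = σ.s d := by
      intro d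
      rw [forQ_tmul, map_one, map_one, one_mul]
    rw [forQ_M, h3, h3] at h2
    have h4 : ∀ z : P ⊗[k] C, forM σ c A (1 ⊗ₜ a) (forM σ c A (1 ⊗ₜ a') z) =
        Ph σ c A (Ph σ c A z (σ.s a')) (σ.s a) := by
      intro z
      rw [forM_tmul, forM_tmul, one_smul, one_smul]
    rw [forT, forT, map_sub, map_sub, h4, h4, Ph_smul]
    linear_combination h1 - h2
  induction x using TensorProduct.induction_on with
  | zero => rw [forT_zero₁, forT_zero₁, mul_zero]
  | add x x' hx hx' => rw [forT_add₁, forT_add₁, hx, hx', mul_add]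
  | tmul f a =>
    have h1 : (f ⊗ₜ[k] a) = f • ((1 : P) ⊗ₜ[k] a) := by
      rw [TensorProduct.smul_tmul', smul_eq_mul, mul_one]
    rw [h1, forT_smul₁, forT_smul₁]
    induction y using TensorProduct.induction_on with
    | zero => rw [forT_zero₂, forT_zero₂]; ring
    | add y y' hy hy' => rw [forT_add₂, forT_add₂, mul_add, hy, hy']; ring
    | tmul g a' =>
      have h2 : (g ⊗ₜ[k] a') = g • ((1 : P) ⊗ₜ[k] a') := by
        rw [TensorProduct.smul_tmul', smul_eq_mul, mul_one]
      rw [h2, forT_smul₂, forT_smul₂, key3]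
      ring

private theorem one_tmul_E (f : P) (a : C) :
    ((1 : P) ⊗ₜ[k] (forE (f ⊗ₜ[k] a) : C)) =
      PAug.cst (k := k) f • ((1 : P) ⊗ₜ[k] a) := by
  rw [forE_tmul, TensorProduct.tmul_smul]

private theorem forT_red₁ (i : Fin n) (x y z : P ⊗[k] C) :
    forT σ c A i x y z = forT σ c A i (1 ⊗ₜ forE x) y z := by
  induction x using TensorProduct.induction_on with
  | zero => rw [map_zero, TensorProduct.tmul_zero]
  | add x x' hx hx' =>
    rw [map_add, TensorProduct.tmul_add, forT_add₁, forT_add₁, hx, hx']
  | tmul f a =>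
    rw [one_tmul_E, forT_ksmul₁, ← forT_smul₁, TensorProduct.smul_tmul', smul_eq_mul, mul_one]

private theorem forT_red₂ (i : Fin n) (x y z : P ⊗[k] C) :
    forT σ c A i x y z = forT σ c A i x (1 ⊗ₜ forE y) z := by
  induction y using TensorProduct.induction_on with
  | zero => rw [map_zero, TensorProduct.tmul_zero]
  | add y y' hy hy' =>
    rw [map_add, TensorProduct.tmul_add, forT_add₂, forT_add₂, hy, hy']
  | tmul f a =>
    rw [one_tmul_E, forT_ksmul₂, ← forT_smul₂, TensorProduct.smul_tmul', smul_eq_mul, mul_one]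

private theorem forT_red₃ (i : Fin n) (x y z : P ⊗[k] C) :
    forT σ c A i x y z = forT σ c A i x y (1 ⊗ₜ forE z) := by
  induction z using TensorProduct.induction_on with
  | zero => rw [map_zero, TensorProduct.tmul_zero]
  | add z z' hz hz' =>
    rw [map_add, TensorProduct.tmul_add, forT_add₃, forT_add₃, hz, hz']
  | tmul f a =>
    rw [one_tmul_E, forT_ksmul₃, ← forT_smul₃, TensorProduct.smul_tmul', smul_eq_mul, mul_one]

/-- The form `b_i`. -/
private noncomputable def forB (i : Fin n) : B →ₗ[k] B →ₗ[k] k :=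
  LinearMap.mk₂ k (fun u v => forL i (forM σ c A (forSg σ c u) (forSg σ c v)))
    (fun u u' v => by simp only [map_add, forM_add_left])
    (fun r u v => by simp only [map_smul, forM_ksmul_left])
    (fun u v v' => by simp only [map_add, forM_add_right])
    (fun r u v => by simp only [map_smul, forM_ksmul_right])

private theorem forB_apply (i : Fin n) (u v : B) :
    forB σ c A i u v = forL i (forM σ c A (forSg σ c u) (forSg σ c v)) := rfl

/-- The product of the lifts is congruent to the lift of the product. -/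
private theorem forQ_diff (u v : B) :
    forQ σ c (forM σ c A (forSg σ c u) (forSg σ c v) - forSg σ c (u * v)) = 0 := by
  rw [map_sub, forQ_M, forQ_sg, forQ_sg, forQ_sg, sub_self]

private theorem forB_cob
    (hker : ∀ a : F, π (ι a) = algebraMap k C (Coalgebra.counit (R := k) a)) (i : Fin n)
    (u v w : B) :
    Coalgebra.counit (R := k) u * forB σ c A i v w - forB σ c A i (u * v) w +
      forB σ c A i u (v * w) - forB σ c A i u v * Coalgebra.counit (R := k) w =
      forT σ c A i (forSg σ c u) (forSg σ c v) (forSg σ c w) := by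
  have hε : ∀ b : B, Coalgebra.counit (R := k) (forE (forSg σ c b)) =
      Coalgebra.counit (R := k) b := by
    intro b
    rw [forE_sg σ c hker]
    exact CoalgHomClass.counit_comp_apply π b
  have h1 := forL_M_left σ c A hker i _ (forSg σ c w) (forQ_diff σ c A u v)
  have h2 := forL_M_right σ c A hker i (forSg σ c u) _ (forQ_diff σ c A v w)
  rw [forM_sub_left, map_sub, map_sub, forL_sg, sub_zero, hε] at h1
  rw [forM_sub_right, map_sub, map_sub, forL_sg, sub_zero, hε] at h2
  rw [forT, map_sub, forB_apply, forB_apply, forB_apply, forB_apply]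
  linear_combination h1 - h2

end maps

variable {F B C P : Type u} [CommRing F] [Ring B] [Ring C] [HopfAlgebra k F]
variable [HopfAlgebra k B] [HopfAlgebra k C] [CommRing P] [Algebra k P] {n : ℕ} [PAug k P n]

/-- The bilinear form `b_i`. -/
theorem exists_form_P (ι : F →ₐc[k] B) (π : B →ₐc[k] C)
    (hker : ∀ a : F, π (ι a) = algebraMap k C (Coalgebra.counit (R := k) a)) (σ : Sect ι π)
    (c : Thick k F P) (A : PAct ι c) (i : Fin n) :
    ∃ (b : B →ₗ[k] B →ₗ[k] k) (y : C →ₗ[k] C →ₗ[k] C →ₗ[k] k),
      (∀ u v w : B, Coalgebra.counit (R := k) u * b v w - b (u * v) w + b u (v * w) -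
        b u v * Coalgebra.counit (R := k) w = y (π u) (π v) (π w)) ∧
      ∀ f g : F, b (ι f) (ι g) = PAug.lam (k := k) i (c.red f * c.red g) := by
  let j : C →ₗ[k] P ⊗[k] C := TensorProduct.mk k _ _ 1
  let y : C →ₗ[k] C →ₗ[k] C →ₗ[k] k := LinearMap.mk₂ k
    (fun a b =>
      { toFun := fun d => forT σ c A i (j a) (j b) (j d)
        map_add' := fun d d' => by rw [map_add, forT_add₃]
        map_smul' := fun r d => by rw [map_smul, forT_ksmul₃]; rfl })
    (fun a a' b => by
      ext d
      change forT σ c A i (j (a + a')) (j b) (j d) = forT σ c A i (j a) (j b) (j d) +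
        forT σ c A i (j a') (j b) (j d)
      rw [map_add, forT_add₁])
    (fun r a b => by
      ext d
      change forT σ c A i (j (r • a)) (j b) (j d) = r * forT σ c A i (j a) (j b) (j d)
      rw [map_smul, forT_ksmul₁])
    (fun a b b' => by
      ext d
      change forT σ c A i (j a) (j (b + b')) (j d) = forT σ c A i (j a) (j b) (j d) +
        forT σ c A i (j a) (j b') (j d)
      rw [map_add, forT_add₂])
    (fun r a b => by
      ext d
      change forT σ c A i (j a) (j (r • b)) (j d) = r * forT σ c A i (j a) (j b) (j d)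
      rw [map_smul, forT_ksmul₂])
  refine ⟨forB σ c A i, y, fun u v w => ?_, fun f g => ?_⟩
  · rw [forB_cob σ c A hker]
    change _ = forT σ c A i (1 ⊗ₜ (π u)) (1 ⊗ₜ (π v)) (1 ⊗ₜ (π w))
    rw [forT_red₁ σ c A, forT_red₂ σ c A, forT_red₃ σ c A, forE_sg σ c hker,
      forE_sg σ c hker, forE_sg σ c hker]
  · have hsg : ∀ f : F, forSg σ c (ι f) = c.red f ⊗ₜ (1 : C) := by
      intro f
      have h1 : (forEqv σ).symm (ι f) = f ⊗ₜ[k] (1 : C) := by
        rw [LinearEquiv.symm_apply_eq]
        change ι f = ι f * σ.s 1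
        rw [σ.one, mul_one]
      change LinearMap.rTensor C c.red ((forEqv σ).symm (ι f)) = _
      rw [h1, LinearMap.rTensor_tmul]
    have hone : forSg σ c 1 = 1 ⊗ₜ (1 : C) := by
      have h := hsg 1
      rwa [map_one, c.red_one] at h
    have htw : Ph σ c A (c.red g ⊗ₜ (1 : C)) 1 = c.red g ⊗ₜ (1 : C) := by
      rw [Ph_tmul, tw, LinearMap.comp_apply, Bialgebra.comul_one, Algebra.TensorProduct.one_def]
      change A.act 1 (c.red g) • psi σ c 1 1 = _
      rw [A.one_act, psi_apply, one_mul, σ.one, hone, TensorProduct.smul_tmul', smul_eq_mul,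
        mul_one]
    rw [forB_apply, hsg, hsg, forM_tmul, σ.one, htw, TensorProduct.smul_tmul', forL_tmul,
      Bialgebra.counit_one, mul_one, smul_eq_mul]

end

end Pool.Agent.Helper49.FA.FP
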