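import Pool.Agent.Helper49.FA.NDefs

/-!
# Project FA, piece INF: inflation is surjective for modules acyclic over a normal kernel

(Copy of `Pool/Agent/Helper90/FC/Infl.lean` for a normal kernel.) Let `F → B → C` be exact. For a `B`-module `N` the subspace `N^F` of
`F`-invariants is a `B`-submodule on which `B` acts through `C` (`ker π = B F⁺`), so `N^F` is a
`C`-module, functorially in `N`, and the functor is left exact; if `0 → N → I → N' → 0` is exact and
`Ext^1_F(k, N) = 0` then `0 → N^F → I^F → N'^F → 0` is exact (an invariant of `N'` is an element of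
`Hom_F(k, N') = Ext^0_F(k, N')`, whose image in `Ext^1_F(k, N)` vanishes).

Surjectivity of inflation `Ext^n_C(k, N^F) → Ext^n_B(k, N)` for `N` acyclic over `F`, by induction
on `n`: for `n = 0` a `B`-linear map `k → N` has image in `N^F`. For `n + 1` embed `N` in an
injective `I` which is acyclic over `F` (hypothesis `hI`), with cokernel `N'`, acyclic over `F`
(`Acyc.of_ses`): `x = h.comp extClass` with `h : Ext^n_B(k, N')`, `h` is inflated from
`h' : Ext^n_C(k, N'^F)`, and `x` is inflated from `h'.comp extClass`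
(`Ext.mapExactFunctor_extClass`, `extClass_naturality`).
-/

set_option linter.unusedSectionVars false
set_option autoImplicit false

open CategoryTheory CategoryTheory.Abelian CategoryTheory.Limits
open scoped ModuleCat TensorProduct
open Pool.Agent.Helper59.FG Pool.Agent.Helper90.FC

namespace Pool.Agent.Helper49.FA

universe u

section

variable {k : Type u} [Field k] {F B C : Type u} [Ring F] [Ring B] [Ring C] [HopfAlgebra k F]
variable [HopfAlgebra k B] [HopfAlgebra k C] [Module.Finite k B]

/-- The invariants of the central subalgebra. -/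
def inflS {ι : F →ₐc[k] B} {π : B →ₐc[k] C} (hex : NExact k ι π)
    (N : ModuleCat.{u} B) : Submodule B N where
  carrier := {x | ∀ a : F, (ι a) • x = algebraMap k B (Coalgebra.counit (R := k) a) • x}
  add_mem' {x y} hx hy a := by rw [smul_add, smul_add, hx, hy]
  zero_mem' a := by rw [smul_zero, smul_zero]
  smul_mem' b x hx a := by
    have h0 : ∀ y : B, y ∈ Ideal.span (ι '' {a : F | Coalgebra.counit (R := k) a = 0}) →
        y • x = 0 := by
      intro y hy
      unfold Ideal.span at hy
      induction hy using Submodule.span_induction with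
      | mem y hy =>
        obtain ⟨a, ha, rfl⟩ := hy
        have ha' : Coalgebra.counit (R := k) a = 0 := ha
        rw [hx a, ha', map_zero, zero_smul]
      | zero => rw [zero_smul]
      | add y z _ _ hy hz => rw [add_smul, hy, hz, add_zero]
      | smul c y _ hy => rw [smul_eq_mul, mul_smul, hy, smul_zero]
    have h1 : π (ι (a - algebraMap k F (Coalgebra.counit (R := k) a))) = 0 := by
      rw [hex.ker]
      refine Ideal.subset_span ⟨_, ?_, rfl⟩
      change Coalgebra.counit (R := k) (a - algebraMap k F (Coalgebra.counit (R := k) a)) = 0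
      rw [map_sub, Bialgebra.counit_algebraMap, sub_self]
    have h2 : π (ι (a - algebraMap k F (Coalgebra.counit (R := k) a)) * b) = 0 := by
      rw [map_mul, h1, zero_mul]
    have h3 := h0 _ ((hex.ker _).1 h2)
    have h4 : ι (algebraMap k F (Coalgebra.counit (R := k) a)) =
        algebraMap k B (Coalgebra.counit (R := k) a) := AlgHomClass.commutes ι _
    rw [map_sub, h4, sub_mul, sub_smul, mul_smul, mul_smul, sub_eq_zero] at h3
    exact h3

theorem inflS_act {ι : F →ₐc[k] B} {π : B →ₐc[k] C} (hex : NExact k ι π)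
    (N : ModuleCat.{u} B) {b : B} (hb : π b = 0) {x : N} (hx : x ∈ inflS hex N) : b • x = 0 := by
  have h1 := (hex.ker b).1 hb
  clear hb
  unfold Ideal.span at h1
  induction h1 using Submodule.span_induction with
  | mem y hy =>
    obtain ⟨a, ha, rfl⟩ := hy
    rw [hx a, ha, map_zero, zero_smul]
  | zero => rw [zero_smul]
  | add y z _ _ hy hz => rw [add_smul, hy, hz, add_zero]
  | smul c y _ hy => rw [smul_eq_mul, mul_smul, hy, smul_zero]

theorem inflS_act' {ι : F →ₐc[k] B} {π : B →ₐc[k] C} (hex : NExact k ι π)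
    (N : ModuleCat.{u} B) {b b' : B} (hb : π b = π b') (x : inflS hex N) : b • x = b' • x := by
  apply Subtype.ext
  have h1 : π (b - b') = 0 := by rw [map_sub, hb, sub_self]
  have h2 := inflS_act hex N h1 x.2
  rw [sub_smul, sub_eq_zero] at h2
  exact h2

/-- The action of `C` on the invariants. -/
@[reducible] noncomputable def inflMod {ι : F →ₐc[k] B} {π : B →ₐc[k] C}
    (hex : NExact k ι π) (N : ModuleCat.{u} B) : Module C (inflS hex N) where
  smul c x := Function.surjInv hex.surj c • x
  one_smul x := by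
    change Function.surjInv hex.surj 1 • x = x
    rw [inflS_act' hex N (b' := 1) (by rw [Function.surjInv_eq hex.surj, map_one]), one_smul]
  mul_smul c d x := by
    change Function.surjInv hex.surj (c * d) • x =
      Function.surjInv hex.surj c • (Function.surjInv hex.surj d • x)
    rw [← mul_smul]
    exact inflS_act' hex N (by
      rw [map_mul, Function.surjInv_eq hex.surj, Function.surjInv_eq hex.surj,
        Function.surjInv_eq hex.surj]) x
  smul_zero c := by
    change Function.surjInv hex.surj c • (0 : inflS hex N) = 0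
    rw [smul_zero]
  smul_add c x y := by
    change Function.surjInv hex.surj c • (x + y) =
      Function.surjInv hex.surj c • x + Function.surjInv hex.surj c • y
    rw [smul_add]
  add_smul c d x := by
    change Function.surjInv hex.surj (c + d) • x =
      Function.surjInv hex.surj c • x + Function.surjInv hex.surj d • x
    rw [← add_smul]
    exact inflS_act' hex N (by
      rw [map_add, Function.surjInv_eq hex.surj, Function.surjInv_eq hex.surj,
        Function.surjInv_eq hex.surj]) x
  zero_smul x := by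
    change Function.surjInv hex.surj 0 • x = 0
    rw [inflS_act' hex N (b' := 0) (by rw [Function.surjInv_eq hex.surj, map_zero]), zero_smul]

/-- The `C`-module of invariants. -/
noncomputable def inflM {ι : F →ₐc[k] B} {π : B →ₐc[k] C} (hex : NExact k ι π)
    (N : ModuleCat.{u} B) : ModuleCat.{u} C :=
  @ModuleCat.of C _ (inflS hex N) _ (inflMod hex N)

def inflV {ι : F →ₐc[k] B} {π : B →ₐc[k] C} (hex : NExact k ι π)
    (N : ModuleCat.{u} B) (x : inflM hex N) : N := Subtype.val (p := (· ∈ inflS hex N)) x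

theorem inflV_mem {ι : F →ₐc[k] B} {π : B →ₐc[k] C} (hex : NExact k ι π)
    (N : ModuleCat.{u} B) (x : inflM hex N) : inflV hex N x ∈ inflS hex N :=
  Subtype.prop (p := (· ∈ inflS hex N)) x

theorem inflV_inj {ι : F →ₐc[k] B} {π : B →ₐc[k] C} (hex : NExact k ι π)
    (N : ModuleCat.{u} B) : Function.Injective (inflV hex N) := Subtype.val_injective

theorem inflV_add {ι : F →ₐc[k] B} {π : B →ₐc[k] C} (hex : NExact k ι π)
    (N : ModuleCat.{u} B) (x y : inflM hex N) :
    inflV hex N (x + y) = inflV hex N x + inflV hex N y := rfl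

theorem inflV_smul {ι : F →ₐc[k] B} {π : B →ₐc[k] C} (hex : NExact k ι π)
    (N : ModuleCat.{u} B) (b : B) (x : inflM hex N) :
    inflV hex N (π b • x) = b • inflV hex N x :=
  congrArg Subtype.val (inflS_act' hex N (Function.surjInv_eq hex.surj (π b)) x)

theorem inflV_smul' {ι : F →ₐc[k] B} {π : B →ₐc[k] C} (hex : NExact k ι π)
    (N : ModuleCat.{u} B) (c : C) (x : inflM hex N) :
    inflV hex N (c • x) = Function.surjInv hex.surj c • inflV hex N x := rfl

def inflU {ι : F →ₐc[k] B} {π : B →ₐc[k] C} (hex : NExact k ι π)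
    (N : ModuleCat.{u} B) (x : N) (hx : x ∈ inflS hex N) : inflM hex N :=
  (⟨x, hx⟩ : inflS hex N)

theorem inflV_inflU {ι : F →ₐc[k] B} {π : B →ₐc[k] C} (hex : NExact k ι π)
    (N : ModuleCat.{u} B) (x : N) (hx : x ∈ inflS hex N) : inflV hex N (inflU hex N x hx) = x := rfl

noncomputable def inflFl {ι : F →ₐc[k] B} {π : B →ₐc[k] C} (hex : NExact k ι π)
    (N : ModuleCat.{u} B) : (res (π : B →ₐ[k] C)).obj (inflM hex N) →ₗ[B] N where
  toFun := inflV hex N
  map_add' := fun _ _ => rfl
  map_smul' := fun b x => inflV_smul hex N b x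

/-- The inclusion of the invariants. -/
noncomputable def inflF {ι : F →ₐc[k] B} {π : B →ₐc[k] C} (hex : NExact k ι π)
    (N : ModuleCat.{u} B) : (res (π : B →ₐ[k] C)).obj (inflM hex N) ⟶ N :=
  ConcreteCategory.ofHom (C := ModuleCat.{u} B)
    (X := (res (π : B →ₐ[k] C)).obj (inflM hex N)) (Y := N) (inflFl hex N)

theorem inflS_map {ι : F →ₐc[k] B} {π : B →ₐc[k] C} (hex : NExact k ι π)
    {N N' : ModuleCat.{u} B} (g : N ⟶ N') {x : N} (hx : x ∈ inflS hex N) :
    g.hom x ∈ inflS hex N' := fun a => by
  rw [← map_smul, hx a, map_smul]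

noncomputable def inflGl {ι : F →ₐc[k] B} {π : B →ₐc[k] C} (hex : NExact k ι π)
    {N N' : ModuleCat.{u} B} (g : N ⟶ N') : inflM hex N →ₗ[C] inflM hex N' where
  toFun := fun x => inflU hex N' (g.hom (inflV hex N x)) (inflS_map hex g (inflV_mem hex N x))
  map_add' := fun x y => inflV_inj hex N'
    (map_add g.hom (inflV hex N x) (inflV hex N y))
  map_smul' := fun c x => inflV_inj hex N'
    (map_smul g.hom (Function.surjInv hex.surj c) (inflV hex N x))

/-- Functoriality of the invariants. -/
noncomputable def inflG {ι : F →ₐc[k] B} {π : B →ₐc[k] C} (hex : NExact k ι π)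
    {N N' : ModuleCat.{u} B} (g : N ⟶ N') : inflM hex N ⟶ inflM hex N' :=
  ConcreteCategory.ofHom (C := ModuleCat.{u} C) (X := inflM hex N) (Y := inflM hex N')
    (inflGl hex g)

theorem inflG_apply {ι : F →ₐc[k] B} {π : B →ₐc[k] C} (hex : NExact k ι π)
    {N N' : ModuleCat.{u} B} (g : N ⟶ N') (x : inflM hex N) :
    inflV hex N' ((inflG hex g).hom x) = g.hom (inflV hex N x) := rfl

theorem inflG_nat {ι : F →ₐc[k] B} {π : B →ₐc[k] C} (hex : NExact k ι π)
    {N N' : ModuleCat.{u} B} (g : N ⟶ N') :
    (res (π : B →ₐ[k] C)).map (inflG hex g) ≫ inflF hex N' = inflF hex N ≫ g := rfl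

theorem infl_triv (a : F) (ι : F →ₐc[k] B) (c : trivObj k B) :
    (ι a) • c = algebraMap k B (Coalgebra.counit (R := k) a) • c := by
  change Coalgebra.counit (R := k) (ι a) * (show k from c) =
    Coalgebra.counit (R := k) (algebraMap k B (Coalgebra.counit (R := k) a)) * (show k from c)
  rw [Bialgebra.counit_algebraMap]
  exact congrArg (· * (show k from c)) (aug_of_bialg ι a)

/-- The `F`-linear map `k → N` given by an invariant. -/
noncomputable def inflH {ι : F →ₐc[k] B} {π : B →ₐc[k] C} (hex : NExact k ι π)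
    (N : ModuleCat.{u} B) (z : N) (hz : z ∈ inflS hex N) :
    trivObj k F →ₗ[F] (res (ι : F →ₐ[k] B)).obj N where
  toFun c := (algebraMap k B (show k from c) • z : N)
  map_add' c d := by
    change algebraMap k B ((show k from c) + (show k from d)) • z = _
    rw [map_add, add_smul]
    rfl
  map_smul' a c := by
    change algebraMap k B (Coalgebra.counit (R := k) a * (show k from c)) • z =
      (ι a) • (algebraMap k B (show k from c) • z)
    rw [← mul_smul, ← Algebra.commutes, mul_smul, hz a, ← mul_smul, ← map_mul, mul_comm]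

theorem infl_surj {ι : F →ₐc[k] B} {π : B →ₐc[k] C} (hex : NExact k ι π)
    {S : ShortComplex (ModuleCat.{u} B)} (hS : S.ShortExact)
    (h : Acyc k ((res (ι : F →ₐ[k] B)).obj S.X₁)) (z : inflM hex S.X₃) :
    ∃ w : inflM hex S.X₂, (inflG hex S.g).hom w = z := by
  let φ : trivObj k F ⟶ (S.map (res (ι : F →ₐ[k] B))).X₃ :=
    ConcreteCategory.ofHom (C := ModuleCat.{u} F) (X := trivObj k F)
      (Y := (res (ι : F →ₐ[k] B)).obj S.X₃) (inflH hex S.X₃ (inflV hex _ z) (inflV_mem hex _ z))
  have hSF := hS.map_of_exact (res (ι : F →ₐ[k] B))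
  obtain ⟨x₂, hx₂⟩ := Ext.covariant_sequence_exact₃ (trivObj k F) hSF (Ext.mk₀ φ) (zero_add 1)
    (h 1 le_rfl _)
  obtain ⟨ψ, rfl⟩ := (Ext.mk₀_bijective _ _).2 x₂
  rw [Ext.mk₀_comp_mk₀] at hx₂
  have h1 : ψ ≫ (S.map (res (ι : F →ₐ[k] B))).g = φ := (Ext.mk₀_bijective _ _).1 hx₂
  let one : trivObj k F := (show trivObj k F from (1 : k))
  have h2 : S.g.hom (ψ.hom one) = inflV hex _ z := by
    have h3 := congrArg (fun f => f.hom one) h1
    refine Eq.trans h3 ?_
    change algebraMap k B (1 : k) • inflV hex _ z = inflV hex _ z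
    rw [map_one, one_smul]
  have h4 : (show S.X₂ from ψ.hom one) ∈ inflS hex S.X₂ := by
    intro a
    have h5 : a • one = algebraMap k F (Coalgebra.counit (R := k) a) • one := by
      change Coalgebra.counit (R := k) a * (1 : k) =
        Coalgebra.counit (R := k) (algebraMap k F (Coalgebra.counit (R := k) a)) * (1 : k)
      rw [Bialgebra.counit_algebraMap]
    have h6 : ψ.hom (a • one) = (show S.X₂ from (ι a) • (show S.X₂ from ψ.hom one)) :=
      map_smul ψ.hom a one
    have h7 : ψ.hom (algebraMap k F (Coalgebra.counit (R := k) a) • one) =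
        (show S.X₂ from (ι (algebraMap k F (Coalgebra.counit (R := k) a))) •
          (show S.X₂ from ψ.hom one)) :=
      map_smul ψ.hom (algebraMap k F (Coalgebra.counit (R := k) a)) one
    have h8 : ι (algebraMap k F (Coalgebra.counit (R := k) a)) =
        algebraMap k B (Coalgebra.counit (R := k) a) :=
      AlgHomClass.commutes ι _
    rw [h8] at h7
    rw [h5, h7] at h6
    exact h6.symm
  exact ⟨inflU hex _ _ h4, inflV_inj hex _ h2⟩

noncomputable def inflSC {ι : F →ₐc[k] B} {π : B →ₐc[k] C} (hex : NExact k ι π)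
    (S : ShortComplex (ModuleCat.{u} B)) : ShortComplex (ModuleCat.{u} C) :=
  ShortComplex.mk (inflG hex S.f) (inflG hex S.g) (by
    apply ConcreteCategory.hom_ext
    intro x
    apply inflV_inj hex
    exact congrArg (fun f => f.hom (inflV hex _ x)) S.zero)

theorem inflSC_exact {ι : F →ₐc[k] B} {π : B →ₐc[k] C} (hex : NExact k ι π)
    {S : ShortComplex (ModuleCat.{u} B)} (hS : S.ShortExact)
    (h : Acyc k ((res (ι : F →ₐ[k] B)).obj S.X₁)) : (inflSC hex S).ShortExact := by
  have hf : Function.Injective S.f.hom := (ModuleCat.mono_iff_injective _).1 hS.mono_f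
  have hE := (ShortComplex.ShortExact.moduleCat_exact_iff_function_exact _).1 hS.exact
  refine ModuleCat.shortComplex_shortExact _ ?_ ?_ ?_
  · intro y
    constructor
    · intro hy
      have h1 : S.g.hom (inflV hex _ y) = 0 := congrArg (inflV hex _) hy
      obtain ⟨x, hx⟩ := (hE (inflV hex _ y)).1 h1
      have hx' : S.f.hom x = inflV hex _ y := hx
      refine ⟨inflU hex _ x ?_, inflV_inj hex _ hx⟩
      intro a
      apply hf
      rw [map_smul, map_smul, hx']
      exact inflV_mem hex _ y a
    · rintro ⟨x, rfl⟩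
      apply inflV_inj hex
      exact congrArg (fun f => f.hom (inflV hex _ x)) S.zero
  · intro x y hxy
    apply inflV_inj hex
    apply hf
    exact congrArg (inflV hex _) hxy
  · intro z
    exact infl_surj hex hS h z

theorem infl_finite {ι : F →ₐc[k] B} {π : B →ₐc[k] C} (hex : NExact k ι π)
    (N : ModuleCat.{u} B) [Module.Finite B N] : Module.Finite C (inflM hex N) := by
  have hB : IsNoetherianRing B := isNoetherian_of_tower k (inferInstance : IsNoetherian k B)
  have h1 : Module.Finite B (inflS hex N) := inferInstance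
  have : RingHomSurjective ((π : B →ₐ[k] C) : B →+* C) := ⟨hex.surj⟩
  let g : inflS hex N →ₛₗ[((π : B →ₐ[k] C) : B →+* C)] inflM hex N :=
    { toFun := fun x => x
      map_add' := fun _ _ => rfl
      map_smul' := fun b x => (inflS_act' hex N (Function.surjInv_eq hex.surj (π b)) x).symm }
  exact Module.Finite.of_surjective g (fun x => ⟨x, rfl⟩)

noncomputable def inflTl {ι : F →ₐc[k] B} {π : B →ₐc[k] C} (hex : NExact k ι π)
    (N : ModuleCat.{u} B) (g : trivObj k B ⟶ N) : trivObj k C →ₗ[C] inflM hex N where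
  toFun c := inflU hex N (g.hom (show trivObj k B from (show k from c))) (fun a => by
    rw [← map_smul, infl_triv, map_smul])
  map_add' c d := inflV_inj hex N
    (map_add g.hom (show trivObj k B from (show k from c)) (show trivObj k B from (show k from d)))
  map_smul' c x := inflV_inj hex N (by
    refine Eq.trans ?_ (map_smul g.hom (Function.surjInv hex.surj c)
      (show trivObj k B from (show k from x)))
    change g.hom (show trivObj k B from Coalgebra.counit (R := k) c * (show k from x)) =
      g.hom (show trivObj k B from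
        Coalgebra.counit (R := k) (Function.surjInv hex.surj c) * (show k from x))
    have h1 : Coalgebra.counit (R := k) (π (Function.surjInv hex.surj c)) =
      Coalgebra.counit (R := k) (Function.surjInv hex.surj c) := aug_of_bialg π _
    rw [Function.surjInv_eq hex.surj c] at h1
    rw [h1])

theorem infl_alg {𝒞 : Type*} [Category 𝒞] [Abelian 𝒞] [HasExt.{u} 𝒞]
    {S₁ S₂ : ShortComplex 𝒞} (h₁ : S₁.ShortExact) (h₂ : S₂.ShortExact) (f : S₁ ⟶ S₂) {X : 𝒞}
    {n : ℕ} (a : Ext X S₁.X₃ n) (b : Ext X S₂.X₃ n)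
    (hab : a.comp (Ext.mk₀ f.τ₃) (add_zero n) = b) (x : Ext X S₂.X₁ (n + 1))
    (hx : b.comp h₂.extClass rfl = x) :
    (a.comp h₁.extClass rfl).comp (Ext.mk₀ f.τ₁) (add_zero (n + 1)) = x := by
  rw [Ext.comp_assoc_of_third_deg_zero, ShortComplex.ShortExact.extClass_naturality h₁ h₂ f,
    ← Ext.comp_assoc_of_second_deg_zero, hab, hx]

theorem infl_main (ι : F →ₐc[k] B) (π : B →ₐc[k] C) (hex : NExact k ι π)
    (hI : HasAcyc ι) (n : ℕ) :
    ∀ (N : ModuleCat.{u} B), Module.Finite B N → Acyc k ((res (ι : F →ₐ[k] B)).obj N) →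
      ∀ x : Ext (trivObj k B) N n, ∃ y : Ext (trivObj k C) (inflM hex N) n,
        (rs (π : B →ₐ[k] C) (aug_of_bialg π) y).comp (Ext.mk₀ (inflF hex N)) (add_zero n) = x := by
  induction n with
  | zero =>
    intro N hNf hN x
    obtain ⟨g, rfl⟩ := (Ext.mk₀_bijective _ _).2 x
    refine ⟨Ext.mk₀ (ConcreteCategory.ofHom (C := ModuleCat.{u} C) (X := trivObj k C)
      (Y := inflM hex N) (inflTl hex N g)), ?_⟩
    rw [rs, Ext.mapExactFunctor_mk₀, Ext.mk₀_comp_mk₀, Ext.mk₀_comp_mk₀]
    rfl
  | succ n ih =>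
    intro N hNf hN x
    have hB : IsNoetherianRing B := isNoetherian_of_tower k (inferInstance : IsNoetherian k B)
    have hF : Module.Finite k F :=
      Module.Finite.of_injective ((ι : F →ₐ[k] B).toLinearMap) hex.inj
    obtain ⟨I, j, hj, hIi, hIf, hIa⟩ := hI N hNf
    let p : I ⟶ ModuleCat.of B (I ⧸ LinearMap.range j.hom) :=
      ModuleCat.ofHom (LinearMap.range j.hom).mkQ
    have w : j ≫ p = 0 := by
      ext x
      exact (Submodule.Quotient.mk_eq_zero _).2 ⟨x, rfl⟩
    have hS : (ShortComplex.mk j p w).ShortExact :=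
      ModuleCat.shortComplex_shortExact _ (fun y => by
        refine (Submodule.Quotient.mk_eq_zero (LinearMap.range j.hom) (x := y)).trans ?_
        rfl) hj (Submodule.mkQ_surjective _)
    have hQf : Module.Finite B (ModuleCat.of B (I ⧸ LinearMap.range j.hom)) :=
      inferInstanceAs (Module.Finite B (I ⧸ LinearMap.range j.hom))
    have hQa : Acyc k ((res (ι : F →ₐ[k] B)).obj
        (ModuleCat.of B (I ⧸ LinearMap.range j.hom))) :=
      Acyc.of_ses (hS.map_of_exact (res (ι : F →ₐ[k] B))) hN hIa
    obtain ⟨h, hh⟩ := Ext.covariant_sequence_exact₁ (trivObj k B) hS x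
      (Ext.eq_zero_of_injective _) rfl
    obtain ⟨h', hh'⟩ := ih _ hQf hQa h
    have hSC := inflSC_exact hex hS hN
    refine ⟨h'.comp hSC.extClass rfl, ?_⟩
    let τ : (inflSC hex (ShortComplex.mk j p w)).map (res (π : B →ₐ[k] C)) ⟶
        ShortComplex.mk j p w :=
      { τ₁ := inflF hex N
        τ₂ := inflF hex I
        τ₃ := inflF hex (ModuleCat.of B (I ⧸ LinearMap.range j.hom))
        comm₁₂ := rfl
        comm₂₃ := rfl }
    have e1 : rs (π : B →ₐ[k] C) (aug_of_bialg π) (h'.comp hSC.extClass rfl) =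
        (rs (π : B →ₐ[k] C) (aug_of_bialg π) h').comp
          (hSC.map_of_exact (res (π : B →ₐ[k] C))).extClass rfl := by
      refine (rs_comp (π : B →ₐ[k] C) (aug_of_bialg π) h' hSC.extClass rfl).trans ?_
      exact congrArg (fun t => Ext.comp (rs (π : B →ₐ[k] C) (aug_of_bialg π) h') t rfl)
        (Ext.mapExactFunctor_extClass (res (π : B →ₐ[k] C)) hSC)
    refine (congrArg (fun t => Ext.comp t (Ext.mk₀ (inflF hex N)) (add_zero (n + 1))) e1).trans ?_
    exact infl_alg (hSC.map_of_exact (res (π : B →ₐ[k] C))) hS τ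
      (rs (π : B →ₐ[k] C) (aug_of_bialg π) h') h hh' x hh

theorem infl (ι : F →ₐc[k] B) (π : B →ₐc[k] C) (hex : NExact k ι π) (hI : HasAcyc ι)
    (N : ModuleCat.{u} B) [Module.Finite B N] (hN : Acyc k ((res (ι : F →ₐ[k] B)).obj N)) :
    ∃ (M : ModuleCat.{u} C) (f : (res (π : B →ₐ[k] C)).obj M ⟶ N), Module.Finite C M ∧
      ∀ (n : ℕ) (x : Ext (trivObj k B) N n), ∃ y : Ext (trivObj k C) M n,
        (rs (π : B →ₐ[k] C) (aug_of_bialg π) y).comp (Ext.mk₀ f) (add_zero n) = x :=
  ⟨inflM hex N, inflF hex N, infl_finite hex N, fun n x =>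
    infl_main ι π hex hI n N inferInstance hN x⟩

/-- Consequence: the inflated family generates `Ext_B(k, N)` eventually. -/
theorem infl_evGen (ι : F →ₐc[k] B) (π : B →ₐc[k] C) (hex : NExact k ι π)
    (hI : HasAcyc ι) {r : ℕ} (ζ : Fam k C (Fin r))
    (hζ : ∀ M : ModuleCat.{u} C, Module.Finite C M → ζ.EvGen M) (N : ModuleCat.{u} B)
    [Module.Finite B N] (hN : Acyc k ((res (ι : F →ₐ[k] B)).obj N)) :
    (ζ.res (π : B →ₐ[k] C) (aug_of_bialg π)).EvGen N := by
  obtain ⟨M, f, hM, hy⟩ := infl ι π hex hI N hN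
  obtain ⟨n₀, hn₀⟩ := hζ M hM
  refine ⟨n₀, fun n hn => ?_⟩
  rw [eq_top_iff]
  intro x _
  obtain ⟨y, rfl⟩ := hy n x
  let W : Submodule k (Ext (trivObj k C) M n) :=
    { carrier := {y | (rs (π : B →ₐ[k] C) (aug_of_bialg π) y).comp (Ext.mk₀ f) (add_zero n) ∈
        (ζ.res (π : B →ₐ[k] C) (aug_of_bialg π)).gen N n}
      add_mem' := fun {a b} ha hb => by
        rw [Set.mem_ofPred_eq, rs_add, Ext.add_comp]
        exact add_mem ha hb
      zero_mem' := by
        rw [Set.mem_ofPred_eq, rs_zero, Ext.zero_comp]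
        exact zero_mem _
      smul_mem' := fun c a ha => by
        rw [Set.mem_ofPred_eq, rs_smul, Ext.smul_comp]
        exact Submodule.smul_mem _ c ha }
  have hW : ζ.gen M n ≤ W := by
    rw [Fam.gen_le_iff]
    intro i m h z
    change (rs (π : B →ₐ[k] C) (aug_of_bialg π) ((ζ.cls i).comp z h)).comp (Ext.mk₀ f)
      (add_zero n) ∈ (ζ.res (π : B →ₐ[k] C) (aug_of_bialg π)).gen N n
    rw [← rsE_comp, Ext.comp_assoc_of_third_deg_zero]
    exact (ζ.res (π : B →ₐ[k] C) (aug_of_bialg π)).mem_gen i h _
  rw [hn₀ n hn] at hW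
  exact (show y ∈ W from hW Submodule.mem_top)

end

end Pool.Agent.Helper49.FA
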