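import Pool.Agent.Helper49.FA.SectB
import Pool.Agent.Helper90.FC.MainStep
import Pool.Agent.Helper90.FC.Descend
import Pool.Agent.Helper90.FC.Climb

/-!
# Project FA, piece MST: the main step (normal kernel)

(Adapted from `Pool/Agent/Helper90/FC/MainStep.lean`.)

Let `F → B → C` be exact, `B F⁺ ⊆ F⁺ B`, `F` local, `C` with `FGE`, and let `η` be a finite family of
classes in `Ext_B(k, k)` whose restrictions to `F` generate `Ext_F(k, k)` eventually. Then `FGE`
holds for `B`, with the family `Θ` = inflation of the family of `C` together with `η`.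

Proof: for `m ≤ n` and `X` finite-dimensional: if the restrictions to `F` of the first `m` members
of `η` generate `Ext_F(k, X)` eventually, then `Θ.EvGen X`. Induction on `m`. For `m = 0`
(`evGen_empty`, `acyc_of_large`) `X` is acyclic over `F`, use `infl_evGen` and
`evGen_sum_left`. For `m + 1`: `D : KData` for the `m`-th member, `D.res` its restriction to `F`
(`KData.res`, `Sect.proj`), `descend` over `F` and the isomorphism `resTen` show that the first `m`
members generate `Ext_F(k, K ⊗ X)` eventually; by induction `Θ.EvGen (K ⊗ X)`, then `climb`.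
Start: `evGen_of_triv`.
-/

set_option linter.unusedSectionVars false
set_option autoImplicit false

open CategoryTheory CategoryTheory.Abelian CategoryTheory.Limits
open scoped ModuleCat TensorProduct
open Pool.Agent.Helper59.FG Pool.Agent.Helper90.FC

namespace Pool.Agent.Helper49.FA

universe u

section

variable {k : Type u} [Field k] {F B C : Type u} [Ring F] [Ring B] [Ring C] [HopfAlgebra k F]
variable [HopfAlgebra k B] [HopfAlgebra k C]

/-- The identity, as an equivalence of vector spaces. -/
noncomputable def MainStep_id (φ : F →ₐ[k] B) (X : ModuleCat.{u} B) :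
    X ≃ₗ[k] ((res φ).obj X) where
  toFun x := x
  invFun x := x
  left_inv _ := rfl
  right_inv _ := rfl
  map_add' _ _ := rfl
  map_smul' c x := by
    change algebraMap k B c • x = φ (algebraMap k F c) • x
    rw [AlgHom.commutes]

theorem MainStep_fin (φ : F →ₐ[k] B) [Module.Finite k B] (P : ModuleCat.{u} B)
    (hf : Module.Finite B P) : Module.Finite F ((res φ).obj P) := by
  have h1 : Module.Finite k P := Module.Finite.trans B P
  have h2 : Module.Finite k ((res φ).obj P) :=
    Module.Finite.equiv (MainStep_id φ P)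
  exact Module.Finite.of_restrictScalars_finite k F _

/-- The tensor product of finite modules is finite. -/
theorem MainStep_finT [Module.Finite k B] (K Y : ModuleCat.{u} B) (hK : Module.Finite B K)
    (hY : Module.Finite B Y) : Module.Finite B ((tensFunctor k Y).obj K) := by
  have h1 : Module.Finite k K := Module.Finite.trans B K
  have h2 : Module.Finite k Y := Module.Finite.trans B Y
  have h3 : Module.Finite k (K ⊗[k] Y) := inferInstance
  have h4 : Module.Finite k ((tensFunctor k Y).obj K) := by
    let L : K ⊗[k] Y →ₗ[k] ((tensFunctor k Y).obj K) :=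
      { toFun := fun z => (show TT k K Y from z)
        map_add' := fun _ _ => rfl
        map_smul' := fun c z => by
          have h5 : tact k K Y (algebraMap k B c) = algebraMap k _ c := (tact k K Y).commutes c
          exact (congr($h5 z)).symm }
    exact Module.Finite.of_surjective L fun z => ⟨z, rfl⟩
  exact Module.Finite.of_restrictScalars_finite k B _

/-- The first `m` members of a family. -/
noncomputable def MainStep_fst {n : ℕ} (η : Fam k B (Fin n)) (m : ℕ) (h : m ≤ n) :
    Fam k B (Fin m) := η.comap (Fin.castLE h)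

theorem MainStep_ind [Module.Finite k F] [Module.Finite k B] (ι : F →ₐc[k] B)
    (π : B →ₐc[k] C) (hex : NExact k ι π) (hF : AugNil k F) (σ : Sect ι π) {r : ℕ}
    (ζ : Fam k C (Fin r)) (hζ : ∀ M : ModuleCat.{u} C, Module.Finite C M → ζ.EvGen M) {n : ℕ}
    (η : Fam k B (Fin n)) (m : ℕ) : ∀ (hm : m ≤ n) (X : ModuleCat.{u} B), Module.Finite B X →
      ((MainStep_fst η m hm).res (ι : F →ₐ[k] B) (aug_of_bialg ι)).EvGen
        ((res (ι : F →ₐ[k] B)).obj X) →
      ((ζ.res (π : B →ₐ[k] C) (aug_of_bialg π)).sum η).EvGen X := by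
  induction m with
  | zero =>
    intro hm X hX h
    have h1 := acyc_of_large hF _ (Fam.evGen_empty _ h)
    exact Fam.evGen_sum_left _ _ (infl_evGen ι π hex (hasAcyc σ hex.inj) ζ hζ X h1)
  | succ m ih =>
    intro hm X hX h
    have hXF : Module.Finite F ((res (ι : F →ₐ[k] B)).obj X) := MainStep_fin _ X hX
    let i₀ : Fin n := ⟨m, hm⟩
    obtain ⟨D⟩ := KData.nonempty (η.cls i₀) (η.pos i₀)
    obtain ⟨D', hD'⟩ := KData.res (ι : F →ₐ[k] B) (aug_of_bialg ι)
      (fun P hP hf => proj σ P hP hf) D
    have h1 : (((MainStep_fst η m (by omega)).res (ι : F →ₐ[k] B) (aug_of_bialg ι)).cons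
        (rsE (ι : F →ₐ[k] B) (aug_of_bialg ι) (η.cls i₀)) (η.pos i₀) (η.even i₀)).EvGen
        ((res (ι : F →ₐ[k] B)).obj X) := by
      let f : Fin (m + 1) → Option (Fin m) := fun i =>
        if hi : i.1 < m then some ⟨i.1, hi⟩ else none
      refine Fam.evGen_mono _ _ f (fun i => ?_) (fun i => ?_) h
      · by_cases hi : i.1 < m
        · have hf : f i = some ⟨i.1, hi⟩ := dif_pos hi
          rw [hf]
          rfl
        · have h2 : i.1 = m := by have := i.2; omega
          have h3 : (Fin.castLE hm i) = i₀ := Fin.ext h2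
          have hf : f i = none := dif_neg hi
          rw [hf]
          change η.deg i₀ = η.deg (Fin.castLE hm i)
          rw [h3]
      · by_cases hi : i.1 < m
        · have hf : f i = some ⟨i.1, hi⟩ := dif_pos hi
          rw [hf]
          rfl
        · have h2 : i.1 = m := by have := i.2; omega
          have h3 : (Fin.castLE hm i) = i₀ := Fin.ext h2
          have hf : f i = none := dif_neg hi
          rw [hf]
          change (⟨_, rsE (ι : F →ₐ[k] B) (aug_of_bialg ι) (η.cls i₀)⟩ :
            Σ n, Ext (trivObj k F) (trivObj k F) n) =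
            ⟨_, rsE (ι : F →ₐ[k] B) (aug_of_bialg ι) (η.cls (Fin.castLE hm i))⟩
          rw [h3]
    have h2 := descend _ _ (η.pos i₀) (η.even i₀) D' ((res (ι : F →ₐ[k] B)).obj X) h1
    rw [hD'] at h2
    obtain ⟨e⟩ := resTen ι D.K X
    have h3 := Fam.evGen_iso _ e.symm h2
    have hT := MainStep_finT (k := k) D.K X D.finK hX
    have h4 := ih (by omega) _ hT h3
    exact climb ((ζ.res (π : B →ₐ[k] C) (aug_of_bialg π)).sum η) (Sum.inr i₀) D X h4

theorem main_step [Module.Finite k F] [Module.Finite k B] (ι : F →ₐc[k] B) (π : B →ₐc[k] C)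
    (hex : NExact k ι π) (hF : AugNil k F) (hC : FGE k C) {n : ℕ} (η : Fam k B (Fin n))
    (hη : (η.res (ι : F →ₐ[k] B) (aug_of_bialg ι)).EvGen (trivObj k F)) : FGE k B := by
  obtain ⟨r, ζ, hζ⟩ := hC
  obtain ⟨σ⟩ := exists_sect ι π hex hF
  refine FGE.of_finite ((ζ.res (π : B →ₐ[k] C) (aug_of_bialg π)).sum η) fun M hM => ?_
  have hMF : Module.Finite F ((res (ι : F →ₐ[k] B)).obj M) := MainStep_fin _ M hM
  refine MainStep_ind ι π hex hF σ ζ hζ η n le_rfl M hM ?_
  exact Fam.evGen_mono _ _ id (fun _ => rfl) (fun _ => rfl)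
    (evGen_of_triv hF (η.res (ι : F →ₐ[k] B) (aug_of_bialg ι)) hη ((res (ι : F →ₐ[k] B)).obj M))

/-- The split case: `k` is a projective `A`-module. -/
theorem split_step {A : Type u} [Ring A] [HopfAlgebra k A] [Module.Finite k B]
    (ι : A →ₐc[k] B) (π : B →ₐc[k] C) (hex : NExact k ι π)
    (hA : Projective (trivObj k A)) (hC : FGE k C) : FGE k B := by
  obtain ⟨r, ζ, hζ⟩ := hC
  have hac : ∀ N : ModuleCat.{u} A, Acyc k N := by
    intro N n hn x
    obtain ⟨m, rfl⟩ : ∃ m, n = m + 1 := ⟨n - 1, by omega⟩
    exact Ext.eq_zero_of_projective x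
  have hI : HasAcyc ι := by
    intro X hX
    have hkX : Module.Finite k X := Module.Finite.trans B X
    refine ⟨ModuleCat.of B (Coind k B X),
      ModuleCat.ofHom (Coind.lift (A := B) (LinearMap.id (M := X) (R := k))),
      Coind.lift_id_injective, ?_, ?_, hac _⟩
    · exact (Module.injective_iff_injective_object B (Coind k B X)).1 Coind.injective
    · exact Module.Finite.of_restrictScalars_finite k B _
  exact FGE.of_finite (ζ.res (π : B →ₐ[k] C) (aug_of_bialg π)) fun M hM =>
    infl_evGen ι π hex hI ζ hζ M (hac _)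

end

end Pool.Agent.Helper49.FA
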