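import Pool.Agent.Helper90.FC.Infl

/-!
# Project FA: exact sequences of Hopf algebras with a normal kernel: definitions
-/

set_option linter.unusedSectionVars false
set_option autoImplicit false

open scoped TensorProduct
open Pool.Agent.Helper90.FC

namespace Pool.Agent.Helper49.FA

universe u

/-- `F → B → C` is exact and `B F⁺ ⊆ F⁺ B`. -/
structure NExact (k : Type u) [Field k] {F B C : Type u} [Ring F] [Ring B] [Ring C]
    [HopfAlgebra k F] [HopfAlgebra k B] [HopfAlgebra k C] (ι : F →ₐc[k] B) (π : B →ₐc[k] C) :
    Prop where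
  inj : Function.Injective ι
  surj : Function.Surjective π
  ker : ∀ b : B, π b = 0 ↔
    b ∈ Ideal.span (ι '' {a : F | Coalgebra.counit (R := k) a = 0})
  norm : ∀ (b : B) (a : F), Coalgebra.counit (R := k) a = 0 →
    b * ι a ∈ Submodule.span k {x : B | ∃ (a' : F) (b' : B),
      Coalgebra.counit (R := k) a' = 0 ∧ ι a' * b' = x}

end Pool.Agent.Helper49.FA
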