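import Pool.Agent.Helper49.FA.Sect
import Pool.Agent.Helper56.SS.Anti

/-!
# Project FA, piece SEB: consequences of freeness (normal kernel)

(Adapted from `Pool/Agent/Helper90/FC/SectB.lean`.)
-/

set_option linter.unusedSectionVars false
set_option autoImplicit false

open CategoryTheory CategoryTheory.Abelian CategoryTheory.Limits
open scoped ModuleCat TensorProduct
open Pool.Agent.Helper59.FG Pool.Agent.Helper90.FC

namespace Pool.Agent.Helper49.FA

universe u

section

variable {k : Type u} [Field k] {F B C : Type u} [Ring F] [Ring B] [Ring C] [HopfAlgebra k F]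
variable [HopfAlgebra k B] [HopfAlgebra k C]

theorem SectB_act (φ : F →ₐ[k] B) (M : ModuleCat.{u} B) (a : F) (x : (res φ).obj M) :
    a • x = (show (res φ).obj M from (φ a • (show M from x))) := rfl

/-- `B` is free over `F`. -/
noncomputable def SectB_free {ι : F →ₐc[k] B} {π : B →ₐc[k] C} (σ : Sect ι π) :
    (F ⊗[k] C) ≃ₗ[F] ((res (ι : F →ₐ[k] B)).obj (ModuleCat.of B B)) :=
  LinearEquiv.ofBijective
    ({ toFun := fun z => fsMap ι σ.s z
       map_add' := fun z w => map_add (fsMap ι σ.s) z w
       map_smul' := fun a z => by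
        change fsMap ι σ.s (a • z) = ι a * fsMap ι σ.s z
        induction z using TensorProduct.induction_on with
        | zero => simp
        | add x y hx hy => rw [smul_add, map_add, map_add, mul_add, hx, hy]
        | tmul f c =>
          rw [TensorProduct.smul_tmul']
          change ι (a * f) * σ.s c = ι a * (ι f * σ.s c)
          rw [map_mul, mul_assoc] } :
      (F ⊗[k] C) →ₗ[F] ((res (ι : F →ₐ[k] B)).obj (ModuleCat.of B B))) σ.bij

/-- `B` is a free `F`-module, so projective `B`-modules restrict to projective `F`-modules. -/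
theorem proj [Module.Finite k B] {ι : F →ₐc[k] B} {π : B →ₐc[k] C} (σ : Sect ι π)
    (P : ModuleCat.{u} B) (hP : Projective P) (hf : Module.Finite B P) :
    Projective ((res (ι : F →ₐ[k] B)).obj P) := by
  have h1 : Module.Projective B P := (IsProjective.iff_projective P).2 hP
  obtain ⟨s, hs⟩ := h1.out
  let i : P ⟶ ModuleCat.of B (P →₀ B) := ModuleCat.ofHom s
  let r : ModuleCat.of B (P →₀ B) ⟶ P := ModuleCat.ofHom (Finsupp.linearCombination B id)
  have h2 : Module.Projective F ((res (ι : F →ₐ[k] B)).obj (ModuleCat.of B (P →₀ B))) := by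
    let e1 : (P →₀ (F ⊗[k] C)) ≃ₗ[F] (P →₀ ((res (ι : F →ₐ[k] B)).obj (ModuleCat.of B B))) :=
      Finsupp.mapRange.linearEquiv (SectB_free σ)
    let e2 : (P →₀ ((res (ι : F →ₐ[k] B)).obj (ModuleCat.of B B))) ≃ₗ[F]
        ((res (ι : F →ₐ[k] B)).obj (ModuleCat.of B (P →₀ B))) :=
      { toFun := fun g => g
        invFun := fun g => g
        left_inv := fun _ => rfl
        right_inv := fun _ => rfl
        map_add' := fun _ _ => rfl
        map_smul' := fun _ _ => rfl }
    exact Module.Projective.of_equiv (e1.trans e2)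
  have h3 : Module.Projective F ((res (ι : F →ₐ[k] B)).obj P) := by
    refine Module.Projective.of_split (((res (ι : F →ₐ[k] B)).map i).hom)
      (((res (ι : F →ₐ[k] B)).map r).hom) ?_
    ext x
    exact hs x
  exact (IsProjective.iff_projective ((res (ι : F →ₐ[k] B)).obj P)).1 h3

/-- `B` is free as a right `F`-module: `f ⊗ c ↦ S(s c) ι f`. -/
noncomputable def rsMap (ι : F →ₐc[k] B) (s : C →ₗ[k] B) : F ⊗[k] C →ₗ[k] B :=
  TensorProduct.lift ((LinearMap.mul k B).flip.compl₁₂ ((ι : F →ₐ[k] B).toLinearMap)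
    (HopfAlgebra.antipode k (A := B) ∘ₗ s))

theorem rsMap_tmul (ι : F →ₐc[k] B) (s : C →ₗ[k] B) (f : F) (c : C) :
    rsMap ι s (f ⊗ₜ[k] c) = HopfAlgebra.antipode k (s c) * ι f := by
  simp [rsMap]

theorem rsMap_bij [Module.Finite k B] {ι : F →ₐc[k] B} {π : B →ₐc[k] C} (hι : Function.Injective ι)
    (σ : Sect ι π) : Function.Bijective (rsMap ι σ.s) := by
  have : Module.Finite k F := Module.Finite.of_injective (ι : F →ₐ[k] B).toLinearMap hι
  let eF : F ≃ₗ[k] F := LinearEquiv.ofBijective (HopfAlgebra.antipode k (A := F))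
    Pool.Agent.Helper56.SS.antipode_bij
  have h1 : ∀ z : F ⊗[k] C, rsMap ι σ.s (TensorProduct.congr eF (LinearEquiv.refl k C) z) =
      HopfAlgebra.antipode k (fsMap ι σ.s z) := by
    intro z
    induction z using TensorProduct.induction_on with
    | zero => simp
    | add x y hx hy => simp only [map_add, hx, hy]
    | tmul f c =>
      rw [TensorProduct.congr_tmul, Sect_fs, HopfAlgebra.antipode_mul_antidistrib]
      change rsMap ι σ.s (HopfAlgebra.antipode k f ⊗ₜ[k] c) = _
      rw [rsMap_tmul, Pool.Agent.Helper90.UN.map_antipode]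
  have h2 : (rsMap ι σ.s : F ⊗[k] C → B) =
      (fun b => HopfAlgebra.antipode k b) ∘ (fsMap ι σ.s) ∘
        (TensorProduct.congr eF (LinearEquiv.refl k C)).symm := by
    funext z
    change _ = HopfAlgebra.antipode k (fsMap ι σ.s
      ((TensorProduct.congr eF (LinearEquiv.refl k C)).symm z))
    rw [← h1, LinearEquiv.apply_symm_apply]
  rw [h2]
  exact (Pool.Agent.Helper56.SS.antipode_bij (k := k) (B := B)).comp
    (σ.bij.comp (LinearEquiv.bijective _))

/-- The comparison of vector spaces. -/
noncomputable def SectB_eqv (e : F ⊗[k] C ≃ₗ[k] B)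
    (X : Type u) [AddCommGroup X] [Module k X] : (B →ₗ[k] X) ≃ (F →ₗ[k] C →ₗ[k] X) where
  toFun g := TensorProduct.curry (g ∘ₗ e.toLinearMap)
  invFun G := (TensorProduct.lift G) ∘ₗ (e.symm : B →ₗ[k] F ⊗[k] C)
  left_inv g := by
    ext b
    obtain ⟨z, rfl⟩ := e.surjective b
    rw [LinearMap.comp_apply, LinearEquiv.coe_coe, e.symm_apply_apply]
    induction z using TensorProduct.induction_on with
    | zero => simp
    | add x y hx hy => rw [map_add, map_add, map_add, hx, hy]
    | tmul f c => rfl
  right_inv G := by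
    ext f c
    rw [TensorProduct.curry_apply, LinearMap.comp_apply, LinearMap.comp_apply]
    rw [LinearEquiv.coe_coe, LinearEquiv.coe_coe, e.symm_apply_apply, TensorProduct.lift.tmul]

noncomputable def SectB_coind (ι : F →ₐc[k] B) (e : F ⊗[k] C ≃ₗ[k] B)
    (he : ∀ (f a : F) (c : C), e (f ⊗ₜ[k] c) * ι a = e ((f * a) ⊗ₜ[k] c))
    (X : Type u) [AddCommGroup X] [Module k X] :
    ((res (ι : F →ₐ[k] B)).obj (ModuleCat.of B (Coind k B X))) ≃ₗ[F]
      Coind k F (C →ₗ[k] X) where
  toFun g := SectB_eqv e X g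
  invFun G := (SectB_eqv e X).symm G
  left_inv g := (SectB_eqv e X).symm_apply_apply g
  right_inv G := (SectB_eqv e X).apply_symm_apply G
  map_add' g h := rfl
  map_smul' a g := by
    refine LinearMap.ext fun f => LinearMap.ext fun c => ?_
    exact congrArg (fun b => (show B →ₗ[k] X from g) b) (he f a c)

/-- `Hom_k(B, X)` restricted to `F` is `Hom_k(F, Hom_k(C, X))`, coinduced, hence injective
(`Coind.injective` in Helper59/FG/Hopf.lean). -/
theorem hasAcyc [Module.Finite k B] {ι : F →ₐc[k] B} {π : B →ₐc[k] C} (σ : Sect ι π)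
    (hι : Function.Injective ι) : HasAcyc ι := by
  intro X hX
  let e' : F ⊗[k] C ≃ₗ[k] B := LinearEquiv.ofBijective (rsMap ι σ.s) (rsMap_bij hι σ)
  have he' : ∀ (f a : F) (c : C), e' (f ⊗ₜ[k] c) * ι a = e' ((f * a) ⊗ₜ[k] c) := by
    intro f a c
    change rsMap ι σ.s (f ⊗ₜ[k] c) * ι a = rsMap ι σ.s ((f * a) ⊗ₜ[k] c)
    rw [rsMap_tmul, rsMap_tmul, map_mul, mul_assoc]
  have hkX : Module.Finite k X := Module.Finite.trans B X
  refine ⟨ModuleCat.of B (Coind k B X),
    ModuleCat.ofHom (Coind.lift (A := B) (LinearMap.id (M := X) (R := k))),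
    Coind.lift_id_injective, ?_, ?_, ?_⟩
  · exact (Module.injective_iff_injective_object B (Coind k B X)).1 Coind.injective
  · exact Module.Finite.of_restrictScalars_finite k B _
  · intro n hn x
    let _ : Module F (C →ₗ[k] X) :=
      Module.compHom (C →ₗ[k] X) (Bialgebra.counitAlgHom k F).toRingHom
    have : IsScalarTower k F (C →ₗ[k] X) := ⟨fun c f x => by
      change Coalgebra.counit (R := k) (c • f) • x = c • (Coalgebra.counit (R := k) f • x)
      rw [map_smul, smul_assoc]⟩
    have h1 : Injective (ModuleCat.of F (Coind k F (C →ₗ[k] X))) :=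
      (Module.injective_iff_injective_object F (Coind k F (C →ₗ[k] X))).1 Coind.injective
    let e := SectB_coind ι e' he' X
    let i : ((res (ι : F →ₐ[k] B)).obj (ModuleCat.of B (Coind k B X))) ≅
        ModuleCat.of F (Coind k F (C →ₗ[k] X)) :=
      { hom := ConcreteCategory.ofHom (C := ModuleCat.{u} F)
          (X := (res (ι : F →ₐ[k] B)).obj (ModuleCat.of B (Coind k B X)))
          (Y := ModuleCat.of F (Coind k F (C →ₗ[k] X))) e.toLinearMap
        inv := ConcreteCategory.ofHom (C := ModuleCat.{u} F)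
          (X := ModuleCat.of F (Coind k F (C →ₗ[k] X)))
          (Y := (res (ι : F →ₐ[k] B)).obj (ModuleCat.of B (Coind k B X))) e.symm.toLinearMap
        hom_inv_id := by
          ext x
          exact e.symm_apply_apply x
        inv_hom_id := by
          ext x
          exact e.apply_symm_apply x }
    have h2 : Injective ((res (ι : F →ₐ[k] B)).obj (ModuleCat.of B (Coind k B X))) :=
      Injective.of_iso i.symm h1
    obtain ⟨m, rfl⟩ : ∃ m, n = m + 1 := ⟨n - 1, by omega⟩
    exact Ext.eq_zero_of_injective x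

end

end Pool.Agent.Helper49.FA
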